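import Mathlib

set_option autoImplicit false

open Finset
open scoped Pointwise

namespace Pool.Agent.H18

variable {G : Type*} [AddCommGroup G] [Fintype G] [DecidableEq G]

/-- Number of representations as a difference. -/
def repD (A : Finset G) (d : G) : ℕ := ((A ×ˢ A).filter (fun p => p.1 - p.2 = d)).card

/-- The slice `A ∩ (A + d)`. -/
def slice (A : Finset G) (d : G) : Finset G := A.filter (fun a => a - d ∈ A)

omit [Fintype G] in
lemma card_slice (A : Finset G) (d : G) : (slice A d).card = repD A d := by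
  unfold slice repD
  refine Finset.card_bij (fun a _ => (a, a - d)) ?_ ?_ ?_
  · intro a ha
    rw [Finset.mem_filter] at ha ⊢
    refine ⟨Finset.mem_product.mpr ha, ?_⟩
    simp
  · intro a _ b _ hab
    exact (Prod.mk.inj hab).1
  · rintro ⟨a, b⟩ hab
    rw [Finset.mem_filter, Finset.mem_product] at hab
    obtain ⟨⟨ha, hb⟩, h⟩ := hab
    simp only at ha hb h
    have hb' : b = a - d := by rw [← h]; abel
    refine ⟨a, ?_, ?_⟩
    · rw [Finset.mem_filter, ← hb']; exact ⟨ha, hb⟩
    · rw [← hb']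

omit [Fintype G] in
lemma repD_le (A : Finset G) (d : G) : repD A d ≤ A.card := by
  rw [← card_slice]; exact Finset.card_filter_le _ _

omit [Fintype G] in
lemma repD_neg (A : Finset G) (d : G) : repD A (-d) = repD A d := by
  unfold repD
  refine Finset.card_bij (fun p _ => (p.2, p.1)) ?_ ?_ ?_
  · rintro ⟨a, b⟩ h
    rw [Finset.mem_filter, Finset.mem_product] at h ⊢
    refine ⟨⟨h.1.2, h.1.1⟩, ?_⟩
    have := h.2
    simp only at this ⊢
    rw [← neg_sub, this, neg_neg]
  · rintro ⟨a, b⟩ _ ⟨c, d⟩ _ h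
    simp only [Prod.mk.injEq] at h ⊢
    exact ⟨h.2, h.1⟩
  · rintro ⟨a, b⟩ h
    rw [Finset.mem_filter, Finset.mem_product] at h
    refine ⟨(b, a), ?_, rfl⟩
    rw [Finset.mem_filter, Finset.mem_product]
    refine ⟨⟨h.1.2, h.1.1⟩, ?_⟩
    have := h.2
    simp only at this ⊢
    rw [← neg_sub, this]

lemma sum_repD (A : Finset G) : ∑ d, repD A d = A.card ^ 2 := by
  have h := Finset.card_eq_sum_card_fiberwise (s := A ×ˢ A) (t := Finset.univ)
    (f := fun p : G × G => p.1 - p.2) (fun _ _ => Finset.mem_coe.mpr (Finset.mem_univ _))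
  rw [Finset.card_product] at h
  rw [sq, h]
  rfl

lemma energy_eq (A : Finset G) : A.addEnergy A = ∑ d, repD A d ^ 2 := by
  unfold Finset.addEnergy
  rw [Finset.card_eq_sum_card_fiberwise (t := Finset.univ)
    (f := fun x : (G × G) × G × G => x.1.1 - x.1.2)
    (fun _ _ => Finset.mem_coe.mpr (Finset.mem_univ _))]
  refine Finset.sum_congr rfl fun d _ => ?_
  unfold repD
  rw [sq, ← Finset.card_product]
  refine Finset.card_bij (fun x _ => (x.1, (x.2.2, x.2.1))) ?_ ?_ ?_
  · rintro ⟨⟨a, b⟩, ⟨c, e⟩⟩ h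
    simp only [Finset.mem_filter, Finset.mem_product] at h ⊢
    obtain ⟨⟨⟨⟨ha, hb⟩, hc, he⟩, h1⟩, h2⟩ := h
    refine ⟨⟨⟨ha, hb⟩, h2⟩, ⟨he, hc⟩, ?_⟩
    rw [← h2, sub_eq_sub_iff_add_eq_add, add_comm e b]
    exact h1.symm
  · rintro ⟨⟨a, b⟩, ⟨c, e⟩⟩ _ ⟨⟨a', b'⟩, ⟨c', e'⟩⟩ _ h
    simp only [Prod.mk.injEq] at h ⊢
    exact ⟨h.1, h.2.2, h.2.1⟩
  · rintro ⟨⟨a, b⟩, ⟨c, e⟩⟩ h
    simp only [Finset.mem_filter, Finset.mem_product] at h
    obtain ⟨⟨⟨ha, hb⟩, h1⟩, ⟨hc, he⟩, h2⟩ := h
    refine ⟨((a, b), (e, c)), ?_, rfl⟩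
    simp only [Finset.mem_filter, Finset.mem_product]
    refine ⟨⟨⟨⟨ha, hb⟩, he, hc⟩, ?_⟩, h1⟩
    have : a - b = c - e := by rw [h1, h2]
    rw [sub_eq_sub_iff_add_eq_add] at this
    rw [this, add_comm]

/-- Number of representations as a difference of differences. -/
def rep4 (A : Finset G) (e : G) : ℕ :=
  (((A ×ˢ A) ×ˢ (A ×ˢ A)).filter (fun x => (x.1.1 - x.1.2) - (x.2.1 - x.2.2) = e)).card

lemma rep4_eq (A : Finset G) (e : G) : rep4 A e = ∑ u, repD A u * repD A (u - e) := by
  unfold rep4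
  rw [Finset.card_eq_sum_card_fiberwise (t := Finset.univ)
    (f := fun x : (G × G) × G × G => x.1.1 - x.1.2)
    (fun _ _ => Finset.mem_coe.mpr (Finset.mem_univ _))]
  refine Finset.sum_congr rfl fun d _ => ?_
  unfold repD
  rw [← Finset.card_product]
  congr 1
  ext ⟨⟨a, b⟩, ⟨c, f⟩⟩
  simp only [Finset.mem_filter, Finset.mem_product]
  constructor
  · rintro ⟨⟨⟨⟨ha, hb⟩, hc, hf⟩, h1⟩, h2⟩
    refine ⟨⟨⟨ha, hb⟩, h2⟩, ⟨hc, hf⟩, ?_⟩
    rw [← h1, ← h2]; abel
  · rintro ⟨⟨⟨ha, hb⟩, h1⟩, ⟨hc, hf⟩, h2⟩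
    refine ⟨⟨⟨⟨ha, hb⟩, hc, hf⟩, ?_⟩, h1⟩
    rw [h1, h2]; abel

omit [Fintype G] in
lemma sum_rep4_le (A : Finset G) (E : Finset G) : ∑ e ∈ E, rep4 A e ≤ A.card ^ 4 := by
  have h : ∑ e ∈ E, rep4 A e ≤ ((A ×ˢ A) ×ˢ (A ×ˢ A)).card := by
    unfold rep4
    rw [← Finset.card_biUnion]
    · exact Finset.card_le_card (Finset.biUnion_subset.mpr fun e _ => Finset.filter_subset _ _)
    · intro e _ e' _ hne
      rw [Function.onFun, Finset.disjoint_left]
      intro x hx hx'
      rw [Finset.mem_filter] at hx hx'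
      exact hne (hx.2.symm.trans hx'.2)
  rw [Finset.card_product, Finset.card_product] at h
  calc ∑ e ∈ E, rep4 A e ≤ A.card * A.card * (A.card * A.card) := h
    _ = A.card ^ 4 := by ring

/-- A version of the Balog-Szemeredi-Gowers theorem. -/
theorem bsg (A : Finset G) (hA : A.Nonempty) (K : ℝ) (hK : 1 ≤ K)
    (hE : (A.card : ℝ) ^ 3 ≤ K * A.addEnergy A) :
    ∃ A' ⊆ A, A'.Nonempty ∧ 3 / 8 * (A.card : ℝ) ≤ K * A'.card ∧
      ((A' - A').card : ℝ) ≤ 43691 * K ^ 4 * A'.card := by
  classical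
  have hn : (0 : ℝ) < A.card := by exact_mod_cast hA.card_pos
  set n : ℝ := (A.card : ℝ) with hndef
  have hK0 : 0 < K := by linarith
  set D : Finset G := Finset.univ.filter (fun d => n / (2 * K) ≤ repD A d) with hD
  have hEsum : ((A.addEnergy A : ℕ) : ℝ) = ∑ d, (repD A d : ℝ) ^ 2 := by
    rw [energy_eq]; push_cast; rfl
  have hrsum : ∑ d, (repD A d : ℝ) = n ^ 2 := by
    have := sum_repD A
    rw [hndef]; exact_mod_cast this
  -- popular differences carry half of the energy
  have hpop : n ^ 3 / (2 * K) ≤ ∑ d ∈ D, (repD A d : ℝ) ^ 2 := by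
    have h1 : ∑ d ∈ Finset.univ.filter (fun d => ¬ (n / (2 * K) ≤ repD A d)),
        (repD A d : ℝ) ^ 2 ≤ n / (2 * K) * n ^ 2 := by
      calc ∑ d ∈ Finset.univ.filter (fun d => ¬ (n / (2 * K) ≤ repD A d)), (repD A d : ℝ) ^ 2
          ≤ ∑ d ∈ Finset.univ.filter (fun d => ¬ (n / (2 * K) ≤ repD A d)),
              n / (2 * K) * (repD A d : ℝ) := by
            refine Finset.sum_le_sum fun d hd => ?_
            rw [Finset.mem_filter] at hd
            have := (not_le.mp hd.2).le
            rw [sq]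
            exact mul_le_mul_of_nonneg_right this (Nat.cast_nonneg _)
        _ ≤ ∑ d, n / (2 * K) * (repD A d : ℝ) :=
            Finset.sum_le_sum_of_subset_of_nonneg (Finset.filter_subset _ _)
              (fun d _ _ => by positivity)
        _ = n / (2 * K) * n ^ 2 := by rw [← Finset.mul_sum, hrsum]
    have h2 := Finset.sum_filter_add_sum_filter_not Finset.univ
      (fun d => n / (2 * K) ≤ repD A d) (fun d => (repD A d : ℝ) ^ 2)
    have h3 : n ^ 3 / K ≤ ∑ d, (repD A d : ℝ) ^ 2 := by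
      rw [← hEsum, div_le_iff₀ hK0]; linarith
    have h4 : n ^ 3 / K = n ^ 3 / (2 * K) + n / (2 * K) * n ^ 2 := by
      field_simp; ring
    linarith
  set θ : ℝ := 1 / (64 * K) with hθ
  have hθ0 : 0 < θ := by positivity
  set bad : Finset (G × G) := (A ×ˢ A).filter (fun p => (repD A (p.1 - p.2) : ℝ) ≤ θ * n)
    with hbad
  set badd : G → Finset (G × G) := fun d =>
    (slice A d ×ˢ slice A d).filter (fun p => (repD A (p.1 - p.2) : ℝ) ≤ θ * n) with hbadd
  have hbadsum : ∑ d, ((badd d).card : ℝ) ≤ θ * n ^ 3 := by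
    have h1 : ∑ d, (badd d).card = ∑ p ∈ bad, repD A (p.1 - p.2) := by
      have e1 : ∀ d, (badd d).card = ∑ p ∈ bad, if p.1 - d ∈ A ∧ p.2 - d ∈ A then 1 else 0 := by
        intro d
        rw [← Finset.card_filter]
        congr 1
        ext ⟨a, b⟩
        simp only [hbadd, hbad, slice, Finset.mem_filter, Finset.mem_product]
        tauto
      simp_rw [e1]
      rw [Finset.sum_comm]
      refine Finset.sum_congr rfl fun p hp => ?_
      rw [hbad, Finset.mem_filter, Finset.mem_product] at hp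
      rw [← Finset.card_filter]
      unfold repD
      refine Finset.card_bij (fun d _ => (p.1 - d, p.2 - d)) ?_ ?_ ?_
      · intro d hd
        rw [Finset.mem_filter] at hd ⊢
        refine ⟨Finset.mem_product.mpr hd.2, ?_⟩
        simp only; abel
      · intro d _ d' _ h
        simp only [Prod.mk.injEq] at h
        exact sub_right_injective h.1
      · rintro ⟨a, b⟩ h
        rw [Finset.mem_filter, Finset.mem_product] at h
        obtain ⟨⟨ha, hb⟩, h⟩ := h
        simp only at ha hb h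
        refine ⟨p.1 - a, ?_, ?_⟩
        · rw [Finset.mem_filter]
          refine ⟨Finset.mem_univ _, ?_, ?_⟩
          · rw [sub_sub_cancel]; exact ha
          · have : p.2 - (p.1 - a) = b := by
              have : p.2 - (p.1 - a) = a - (p.1 - p.2) := by abel
              rw [this, ← h]; abel
            rw [this]; exact hb
        · have : p.2 - (p.1 - a) = b := by
            have : p.2 - (p.1 - a) = a - (p.1 - p.2) := by abel
            rw [this, ← h]; abel
          rw [sub_sub_cancel, this]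
    have h2 : ∑ d, ((badd d).card : ℝ) = ∑ p ∈ bad, (repD A (p.1 - p.2) : ℝ) := by
      exact_mod_cast h1
    rw [h2]
    calc ∑ p ∈ bad, (repD A (p.1 - p.2) : ℝ) ≤ ∑ p ∈ bad, θ * n := by
          refine Finset.sum_le_sum fun p hp => ?_
          rw [hbad, Finset.mem_filter] at hp
          exact hp.2
      _ = bad.card * (θ * n) := by rw [Finset.sum_const, nsmul_eq_mul]
      _ ≤ n ^ 2 * (θ * n) := by
          refine mul_le_mul_of_nonneg_right ?_ (by positivity)
          have : bad.card ≤ (A ×ˢ A).card := Finset.card_filter_le _ _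
          rw [Finset.card_product] at this
          rw [hndef, sq]
          exact_mod_cast this
      _ = θ * n ^ 3 := by ring
  -- choose a good slice
  obtain ⟨d, hdD, hd⟩ : ∃ d ∈ D, 16 * ((badd d).card : ℝ) ≤ (repD A d : ℝ) ^ 2 := by
    by_contra hno
    push Not at hno
    have hDne : D.Nonempty := by
      rw [Finset.nonempty_iff_ne_empty]
      intro h
      rw [h, Finset.sum_empty] at hpop
      have : 0 < n ^ 3 / (2 * K) := by positivity
      linarith
    have h1 : ∑ d ∈ D, (repD A d : ℝ) ^ 2 < ∑ d ∈ D, 16 * ((badd d).card : ℝ) :=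
      Finset.sum_lt_sum_of_nonempty hDne fun d hd => hno d hd
    have h2 : ∑ d ∈ D, 16 * ((badd d).card : ℝ) ≤ 16 * (θ * n ^ 3) := by
      rw [← Finset.mul_sum]
      refine mul_le_mul_of_nonneg_left (le_trans ?_ hbadsum) (by norm_num)
      exact Finset.sum_le_sum_of_subset_of_nonneg (Finset.subset_univ _)
        (fun _ _ _ => Nat.cast_nonneg _)
    have h3 : 16 * (θ * n ^ 3) = n ^ 3 / (2 * K) / 2 := by
      rw [hθ]; field_simp; norm_num
    have h4 : 0 < n ^ 3 / (2 * K) := by positivity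
    linarith
  set Ad := slice A d with hAd
  set s : ℝ := (Ad.card : ℝ) with hs
  have hsr : s = repD A d := by rw [hs, hAd, card_slice]
  have hsn : n / (2 * K) ≤ s := by
    rw [hD, Finset.mem_filter] at hdD
    rw [hsr]; exact hdD.2
  have hs0 : 0 < s := lt_of_lt_of_le (by positivity) hsn
  rw [← hsr] at hd
  -- bad partners
  set bp : G → Finset G := fun a => Ad.filter (fun b => (repD A (a - b) : ℝ) ≤ θ * n) with hbp
  set A' : Finset G := Ad.filter (fun a => ((bp a).card : ℝ) ≤ s / 4) with hA'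
  have hA'Ad : A' ⊆ Ad := Finset.filter_subset _ _
  have hAdA : Ad ⊆ A := Finset.filter_subset _ _
  have hbadcard : ((badd d).card : ℝ) = ∑ a ∈ Ad, ((bp a).card : ℝ) := by
    have : (badd d).card = ∑ a ∈ Ad, (bp a).card := by
      rw [hbadd]
      simp only
      rw [← hAd, Finset.card_filter, Finset.sum_product]
      refine Finset.sum_congr rfl fun a _ => ?_
      rw [hbp, Finset.card_filter]
    exact_mod_cast this
  have hA'card : 3 / 4 * s ≤ A'.card := by
    have h1 := Finset.card_filter_add_card_filter_not (s := Ad)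
      (fun a => ((bp a).card : ℝ) ≤ s / 4)
    have h2 : (A'.card : ℝ)
        + (Ad.filter (fun a => ¬ ((bp a).card : ℝ) ≤ s / 4)).card = s := by
      rw [hs]; exact_mod_cast h1
    have h3 : ((Ad.filter (fun a => ¬ ((bp a).card : ℝ) ≤ s / 4)).card : ℝ) * (s / 4)
        ≤ (badd d).card := by
      rw [hbadcard]
      calc ((Ad.filter (fun a => ¬ ((bp a).card : ℝ) ≤ s / 4)).card : ℝ) * (s / 4)
          = ∑ a ∈ Ad.filter (fun a => ¬ ((bp a).card : ℝ) ≤ s / 4), s / 4 := by
            rw [Finset.sum_const, nsmul_eq_mul]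
        _ ≤ ∑ a ∈ Ad.filter (fun a => ¬ ((bp a).card : ℝ) ≤ s / 4), ((bp a).card : ℝ) := by
            refine Finset.sum_le_sum fun a ha => ?_
            rw [Finset.mem_filter] at ha
            exact (not_le.mp ha.2).le
        _ ≤ ∑ a ∈ Ad, ((bp a).card : ℝ) :=
            Finset.sum_le_sum_of_subset_of_nonneg (Finset.filter_subset _ _)
              (fun _ _ _ => Nat.cast_nonneg _)
    have h4 : ((Ad.filter (fun a => ¬ ((bp a).card : ℝ) ≤ s / 4)).card : ℝ) * (s / 4)
        ≤ s / 4 * (s / 4) := by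
      refine h3.trans ?_
      nlinarith
    have h5 := le_of_mul_le_mul_right h4 (by positivity)
    linarith
  have hA'ne : A'.Nonempty := by
    rw [← Finset.card_pos]
    have : (0 : ℝ) < A'.card := lt_of_lt_of_le (by positivity) hA'card
    exact_mod_cast this
  refine ⟨A', hA'Ad.trans hAdA, hA'ne, ?_, ?_⟩
  · have h1 : n / (2 * K) * (3 / 4) ≤ A'.card := by linarith
    have h2 : n / (2 * K) * (3 / 4) * K ≤ A'.card * K := mul_le_mul_of_nonneg_right h1 hK0.le
    have h3 : n / (2 * K) * (3 / 4) * K = 3 / 8 * n := by field_simp; ring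
    linarith
  · -- the doubling of `A'`
    have h1 : ∀ e ∈ A' - A', s / 2 * (θ * n) ^ 2 ≤ (rep4 A e : ℝ) := by
      intro e he
      obtain ⟨a, ha, b, hb, hab⟩ := Finset.mem_sub.mp he
      rw [hA', Finset.mem_filter] at ha hb
      set C : Finset G := Ad \ (bp a ∪ bp b) with hC
      have hCcard : s / 2 ≤ C.card := by
        have e1 : Ad.card ≤ C.card + (bp a ∪ bp b).card := by
          have := Finset.le_card_sdiff (bp a ∪ bp b) Ad
          rw [hC]; omega
        have e2 : (bp a ∪ bp b).card ≤ (bp a).card + (bp b).card := Finset.card_union_le _ _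
        have e3 : s ≤ C.card + ((bp a).card + (bp b).card) := by
          rw [hs]; exact_mod_cast e1.trans (by omega)
        linarith [ha.2, hb.2]
      have hCg : ∀ c ∈ C, θ * n ≤ repD A (a - c) ∧ θ * n ≤ repD A (b - c) := by
        intro c hc
        rw [hC, Finset.mem_sdiff, Finset.mem_union] at hc
        push Not at hc
        obtain ⟨hcA, hc1, hc2⟩ := hc
        constructor
        · by_contra hlt
          apply hc1
          rw [hbp]; simp only
          rw [Finset.mem_filter]; exact ⟨hcA, (not_le.mp hlt).le⟩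
        · by_contra hlt
          apply hc2
          rw [hbp]; simp only
          rw [Finset.mem_filter]; exact ⟨hcA, (not_le.mp hlt).le⟩
      have e1 : (rep4 A e : ℝ) = ∑ u, (repD A u : ℝ) * repD A (u - e) := by
        rw [rep4_eq]; push_cast; rfl
      rw [e1]
      calc s / 2 * (θ * n) ^ 2 ≤ C.card * (θ * n) ^ 2 := by gcongr
        _ = ∑ c ∈ C, (θ * n) ^ 2 := by rw [Finset.sum_const, nsmul_eq_mul]
        _ ≤ ∑ c ∈ C, (repD A (a - c) : ℝ) * repD A (a - c - e) := by
            refine Finset.sum_le_sum fun c hc => ?_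
            have e2 : a - c - e = b - c := by rw [← hab]; abel
            rw [e2, sq]
            have := hCg c hc
            gcongr
            · exact this.1
            · exact this.2
        _ = ∑ u ∈ C.image (fun c => a - c), (repD A u : ℝ) * repD A (u - e) := by
            rw [Finset.sum_image]
            intro x _ y _ h
            exact sub_right_injective h
        _ ≤ ∑ u, (repD A u : ℝ) * repD A (u - e) :=
            Finset.sum_le_sum_of_subset_of_nonneg (Finset.subset_univ _)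
              (fun _ _ _ => by positivity)
    have h2 : ((A' - A').card : ℝ) * (s / 2 * (θ * n) ^ 2) ≤ n ^ 4 := by
      calc ((A' - A').card : ℝ) * (s / 2 * (θ * n) ^ 2)
          = ∑ e ∈ A' - A', s / 2 * (θ * n) ^ 2 := by rw [Finset.sum_const, nsmul_eq_mul]
        _ ≤ ∑ e ∈ A' - A', (rep4 A e : ℝ) := Finset.sum_le_sum h1
        _ ≤ n ^ 4 := by
            have := sum_rep4_le A (A' - A')
            rw [hndef]; exact_mod_cast this
    have h3 : n ≤ 2 * K * s := by
      rw [div_le_iff₀ (by positivity)] at hsn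
      linarith
    have h4 : ((A' - A').card : ℝ) * (s / 2 * (θ * n) ^ 2)
        = ((A' - A').card : ℝ) * s * (n ^ 2 / (8192 * K ^ 2)) := by
      rw [hθ]; field_simp; ring
    rw [h4] at h2
    have h5 : ((A' - A').card : ℝ) * s ≤ 8192 * K ^ 2 * n ^ 2 := by
      have e1 : 0 < n ^ 2 / (8192 * K ^ 2) := by positivity
      have e2 : n ^ 4 = 8192 * K ^ 2 * n ^ 2 * (n ^ 2 / (8192 * K ^ 2)) := by
        field_simp
      rw [e2] at h2
      exact le_of_mul_le_mul_right h2 e1
    have h6 : n ^ 2 ≤ (2 * K * s) ^ 2 := pow_le_pow_left₀ hn.le h3 2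
    have h7 : ((A' - A').card : ℝ) * s ≤ (32768 * K ^ 4 * s) * s := by
      refine h5.trans ?_
      calc 8192 * K ^ 2 * n ^ 2 ≤ 8192 * K ^ 2 * (2 * K * s) ^ 2 := by gcongr
        _ = _ := by ring
    have h8 := le_of_mul_le_mul_right h7 hs0
    refine h8.trans ?_
    have h9 : s ≤ 4 / 3 * A'.card := by linarith
    calc 32768 * K ^ 4 * s ≤ 32768 * K ^ 4 * (4 / 3 * A'.card) := by gcongr
      _ = (131072 / 3) * (K ^ 4 * A'.card) := by ring
      _ ≤ 43691 * (K ^ 4 * A'.card) := by gcongr; norm_num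
      _ = _ := by ring

end Pool.Agent.H18
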