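import Mathlib

set_option autoImplicit false

open Finset ComplexConjugate

namespace Pool.Agent.H18

variable {N : ℕ} [NeZero N]

/-- `ee x = exp (2 π i x / N)`. -/
noncomputable def ee (x : ZMod N) : ℂ := ZMod.stdAddChar x

lemma ee_add (x y : ZMod N) : ee (x + y) = ee x * ee y := AddChar.map_add_eq_mul _ _ _

lemma ee_zero : ee (0 : ZMod N) = 1 := AddChar.map_zero_eq_one _

lemma norm_ee (x : ZMod N) : ‖ee x‖ = 1 := by
  rw [ee, ZMod.stdAddChar_apply]; exact Circle.norm_coe _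

lemma ee_neg (x : ZMod N) : ee (-x) = conj (ee x) := by
  rw [ee, ee, AddChar.map_neg_eq_conj]

lemma ee_ne_zero (x : ZMod N) : ee x ≠ 0 := by
  intro h
  have := norm_ee x
  rw [h] at this
  simp at this

lemma sum_ee_mul (b : ZMod N) : ∑ x : ZMod N, ee (x * b) = if b = 0 then (N : ℂ) else 0 := by
  unfold ee
  rw [AddChar.sum_mulShift b (ZMod.isPrimitive_stdAddChar N)]
  simp [ZMod.card]

lemma norm_ee_intCast_sub_one (n : ℤ) :
    ‖ee (n : ZMod N) - 1‖ ≤ 2 * Real.pi * |(n : ℝ)| / N := by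
  unfold ee
  rw [ZMod.stdAddChar_coe]
  have h := @Real.norm_exp_I_mul_ofReal_sub_one_le (2 * Real.pi * n / N)
  have h2 : Complex.I * ((2 * Real.pi * n / N : ℝ) : ℂ) = 2 * Real.pi * Complex.I * n / N := by
    push_cast; ring
  rw [h2] at h
  refine h.trans (le_of_eq ?_)
  rw [Real.norm_eq_abs, abs_div, abs_mul, abs_of_pos (by positivity : (0:ℝ) < 2 * Real.pi)]
  simp

/-- Parseval for exponential sums with distinct frequencies. -/
lemma sum_normSq_expSum {ι : Type*} [DecidableEq ι] (I : Finset ι) (φ : ι → ZMod N)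
    (hφ : Set.InjOn φ I) (a : ι → ℂ) :
    ∑ j : ZMod N, ‖∑ i ∈ I, a i * ee (-(j * φ i))‖ ^ 2 = N * ∑ i ∈ I, ‖a i‖ ^ 2 := by
  have key : (∑ j : ZMod N, ((‖∑ i ∈ I, a i * ee (-(j * φ i))‖ ^ 2 : ℝ) : ℂ))
      = ((N * ∑ i ∈ I, ‖a i‖ ^ 2 : ℝ) : ℂ) := by
    have h1 : ∀ j : ZMod N, ((‖∑ i ∈ I, a i * ee (-(j * φ i))‖ ^ 2 : ℝ) : ℂ)
        = ∑ i ∈ I, ∑ k ∈ I, a i * conj (a k) * ee (j * (φ k - φ i)) := by
      intro j
      rw [Complex.ofReal_pow, ← Complex.mul_conj', map_sum, Finset.sum_mul_sum]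
      refine Finset.sum_congr rfl fun i _ => Finset.sum_congr rfl fun k _ => ?_
      rw [map_mul, ← ee_neg, neg_neg]
      have : ee (j * (φ k - φ i)) = ee (-(j * φ i)) * ee (j * φ k) := by
        rw [← ee_add]; congr 1; ring
      rw [this]; ring
    simp_rw [h1]
    rw [Finset.sum_comm]
    simp_rw [Finset.sum_comm (s := (Finset.univ : Finset (ZMod N)))]
    simp_rw [← Finset.mul_sum, sum_ee_mul]
    have h2 : ∀ i ∈ I, ∑ k ∈ I, a i * conj (a k) * (if φ k - φ i = 0 then (N : ℂ) else 0)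
        = (N : ℂ) * (‖a i‖ ^ 2 : ℝ) := by
      intro i hi
      rw [Finset.sum_eq_single i]
      · rw [sub_self, if_pos rfl, Complex.ofReal_pow, ← Complex.mul_conj']; ring
      · intro k hk hki
        rw [if_neg, mul_zero]
        intro h0
        exact hki (hφ hk hi (sub_eq_zero.mp h0))
      · intro h; exact absurd hi h
    rw [Finset.sum_congr rfl h2]
    push_cast
    rw [Finset.mul_sum]
  exact_mod_cast key

omit [NeZero N] in
/-- Uniqueness of representatives: for `|n| ≤ 2m`, `4m+1 ≤ N` there is exactly one `ξ ∈ [-2m,2m]`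
with a given residue. -/
lemma injOn_intCast_Icc (m : ℕ) (hm : 4 * m + 1 ≤ N) :
    Set.InjOn (fun n : ℤ => (n : ZMod N)) (Finset.Icc (-(2 * m : ℤ)) (2 * m)) := by
  intro a ha b hb hab
  simp only [Finset.coe_Icc, Set.mem_Icc] at ha hb
  have h := (ZMod.intCast_eq_intCast_iff_dvd_sub a b N).mp hab
  obtain ⟨c, hc⟩ := h
  by_contra hne
  have hc0 : c ≠ 0 := by
    rintro rfl
    apply hne; linarith
  have h1 : (1 : ℤ) ≤ |c| := Int.one_le_abs hc0
  have h2 : |b - a| = N * |c| := by rw [hc, abs_mul]; simp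
  have h3 : |b - a| ≤ 4 * m := by rw [abs_le]; constructor <;> linarith [ha.1, ha.2, hb.1, hb.2]
  have h4 : (N : ℤ) ≤ N * |c| := le_mul_of_one_le_right (by positivity) h1
  have h5 : ((4 * m + 1 : ℕ) : ℤ) ≤ N := by exact_mod_cast hm
  push_cast at h5
  linarith

/-- Dirichlet type kernel. -/
noncomputable def dirK (I : Finset ℤ) (j : ZMod N) : ℂ := ∑ n ∈ I, ee (-(j * (n : ZMod N)))

lemma sum_dirK_sq (I : Finset ℤ) (hI : Set.InjOn (fun n : ℤ => (n : ZMod N)) I) :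
    ∑ j : ZMod N, ‖dirK I j‖ ^ 2 = N * I.card := by
  have h := sum_normSq_expSum I (fun n : ℤ => (n : ZMod N)) hI (fun _ => (1 : ℂ))
  simp only [one_mul, norm_one, one_pow, Finset.sum_const, nsmul_eq_mul, mul_one] at h
  exact h

lemma sum_dirK_sub_sq (I : Finset ℤ) (hI : Set.InjOn (fun n : ℤ => (n : ZMod N)) I) (r : ℝ)
    (hr : ∀ n ∈ I, |(n : ℝ)| ≤ r) :
    ∑ j : ZMod N, ‖dirK I (j - 1) - dirK I j‖ ^ 2 ≤ I.card * (2 * Real.pi * r) ^ 2 / N := by
  have hN : (0 : ℝ) < N := by exact_mod_cast Nat.pos_of_ne_zero (NeZero.ne N)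
  have h1 : ∀ j : ZMod N, dirK I (j - 1) - dirK I j
      = ∑ n ∈ I, (ee ((n : ℤ) : ZMod N) - 1) * ee (-(j * (n : ZMod N))) := by
    intro j
    unfold dirK
    rw [← Finset.sum_sub_distrib]
    refine Finset.sum_congr rfl fun n _ => ?_
    have : -((j - 1) * (n : ZMod N)) = (n : ZMod N) + -(j * (n : ZMod N)) := by ring
    rw [this, ee_add]; ring
  simp_rw [h1]
  rw [sum_normSq_expSum I (fun n : ℤ => (n : ZMod N)) hI (fun n => ee ((n : ℤ) : ZMod N) - 1)]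
  have h2 : ∀ n ∈ I, ‖ee ((n : ℤ) : ZMod N) - 1‖ ^ 2 ≤ (2 * Real.pi * r / N) ^ 2 := by
    intro n hn
    have h3 := norm_ee_intCast_sub_one (N := N) n
    have h4 : 2 * Real.pi * |(n : ℝ)| / N ≤ 2 * Real.pi * r / N := by
      have := hr n hn
      have hpi := Real.pi_pos
      gcongr
    exact pow_le_pow_left₀ (norm_nonneg _) (h3.trans h4) 2
  calc (N : ℝ) * ∑ n ∈ I, ‖ee ((n : ℤ) : ZMod N) - 1‖ ^ 2
      ≤ N * ∑ n ∈ I, (2 * Real.pi * r / N) ^ 2 :=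
        mul_le_mul_of_nonneg_left (Finset.sum_le_sum h2) hN.le
    _ = I.card * (2 * Real.pi * r) ^ 2 / N := by
        rw [Finset.sum_const, nsmul_eq_mul]; field_simp

lemma sum_shift (f : ZMod N → ℝ) (c : ZMod N) : ∑ j : ZMod N, f (j - c) = ∑ j, f j :=
  Fintype.sum_equiv (Equiv.subRight c) _ _ (fun _ => rfl)

lemma cs_bound (x y : ZMod N → ℂ) (X Y Z : ℝ) (hZ : 0 ≤ Z)
    (hx : ∑ j, ‖x j‖ ^ 2 ≤ X) (hy : ∑ j, ‖y j‖ ^ 2 ≤ Y) (h : X * Y ≤ Z ^ 2) :
    ∑ j, ‖x j * y j‖ ≤ Z := by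
  simp_rw [norm_mul]
  have h1 := Finset.sum_mul_sq_le_sq_mul_sq Finset.univ (fun j => ‖x j‖) (fun j => ‖y j‖)
  have hX0 : 0 ≤ ∑ j, ‖x j‖ ^ 2 := Finset.sum_nonneg fun _ _ => by positivity
  have hY0 : 0 ≤ ∑ j, ‖y j‖ ^ 2 := Finset.sum_nonneg fun _ _ => by positivity
  have h2 : (∑ j, ‖x j‖ ^ 2) * ∑ j, ‖y j‖ ^ 2 ≤ X * Y := mul_le_mul hx hy hY0 (hX0.trans hx)
  exact le_of_sq_le_sq' hZ (h1.trans (h2.trans h))
where
  le_of_sq_le_sq' {a b : ℝ} (hb : 0 ≤ b) (h : a ^ 2 ≤ b ^ 2) : a ≤ b := by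
    exact (abs_le_of_sq_le_sq' h hb).2

lemma card_Icc_int (m : ℕ) : (Finset.Icc (-(m : ℤ)) m).card = 2 * m + 1 := by
  rw [Int.card_Icc]; omega

/-- `L^1` bound for the discrete derivative of the de la Vallee Poussin kernel. -/
lemma sum_kernel_le (m : ℕ) (hm : 4 * m + 1 ≤ N) :
    ∑ j : ZMod N, ‖dirK (Finset.Icc (-(2 * m : ℤ)) (2 * m)) (j - 1) *
        dirK (Finset.Icc (-(m : ℤ)) m) (j - 1)
      - dirK (Finset.Icc (-(2 * m : ℤ)) (2 * m)) j * dirK (Finset.Icc (-(m : ℤ)) m) j‖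
      ≤ 27 * m * (2 * m + 1) := by
  set I1 := Finset.Icc (-(2 * m : ℤ)) (2 * m) with hI1
  set I2 := Finset.Icc (-(m : ℤ)) m with hI2
  have hN : (0 : ℝ) < N := by exact_mod_cast Nat.pos_of_ne_zero (NeZero.ne N)
  have inj1 : Set.InjOn (fun n : ℤ => (n : ZMod N)) I1 := injOn_intCast_Icc m hm
  have sub12 : I2 ⊆ I1 := by
    intro n hn
    rw [hI2, Finset.mem_Icc] at hn
    rw [hI1, Finset.mem_Icc]
    constructor <;> omega
  have inj2 : Set.InjOn (fun n : ℤ => (n : ZMod N)) I2 :=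
    inj1.mono (by exact_mod_cast sub12)
  have c1 : (I1.card : ℝ) = 4 * m + 1 := by
    have := card_Icc_int (2 * m)
    rw [hI1]
    push_cast at this
    rw [this]; push_cast; ring
  have c2 : (I2.card : ℝ) = 2 * m + 1 := by
    rw [hI2, card_Icc_int]; push_cast; ring
  have r1 : ∀ n ∈ I1, |(n : ℝ)| ≤ 2 * m := by
    intro n hn
    rw [hI1, Finset.mem_Icc] at hn
    rw [abs_le]
    constructor
    · have : ((-(2 * m : ℤ) : ℤ) : ℝ) ≤ n := by exact_mod_cast hn.1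
      push_cast at this; linarith
    · have : (n : ℝ) ≤ ((2 * m : ℤ) : ℝ) := by exact_mod_cast hn.2
      push_cast at this; linarith
  have r2 : ∀ n ∈ I2, |(n : ℝ)| ≤ m := by
    intro n hn
    rw [hI2, Finset.mem_Icc] at hn
    rw [abs_le]
    constructor
    · have : ((-(m : ℤ) : ℤ) : ℝ) ≤ n := by exact_mod_cast hn.1
      push_cast at this; linarith
    · have : (n : ℝ) ≤ ((m : ℤ) : ℝ) := by exact_mod_cast hn.2
      push_cast at this; linarith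
  have s1 := sum_dirK_sq I1 inj1
  have s2 := sum_dirK_sq I2 inj2
  have d1 := sum_dirK_sub_sq I1 inj1 (2 * m) r1
  have d2 := sum_dirK_sub_sq I2 inj2 m r2
  have s2' : ∑ j : ZMod N, ‖dirK I2 (j - 1)‖ ^ 2 = N * I2.card := by
    rw [← s2]; exact sum_shift (fun j => ‖dirK I2 j‖ ^ 2) 1
  have hpi : Real.pi ^ 2 ≤ 9.9225 := by
    have h1 := Real.pi_lt_d2
    have h2 := Real.pi_pos
    nlinarith
  have hm0 : (0 : ℝ) ≤ m := Nat.cast_nonneg m
  have b1 : ∑ j : ZMod N, ‖(dirK I1 (j - 1) - dirK I1 j) * dirK I2 (j - 1)‖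
      ≤ 18 * m * (2 * m + 1) := by
    refine cs_bound _ _ _ _ _ (by positivity) d1 (le_of_eq s2') ?_
    rw [c1, c2]
    have : (4 * (m : ℝ) + 1) * (2 * Real.pi * (2 * m)) ^ 2 / N * (N * (2 * m + 1))
        = 16 * Real.pi ^ 2 * m ^ 2 * ((4 * m + 1) * (2 * m + 1)) := by
      field_simp; ring
    rw [this]
    have h3 : (4 * (m : ℝ) + 1) * (2 * m + 1) ≤ 2 * (2 * m + 1) ^ 2 := by nlinarith
    calc 16 * Real.pi ^ 2 * (m : ℝ) ^ 2 * ((4 * (m : ℝ) + 1) * (2 * (m : ℝ) + 1))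
        ≤ 16 * 9.9225 * (m : ℝ) ^ 2 * (2 * (2 * (m : ℝ) + 1) ^ 2) := by gcongr
      _ ≤ (18 * (m : ℝ) * (2 * (m : ℝ) + 1)) ^ 2 := by
          have : 0 ≤ (m : ℝ) ^ 2 * (2 * m + 1) ^ 2 := by positivity
          nlinarith
  have b2 : ∑ j : ZMod N, ‖dirK I1 j * (dirK I2 (j - 1) - dirK I2 j)‖
      ≤ 9 * m * (2 * m + 1) := by
    refine cs_bound _ _ _ _ _ (by positivity) (le_of_eq s1) d2 ?_
    rw [c1, c2]
    have : (N : ℝ) * (4 * m + 1) * ((2 * m + 1) * (2 * Real.pi * m) ^ 2 / N)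
        = 4 * Real.pi ^ 2 * m ^ 2 * ((4 * m + 1) * (2 * m + 1)) := by
      field_simp; ring
    rw [this]
    have h3 : (4 * (m : ℝ) + 1) * (2 * m + 1) ≤ 2 * (2 * m + 1) ^ 2 := by nlinarith
    calc 4 * Real.pi ^ 2 * (m : ℝ) ^ 2 * ((4 * (m : ℝ) + 1) * (2 * (m : ℝ) + 1))
        ≤ 4 * 9.9225 * (m : ℝ) ^ 2 * (2 * (2 * (m : ℝ) + 1) ^ 2) := by gcongr
      _ ≤ (9 * (m : ℝ) * (2 * (m : ℝ) + 1)) ^ 2 := by
          have : 0 ≤ (m : ℝ) ^ 2 * (2 * m + 1) ^ 2 := by positivity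
          nlinarith
  calc ∑ j : ZMod N, ‖dirK I1 (j - 1) * dirK I2 (j - 1) - dirK I1 j * dirK I2 j‖
      ≤ ∑ j : ZMod N, (‖(dirK I1 (j - 1) - dirK I1 j) * dirK I2 (j - 1)‖
          + ‖dirK I1 j * (dirK I2 (j - 1) - dirK I2 j)‖) := by
        refine Finset.sum_le_sum fun j _ => ?_
        have : dirK I1 (j - 1) * dirK I2 (j - 1) - dirK I1 j * dirK I2 j
          = (dirK I1 (j - 1) - dirK I1 j) * dirK I2 (j - 1)
            + dirK I1 j * (dirK I2 (j - 1) - dirK I2 j) := by ring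
        rw [this]; exact norm_add_le _ _
    _ ≤ 18 * m * (2 * m + 1) + 9 * m * (2 * m + 1) := by
        rw [Finset.sum_add_distrib]; exact add_le_add b1 b2
    _ = 27 * m * (2 * m + 1) := by ring

/-- The de la Vallee Poussin multiplier is one on `[-m,m]`. -/
lemma sum_kernel_mul (m : ℕ) (hm : 4 * m + 1 ≤ N) (θ : ℤ) (hθ : |θ| ≤ m) :
    ∑ j : ZMod N, dirK (Finset.Icc (-(2 * m : ℤ)) (2 * m)) j * dirK (Finset.Icc (-(m : ℤ)) m) j *
      ee (j * (θ : ZMod N)) = N * (2 * m + 1) := by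
  set I1 := Finset.Icc (-(2 * m : ℤ)) (2 * m) with hI1
  set I2 := Finset.Icc (-(m : ℤ)) m with hI2
  have inj1 : Set.InjOn (fun n : ℤ => (n : ZMod N)) I1 := injOn_intCast_Icc m hm
  have h1 : ∀ j : ZMod N, dirK I1 j * dirK I2 j * ee (j * (θ : ZMod N))
      = ∑ n2 ∈ I2, ∑ n1 ∈ I1, ee (j * ((θ : ZMod N) - (n2 : ZMod N) - (n1 : ZMod N))) := by
    intro j
    unfold dirK
    rw [mul_comm (∑ n ∈ I1, _), Finset.sum_mul_sum, Finset.sum_mul]
    refine Finset.sum_congr rfl fun n2 _ => ?_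
    rw [Finset.sum_mul]
    refine Finset.sum_congr rfl fun n1 _ => ?_
    rw [← ee_add, ← ee_add]; congr 1; ring
  simp_rw [h1]
  rw [Finset.sum_comm]
  have h2 : ∀ n2 ∈ I2, ∑ j : ZMod N, ∑ n1 ∈ I1, ee (j * ((θ : ZMod N) - (n2 : ZMod N) - (n1 : ZMod N))) = N := by
    intro n2 hn2
    rw [Finset.sum_comm]
    simp_rw [sum_ee_mul]
    rw [hI2, Finset.mem_Icc] at hn2
    have hθ' := abs_le.mp hθ
    have hmem : θ - n2 ∈ I1 := by
      rw [hI1, Finset.mem_Icc]; constructor <;> omega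
    rw [Finset.sum_eq_single (θ - n2)]
    · rw [if_pos]; push_cast; ring
    · intro n1 hn1 hne
      rw [if_neg]
      intro h0
      apply hne
      apply inj1 hn1 hmem
      push_cast
      exact (sub_eq_zero.mp h0).symm
    · intro h; exact absurd hmem h
  rw [Finset.sum_congr rfl h2, Finset.sum_const, hI2, card_Icc_int, nsmul_eq_mul]
  push_cast; ring

/-- A discrete Bernstein type inequality: an exponential sum on `ZMod N` bounded by `M` whose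
frequencies are at most `m` in absolute value changes by at most `27 m M / N` between `0` and `1`. -/
theorem bernstein {ι : Type*} (I : Finset ι) (c : ι → ℂ) (θ : ι → ℤ) (m : ℕ)
    (hm : 4 * m + 1 ≤ N) (hθ : ∀ i ∈ I, |θ i| ≤ m) (M : ℝ)
    (hM : ∀ j : ZMod N, ‖∑ i ∈ I, c i * ee (j * (θ i : ZMod N))‖ ≤ M) :
    ‖(∑ i ∈ I, c i * ee ((θ i : ℤ) : ZMod N)) - ∑ i ∈ I, c i‖ ≤ 27 * (m / N) * M := by
  have hN : (0 : ℝ) < N := by exact_mod_cast Nat.pos_of_ne_zero (NeZero.ne N)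
  set I1 := Finset.Icc (-(2 * m : ℤ)) (2 * m) with hI1
  set I2 := Finset.Icc (-(m : ℤ)) m with hI2
  set u : ZMod N → ℂ := fun j => ∑ i ∈ I, c i * ee (j * (θ i : ZMod N)) with hu
  have hM0 : 0 ≤ M := (norm_nonneg _).trans (hM 0)
  have e1 : ∀ i ∈ I, ∑ j : ZMod N, dirK I1 (j - 1) * dirK I2 (j - 1) * ee (j * (θ i : ZMod N))
      = ee ((θ i : ℤ) : ZMod N) * (N * (2 * m + 1)) := by
    intro i hi
    rw [← sum_kernel_mul m hm (θ i) (hθ i hi), Finset.mul_sum]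
    refine Fintype.sum_equiv (Equiv.subRight 1) _ _ (fun j => ?_)
    simp only [Equiv.subRight_apply]
    have : ee (j * (θ i : ZMod N)) = ee ((θ i : ℤ) : ZMod N) * ee ((j - 1) * (θ i : ZMod N)) := by
      rw [← ee_add]; congr 1; ring
    rw [this]; ring
  have key : ∑ j : ZMod N, (dirK I1 (j - 1) * dirK I2 (j - 1) - dirK I1 j * dirK I2 j) * u j
      = (N * (2 * m + 1)) * ((∑ i ∈ I, c i * ee ((θ i : ℤ) : ZMod N)) - ∑ i ∈ I, c i) := by
    have h1 : ∀ j : ZMod N, (dirK I1 (j - 1) * dirK I2 (j - 1) - dirK I1 j * dirK I2 j) * u j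
        = ∑ i ∈ I, (c i * (dirK I1 (j - 1) * dirK I2 (j - 1) * ee (j * (θ i : ZMod N)))
          - c i * (dirK I1 j * dirK I2 j * ee (j * (θ i : ZMod N)))) := by
      intro j
      rw [hu, Finset.mul_sum]
      refine Finset.sum_congr rfl fun i _ => ?_
      ring
    simp_rw [h1]
    rw [Finset.sum_comm]
    rw [← Finset.sum_sub_distrib, Finset.mul_sum]
    refine Finset.sum_congr rfl fun i hi => ?_
    rw [Finset.sum_sub_distrib, ← Finset.mul_sum, ← Finset.mul_sum, e1 i hi,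
      sum_kernel_mul m hm (θ i) (hθ i hi)]
    ring
  have h2 : ‖∑ j : ZMod N, (dirK I1 (j - 1) * dirK I2 (j - 1) - dirK I1 j * dirK I2 j) * u j‖
      ≤ (27 * m * (2 * m + 1)) * M := by
    refine (norm_sum_le _ _).trans ?_
    calc ∑ j : ZMod N, ‖(dirK I1 (j - 1) * dirK I2 (j - 1) - dirK I1 j * dirK I2 j) * u j‖
        ≤ ∑ j : ZMod N, ‖dirK I1 (j - 1) * dirK I2 (j - 1) - dirK I1 j * dirK I2 j‖ * M := by
          refine Finset.sum_le_sum fun j _ => ?_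
          rw [norm_mul]
          exact mul_le_mul_of_nonneg_left (hM j) (norm_nonneg _)
      _ ≤ (27 * m * (2 * m + 1)) * M := by
          rw [← Finset.sum_mul]
          exact mul_le_mul_of_nonneg_right (sum_kernel_le m hm) hM0
  rw [key, norm_mul] at h2
  have h3 : ‖((N : ℂ) * (2 * m + 1))‖ = (N : ℝ) * (2 * m + 1) := by
    have : ((N : ℂ) * (2 * m + 1)) = ((N * (2 * m + 1) : ℝ) : ℂ) := by push_cast; ring
    rw [this, Complex.norm_real, Real.norm_eq_abs, abs_of_pos (by positivity)]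
  rw [h3] at h2
  have h4 : (0 : ℝ) < 2 * m + 1 := by positivity
  have h5 : (N : ℝ) * (2 * m + 1) *
      ‖(∑ i ∈ I, c i * ee ((θ i : ℤ) : ZMod N)) - ∑ i ∈ I, c i‖
      ≤ (N : ℝ) * (2 * m + 1) * (27 * (m / N) * M) := by
    refine h2.trans (le_of_eq ?_)
    field_simp
  exact le_of_mul_le_mul_left h5 (by positivity)

end Pool.Agent.H18
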