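import Pool.Agent.H18.Norm

set_option autoImplicit false

open Finset
open scoped Pointwise

namespace Pool.Agent.H18

section

variable {G : Type*} [AddCommGroup G] [Fintype G] [DecidableEq G]

/-- Indicator function of the difference set. -/
noncomputable def gA (A : Finset G) (x : G) : ℝ := if x ∈ A - A then 1 else 0

/-- The base function `1_{A-A} * mu_A`. -/
noncomputable def fA (A : Finset G) : G → ℝ := cnv (unif A) (gA A)

omit [Fintype G] in
lemma gA_nonneg (A : Finset G) (x : G) : 0 ≤ gA A x := by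
  unfold gA; split_ifs <;> norm_num

omit [Fintype G] in
lemma gA_le_one (A : Finset G) (x : G) : gA A x ≤ 1 := by
  unfold gA; split_ifs <;> norm_num

omit [Fintype G] in
lemma mem_of_gA_ne_zero (A : Finset G) (x : G) (h : gA A x ≠ 0) : x ∈ A - A := by
  by_contra hx
  exact h (by unfold gA; rw [if_neg hx])

omit [AddCommGroup G] [Fintype G] in
lemma mem_of_unif_ne_zero (A : Finset G) (x : G) (h : unif A x ≠ 0) : x ∈ A := by
  by_contra hx
  exact h (by unfold unif; rw [if_neg hx])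

lemma fA_nonneg (A : Finset G) (x : G) : 0 ≤ fA A x :=
  cnv_nonneg _ _ (unif_nonneg A) (gA_nonneg A) x

lemma fA_le_one (A : Finset G) (hA : A.Nonempty) (x : G) : fA A x ≤ 1 :=
  cnv_le_one _ _ (unif_nonneg A) (sum_unif A hA) (gA_le_one A) x

lemma fA_eq_one (A : Finset G) (hA : A.Nonempty) (x : G) (hx : x ∈ A) : fA A x = 1 := by
  unfold fA cnv
  rw [sum_unif_mul A (fun s => gA A (x - s))]
  have h1 : ∀ s ∈ A, (A.card : ℝ)⁻¹ * gA A (x - s) = (A.card : ℝ)⁻¹ := by
    intro s hs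
    unfold gA
    rw [if_pos (Finset.sub_mem_sub hx hs), mul_one]
  rw [Finset.sum_congr rfl h1, Finset.sum_const, nsmul_eq_mul]
  have hc : (A.card : ℝ) ≠ 0 := by exact_mod_cast hA.card_pos.ne'
  field_simp

omit [DecidableEq G] in
lemma cnv_ne_zero (ν f : G → ℝ) (x : G) (h : cnv ν f x ≠ 0) :
    ∃ s, ν s ≠ 0 ∧ f (x - s) ≠ 0 := by
  by_contra hno
  push Not at hno
  apply h
  refine Finset.sum_eq_zero fun s _ => ?_
  by_cases hs : ν s = 0
  · rw [hs, zero_mul]
  · rw [hno s hs, mul_zero]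

lemma mem_of_dst_lt_one {q : ℕ} (A : Finset G) (hA : A.Nonempty) (w : G)
    (h : dst q (A.card : ℝ) (fA A) w < 1) : w ∈ (2 : ℕ) • A - (2 : ℕ) • A := by
  by_cases hex : ∃ x ∈ A, fA A (x - w) ≠ 0
  · obtain ⟨x, hx, hne⟩ := hex
    obtain ⟨s, hs, hgs⟩ := cnv_ne_zero _ _ _ hne
    have hs' := mem_of_unif_ne_zero A s hs
    obtain ⟨a1, ha1, a2, ha2, h12⟩ := Finset.mem_sub.mp (mem_of_gA_ne_zero A _ hgs)
    rw [two_nsmul]
    refine Finset.mem_sub.mpr ⟨x + a2, Finset.add_mem_add hx ha2, s + a1,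
      Finset.add_mem_add hs' ha1, ?_⟩
    have : w = x - s - (x - w - s) := by abel
    rw [this, ← h12]; abel
  · push Not at hex
    exfalso
    refine absurd h (not_lt.mpr ?_)
    refine one_le_nrm A hA _ fun x hx => ?_
    rw [hex x hx, fA_eq_one A hA x hx]
    norm_num

omit [Fintype G] in
lemma card_bound (A : Finset G) (hA : A.Nonempty) (K : ℝ)
    (hAK : ((A - A).card : ℝ) ≤ K * A.card) (m n : ℕ) :
    ((m • A - n • A).card : ℝ) ≤ K ^ (m + n) * A.card := by
  have h := Finset.pluennecke_ruzsa_inequality_nsmul_sub_nsmul_sub hA A m n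
  have hc : (0 : ℝ) < A.card := by exact_mod_cast hA.card_pos
  have h' : (((m • A - n • A).card : ℚ≥0) : ℝ)
      ≤ (((((A - A).card : ℚ≥0) / (A.card : ℚ≥0)) ^ (m + n) * (A.card : ℚ≥0) : ℚ≥0) : ℝ) := by
    exact_mod_cast h
  push_cast at h'
  refine h'.trans ?_
  have h1 : ((A - A).card : ℝ) / A.card ≤ K := by rw [div_le_iff₀ hc]; exact hAK
  gcongr

/-- Application of the entropic Croot-Sisask step. -/
lemma cs_apply (A : Finset G) (hA : A.Nonempty) (K : ℝ) (hK : Real.exp 1 ≤ K)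
    (hAK : ((A - A).card : ℝ) ≤ K * A.card) (ν : G → ℝ) (h0 : ∀ x, 0 ≤ ν x)
    (h1 : ∑ x, ν x = 1) (hsupp : ∀ w, ν w ≠ 0 → w ∈ (2 : ℕ) • A - (2 : ℕ) • A)
    (S : Finset G) (hS : S.Nonempty) (l : ℝ) (hl : 1 ≤ l) :
    ∃ T ⊆ S, T.Nonempty ∧
      Real.log (S.card / T.card) ≤ 8 / 7 * (18 * Real.exp 11 * Real.log K * l ^ 2 *
        (ent (avg S (cnv ν (unif A))) - ent (cnv ν (unif A))) + 1) ∧
      ∀ t ∈ T, ∀ t' ∈ T, dst ⌈Real.log K⌉₊ (A.card : ℝ) (cnv ν (fA A)) (t - t') ≤ 1 / l := by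
  have hc : (0 : ℝ) < A.card := by exact_mod_cast hA.card_pos
  have hK0 : 0 < K := (Real.exp_pos 1).trans_le hK
  have hk1 : 1 ≤ Real.log K := by rw [Real.le_log_iff_exp_le hK0]; exact hK
  set k := Real.log K with hk
  set q := ⌈k⌉₊ with hq
  have hq0 : 0 < q := Nat.ceil_pos.mpr (by linarith)
  have hqk : k ≤ q := Nat.le_ceil k
  have hq1 : (1 : ℝ) ≤ q := hk1.trans hqk
  have hq2 : (q : ℝ) ≤ 2 * k := by
    have := Nat.ceil_lt_add_one (by linarith : (0 : ℝ) ≤ k)
    linarith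
  set m := ⌈8 * Real.exp 11 * q * l ^ 2⌉₊ with hm
  have hm1 : 8 * Real.exp 11 * q * l ^ 2 ≤ m := Nat.le_ceil _
  have hl0 : (0 : ℝ) < l := by linarith
  have hpos : 0 < 8 * Real.exp 11 * q * l ^ 2 := by positivity
  have hm0 : 0 < m := Nat.ceil_pos.mpr hpos
  have hm2 : (m : ℝ) ≤ 18 * Real.exp 11 * k * l ^ 2 := by
    have h3 := (Nat.ceil_lt_add_one hpos.le).le
    have h4 : (1 : ℝ) ≤ Real.exp 11 * q * l ^ 2 := by
      have e1 : (1 : ℝ) ≤ Real.exp 11 := Real.one_le_exp (by norm_num)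
      have e2 : (1 : ℝ) ≤ l ^ 2 := one_le_pow₀ hl
      calc (1 : ℝ) = 1 * 1 * 1 := by norm_num
        _ ≤ Real.exp 11 * q * l ^ 2 := by gcongr
    have h5 : Real.exp 11 * q * l ^ 2 ≤ Real.exp 11 * (2 * k) * l ^ 2 := by gcongr
    calc (m : ℝ) ≤ 8 * Real.exp 11 * q * l ^ 2 + 1 := h3
      _ ≤ 9 * (Real.exp 11 * q * l ^ 2) := by linarith
      _ ≤ 9 * (Real.exp 11 * (2 * k) * l ^ 2) := by linarith
      _ = _ := by ring
  set ω := cnv ν (unif A) with hω
  have hω0 : ∀ x, 0 ≤ ω x := cnv_nonneg _ _ h0 (unif_nonneg A)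
  have hω1 : ∑ x, ω x = 1 := by rw [hω, sum_cnv, h1, sum_unif A hA, one_mul]
  set Y : Finset G := (4 : ℕ) • A - (3 : ℕ) • A with hY
  have hYsupp : ∀ x, x ∉ Y → ∀ s, ω s ≠ 0 → gA A (x - s) = 0 := by
    intro x hx s hs
    by_contra hg
    obtain ⟨w, hw, hws⟩ := cnv_ne_zero _ _ _ hs
    have hw' := hsupp w hw
    have hs' := mem_of_unif_ne_zero A _ hws
    obtain ⟨a1, ha1, a2, ha2, h12⟩ := Finset.mem_sub.mp (mem_of_gA_ne_zero A _ hg)
    obtain ⟨u, hu, v, hv, huv⟩ := Finset.mem_sub.mp hw'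
    apply hx
    rw [hY]
    refine Finset.mem_sub.mpr ⟨u + (s - w) + a1, ?_, v + a2, ?_, ?_⟩
    · have : (4 : ℕ) • A = (2 : ℕ) • A + A + A := by
        rw [two_nsmul]; abel
      rw [this]
      exact Finset.add_mem_add (Finset.add_mem_add hu hs') ha1
    · have : (3 : ℕ) • A = (2 : ℕ) • A + A := by
        rw [two_nsmul]; abel
      rw [this]
      exact Finset.add_mem_add hv ha2
    · have e1 : x = (x - s) + (s - w) + w := by abel
      rw [e1, ← h12, ← huv]; abel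
  have hYcard : (Y.card : ℝ) ≤ K ^ 7 * A.card := card_bound A hA K hAK 4 3
  have hKq : K ≤ Real.exp q := by
    rw [← Real.exp_log hK0]; exact Real.exp_le_exp.mpr hqk
  have hcond : (Y.card : ℝ) * (8 * Real.exp 1 * q / (m * (1 / l) ^ 2)) ^ q
      ≤ (A.card : ℝ) / 8 := by
    have hm' : (0 : ℝ) < m := by exact_mod_cast hm0
    have e1 : 8 * Real.exp 1 * q / (m * (1 / l) ^ 2) ≤ Real.exp (-10) := by
      have : 8 * Real.exp 1 * q / (m * (1 / l) ^ 2) = 8 * Real.exp 1 * q * l ^ 2 / m := by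
        field_simp
      rw [this, div_le_iff₀ hm']
      have e2 : Real.exp 11 = Real.exp 10 * Real.exp 1 := by rw [← Real.exp_add]; norm_num
      have e3 : Real.exp (-10) * Real.exp 10 = 1 := by rw [← Real.exp_add]; norm_num
      calc 8 * Real.exp 1 * q * l ^ 2
          = (Real.exp (-10) * Real.exp 10) * (8 * Real.exp 1 * q * l ^ 2) := by rw [e3, one_mul]
        _ = Real.exp (-10) * (8 * Real.exp 11 * q * l ^ 2) := by rw [e2]; ring
        _ ≤ Real.exp (-10) * m := mul_le_mul_of_nonneg_left hm1 (Real.exp_pos _).le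
    have e4 : (8 * Real.exp 1 * q / (m * (1 / l) ^ 2)) ^ q ≤ (Real.exp (-10)) ^ q := by
      refine pow_le_pow_left₀ (by positivity) e1 q
    have e5 : (Y.card : ℝ) ≤ (Real.exp q) ^ 7 * A.card := hYcard.trans (by gcongr)
    calc (Y.card : ℝ) * (8 * Real.exp 1 * q / (m * (1 / l) ^ 2)) ^ q
        ≤ ((Real.exp q) ^ 7 * A.card) * (Real.exp (-10)) ^ q := by
          refine mul_le_mul e5 e4 (by positivity) (by positivity)
      _ = Real.exp (-(3 * q)) * A.card := by
          rw [← Real.exp_nat_mul, ← Real.exp_nat_mul, mul_right_comm, ← Real.exp_add]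
          congr 2
          push_cast; ring
      _ ≤ (1 / 8) * A.card := by
          refine mul_le_mul_of_nonneg_right ?_ hc.le
          have e6 : Real.exp (-(3 * (q : ℝ))) ≤ Real.exp (-3) := by
            apply Real.exp_le_exp.mpr; linarith
          have e7 : Real.exp (-3) ≤ 1 / 8 := by
            have e8 : (8 : ℝ) ≤ Real.exp 3 := by
              have h2 : (2 : ℝ) ≤ Real.exp 1 := by
                have := Real.add_one_le_exp (1 : ℝ); linarith
              have : Real.exp 3 = Real.exp 1 ^ 3 := by rw [← Real.exp_nat_mul]; norm_num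
              rw [this]
              calc (8 : ℝ) = 2 ^ 3 := by norm_num
                _ ≤ Real.exp 1 ^ 3 := pow_le_pow_left₀ (by norm_num) h2 3
            rw [Real.exp_neg, one_div]
            exact inv_anti₀ (by norm_num) e8
          exact e6.trans e7
      _ = (A.card : ℝ) / 8 := by ring
  obtain ⟨T, hTS, hTne, hlog, hper⟩ := cs_step ω (gA A) hω0 hω1 (gA_nonneg A) (gA_le_one A) Y
    hYsupp S hS m q hm0 hq0 (A.card : ℝ) (1 / l) hc (by positivity) hcond
  have hΔ : 0 ≤ ent (avg S ω) - ent ω := sub_nonneg.mpr (ent_le_ent_avg S hS ω hω0)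
  have hfun : cnv ω (gA A) = cnv ν (fA A) := by
    funext x; rw [hω, cnv_assoc]; rfl
  refine ⟨T, hTS, hTne, ?_, ?_⟩
  · have h3 : m * (ent (avg S ω) - ent ω)
        ≤ 18 * Real.exp 11 * k * l ^ 2 * (ent (avg S ω) - ent ω) :=
      mul_le_mul_of_nonneg_right hm2 hΔ
    linarith
  · intro t ht t' ht'
    have h3 := hper t ht t' ht'
    rw [hfun] at h3
    have h4 : dst q (A.card : ℝ) (cnv ν (fA A)) (t - t')
        = nrm q (A.card : ℝ) (fun x => cnv ν (fA A) (x - t) - cnv ν (fA A) (x - t')) := by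
      unfold dst
      rw [← nrm_shift (fun x => cnv ν (fA A) (x - (t - t')) - cnv ν (fA A) x) t']
      congr 1
      funext x
      have : x - t' - (t - t') = x - t := by abel
      rw [this]
    rw [h4]
    exact nrm_le_of_sum_le hq0 hc _ _ (by positivity) h3

/-- Data produced at a level of the iteration. -/
structure LevelData (A : Finset G) (q : ℕ) (e δ : ℝ) (ν : G → ℝ) (T : Finset G) : Prop where
  nn : ∀ x, 0 ≤ ν x
  sum_one : ∑ x, ν x = 1
  close : nrm q (A.card : ℝ) (fun x => cnv ν (fA A) x - fA A x) ≤ e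
  supp : ∀ w, ν w ≠ 0 → dst q (A.card : ℝ) (cnv ν (fA A)) w ≤ e
  zero_mem : (0 : G) ∈ T
  per : ∀ t ∈ T, dst q (A.card : ℝ) (cnv ν (fA A)) t ≤ δ

lemma cnv_unif_zero (f : G → ℝ) : cnv (unif ({0} : Finset G)) f = f := by
  funext x
  rw [← avg_eq_cnv]
  simp [avg]

/-- From a logarithmic bound on a ratio to a lower bound. -/
lemma card_ge_of_log {s t X : ℝ} (hs : 0 < s) (ht : 0 < t) (h : Real.log (s / t) ≤ X) :
    s * Real.exp (-X) ≤ t := by
  rw [Real.log_le_iff_le_exp (div_pos hs ht), div_le_iff₀ ht] at h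
  calc s * Real.exp (-X) ≤ (Real.exp X * t) * Real.exp (-X) :=
        mul_le_mul_of_nonneg_right h (Real.exp_pos _).le
    _ = (Real.exp X * Real.exp (-X)) * t := by ring
    _ = t := by rw [← Real.exp_add, add_neg_cancel, Real.exp_zero, one_mul]

/-- Level zero. -/
lemma level_base (A : Finset G) (hA : A.Nonempty) (K : ℝ) (hK : Real.exp 1 ≤ K)
    (hAK : ((A - A).card : ℝ) ≤ K * A.card) (l : ℝ) (hl : 1 ≤ l) :
    ∃ (ν : G → ℝ) (T : Finset G), LevelData A ⌈Real.log K⌉₊ 0 (1 / l) ν T ∧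
      (A.card : ℝ) * Real.exp (-(21 * Real.exp 11 * (Real.log K) ^ 2 * l ^ 2)) ≤ T.card := by
  have hc : (0 : ℝ) < A.card := by exact_mod_cast hA.card_pos
  have hK0 : 0 < K := (Real.exp_pos 1).trans_le hK
  have hk1 : 1 ≤ Real.log K := by rw [Real.le_log_iff_exp_le hK0]; exact hK
  have hq0 : 0 < ⌈Real.log K⌉₊ := Nat.ceil_pos.mpr (by linarith)
  set ν : G → ℝ := unif ({0} : Finset G) with hν
  have hν1 : ∑ x, ν x = 1 := sum_unif _ (Finset.singleton_nonempty 0)
  have hνne : ∀ w, ν w ≠ 0 → w = 0 := by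
    intro w hw
    have := mem_of_unif_ne_zero _ _ hw
    simpa using this
  obtain ⟨a0, ha0⟩ := hA
  have hsupp : ∀ w, ν w ≠ 0 → w ∈ (2 : ℕ) • A - (2 : ℕ) • A := by
    intro w hw
    rw [hνne w hw, two_nsmul]
    exact Finset.mem_sub.mpr ⟨a0 + a0, Finset.add_mem_add ha0 ha0, a0 + a0,
      Finset.add_mem_add ha0 ha0, sub_self _⟩
  have hS : (-A : Finset G).Nonempty := ⟨-a0, Finset.neg_mem_neg ha0⟩
  obtain ⟨T, hTS, ⟨t0, ht0⟩, hlog, hper⟩ := cs_apply A ⟨a0, ha0⟩ K hK hAK ν (unif_nonneg _) hν1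
    hsupp (-A) hS l hl
  have hω : cnv ν (unif A) = unif A := cnv_unif_zero _
  have hf : cnv ν (fA A) = fA A := cnv_unif_zero _
  rw [hω] at hlog
  rw [hf] at hper
  have hTpos : (0 : ℝ) < T.card := by exact_mod_cast Finset.card_pos.mpr ⟨t0, ht0⟩
  -- entropy growth
  have hent : ent (avg (-A) (unif A)) - ent (unif A) ≤ Real.log K := by
    have e1 : ent (unif A) = Real.log A.card := ent_unif A ⟨a0, ha0⟩
    have e2 : ent (avg (-A) (unif A)) ≤ Real.log ((A - A).card : ℝ) := by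
      refine ent_le_log_card _ (avg_nonneg _ _ (unif_nonneg A))
        (by rw [sum_avg (-A) hS, sum_unif A ⟨a0, ha0⟩]) (A - A) ?_
      intro x hx
      rw [avg_eq_cnv] at hx
      obtain ⟨s, hs, hxs⟩ := cnv_ne_zero _ _ _ hx
      have hs' := mem_of_unif_ne_zero _ _ hs
      have hxs' := mem_of_unif_ne_zero _ _ hxs
      rw [Finset.mem_neg'] at hs'
      refine Finset.mem_sub.mpr ⟨x - s, hxs', -s, hs', ?_⟩
      abel
    have e3 : Real.log ((A - A).card : ℝ) ≤ Real.log K + Real.log A.card := by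
      rw [← Real.log_mul hK0.ne' hc.ne']
      apply Real.log_le_log
      · exact_mod_cast Finset.card_pos.mpr ⟨a0 - a0, Finset.sub_mem_sub ha0 ha0⟩
      · exact hAK
    linarith
  refine ⟨ν, T.image (fun t => t - t0), ⟨unif_nonneg _, hν1, ?_, ?_, ?_, ?_⟩, ?_⟩
  · rw [hf]
    simp only [sub_self]
    exact (nrm_zero hq0).le
  · intro w hw
    rw [hνne w hw]
    exact (dst_zero hq0 _).le
  · exact Finset.mem_image.mpr ⟨t0, ht0, sub_self _⟩
  · intro t ht
    obtain ⟨t', ht', rfl⟩ := Finset.mem_image.mp ht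
    rw [hf]
    exact hper t' ht' t0 ht0
  · rw [Finset.card_image_of_injective _ (sub_left_injective)]
    have hScard : ((-A : Finset G).card : ℝ) = A.card := by rw [Finset.card_neg]
    rw [hScard] at hlog
    refine card_ge_of_log hc hTpos (hlog.trans ?_)
    have hl0 : (0 : ℝ) < l := by linarith
    have e1 : (1 : ℝ) ≤ Real.exp 11 := Real.one_le_exp (by norm_num)
    have e11 : (20 : ℝ) ≤ Real.exp 11 := by
      have := Real.add_one_le_exp (11 : ℝ)
      have h2 : (2 : ℝ) ≤ Real.exp 1 := by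
        have := Real.add_one_le_exp (1 : ℝ); linarith
      have : Real.exp 11 = Real.exp 1 ^ 11 := by rw [← Real.exp_nat_mul]; norm_num
      rw [this]
      calc (20 : ℝ) ≤ 2 ^ 11 := by norm_num
        _ ≤ Real.exp 1 ^ 11 := pow_le_pow_left₀ (by norm_num) h2 11
    have e2 : (1 : ℝ) ≤ l ^ 2 := one_le_pow₀ hl
    have e3 : (1 : ℝ) ≤ Real.log K ^ 2 := one_le_pow₀ hk1
    have e4 : (20 : ℝ) ≤ Real.exp 11 * Real.log K ^ 2 * l ^ 2 := by
      calc (20 : ℝ) = 20 * 1 * 1 := by norm_num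
        _ ≤ Real.exp 11 * Real.log K ^ 2 * l ^ 2 := by gcongr
    have e5 : 18 * Real.exp 11 * Real.log K * l ^ 2 *
        (ent (avg (-A) (unif A)) - ent (unif A))
        ≤ 18 * Real.exp 11 * Real.log K * l ^ 2 * Real.log K :=
      mul_le_mul_of_nonneg_left hent (by positivity)
    have e6 : 18 * Real.exp 11 * Real.log K * l ^ 2 * Real.log K
        = 18 * (Real.exp 11 * Real.log K ^ 2 * l ^ 2) := by ring
    have e7 : 21 * Real.exp 11 * Real.log K ^ 2 * l ^ 2
        = 21 * (Real.exp 11 * Real.log K ^ 2 * l ^ 2) := by ring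
    rw [e7]
    rw [e6] at e5
    linarith

/-- One step of the level iteration. -/
lemma level_step (A : Finset G) (hA : A.Nonempty) (K : ℝ) (hK : Real.exp 1 ≤ K)
    (hAK : ((A - A).card : ℝ) ≤ K * A.card) (e e' δ : ℝ) (he' : e' ≤ 1 / 16)
    (hδ : 0 ≤ δ) (J : ℕ) (hJ : 0 < J) (hJδ : e + J * δ ≤ e') (ν : G → ℝ) (T : Finset G)
    (h : LevelData A ⌈Real.log K⌉₊ e δ ν T) (l : ℝ) (hl : 1 ≤ l) :
    ∃ (ν' : G → ℝ) (T' : Finset G), LevelData A ⌈Real.log K⌉₊ e' (1 / l) ν' T' ∧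
      Real.log (T.card / T'.card)
        ≤ 8 / 7 * (90 * Real.exp 11 * (Real.log K) ^ 2 * l ^ 2 / J + 1) := by
  have hc : (0 : ℝ) < A.card := by exact_mod_cast hA.card_pos
  have hK0 : 0 < K := (Real.exp_pos 1).trans_le hK
  have hk1 : 1 ≤ Real.log K := by rw [Real.le_log_iff_exp_le hK0]; exact hK
  have hq0 : 0 < ⌈Real.log K⌉₊ := Nat.ceil_pos.mpr (by linarith)
  set q := ⌈Real.log K⌉₊ with hq
  have hJ' : (0 : ℝ) < J := by exact_mod_cast hJ
  have hT : T.Nonempty := ⟨0, h.zero_mem⟩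
  set f := cnv ν (fA A) with hf
  set νj : ℕ → G → ℝ := fun j => (avg T)^[j] ν with hνj
  have νj0 : νj 0 = ν := rfl
  have νjs : ∀ j, νj (j + 1) = avg T (νj j) := fun j => Function.iterate_succ_apply' _ _ _
  have fjs : ∀ j, cnv (νj (j + 1)) (fA A) = cnv (unif T) (cnv (νj j) (fA A)) := by
    intro j
    funext x
    rw [νjs, cnv_avg, avg_eq_cnv]
  -- (a)
  have ha0 : ∀ j x, 0 ≤ νj j x := by
    intro j
    induction j with
    | zero => exact h.nn
    | succ j ih => rw [νjs]; exact avg_nonneg T _ ih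
  have ha1 : ∀ j, ∑ x, νj j x = 1 := by
    intro j
    induction j with
    | zero => exact h.sum_one
    | succ j ih => rw [νjs, sum_avg T hT]; exact ih
  -- (b)
  have hb : ∀ j w, dst q (A.card : ℝ) (cnv (νj j) (fA A)) w ≤ dst q (A.card : ℝ) f w := by
    intro j
    induction j with
    | zero => intro w; exact le_rfl
    | succ j ih =>
      intro w
      rw [fjs]
      exact (dst_cnv_le hq0 hc.le _ _ (unif_nonneg T) (sum_unif T hT) w).trans (ih w)
  -- (c)
  have hcl : ∀ j : ℕ, nrm q (A.card : ℝ) (fun x => cnv (νj j) (fA A) x - f x) ≤ j * δ := by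
    intro j
    induction j with
    | zero =>
      rw [νj0]
      simp only [← hf, sub_self, Nat.cast_zero, zero_mul]
      exact (nrm_zero hq0).le
    | succ j ih =>
      have h1 := nrm_sub_triangle (a := (A.card : ℝ)) hq0 hc.le (cnv (νj (j + 1)) (fA A))
        (cnv (νj j) (fA A)) f
      have h2 : nrm q (A.card : ℝ)
          (fun x => cnv (νj (j + 1)) (fA A) x - cnv (νj j) (fA A) x) ≤ δ := by
        rw [fjs]
        refine nrm_cnv_sub_le hq0 hc.le _ _ (unif_nonneg T) (sum_unif T hT) _ fun w hw => ?_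
        exact (hb j w).trans (h.per w (mem_of_unif_ne_zero T w hw))
      push_cast
      linarith
  -- (d)
  have hd : ∀ (j : ℕ) (w : G), νj j w ≠ 0 → dst q (A.card : ℝ) f w ≤ e + j * δ := by
    intro j
    induction j with
    | zero =>
      intro w hw
      rw [νj0] at hw
      have := h.supp w hw
      simpa using this
    | succ j ih =>
      intro w hw
      rw [νjs, avg_eq_cnv] at hw
      obtain ⟨s, hs, hws⟩ := cnv_ne_zero _ _ _ hw
      have h1 := ih _ hws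
      have h2 := h.per s (mem_of_unif_ne_zero T s hs)
      have h3 := dst_add (a := (A.card : ℝ)) hq0 hc.le f (w - s) s
      rw [sub_add_cancel] at h3
      push_cast
      linarith
  have hJle : ∀ j : ℕ, j ≤ J → e + j * δ ≤ e' := by
    intro j hj
    have : (j : ℝ) ≤ J := by exact_mod_cast hj
    have := mul_le_mul_of_nonneg_right this hδ
    linarith
  have hee : e ≤ e' := by simpa using hJle 0 (Nat.zero_le _)
  have hsupp : ∀ j : ℕ, j ≤ J → ∀ w, νj j w ≠ 0 → w ∈ (2 : ℕ) • A - (2 : ℕ) • A := by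
    intro j hj w hw
    apply mem_of_dst_lt_one (q := q) A hA w
    have h1 := dst_le_dst_add (a := (A.card : ℝ)) hq0 hc.le (fA A) f w
    have h2 := h.close
    have h3 := (hd j w hw).trans (hJle j hj)
    linarith
  -- entropies
  set H : ℕ → ℝ := fun j => ent (cnv (νj j) (unif A)) with hH
  have hHs : ∀ j, avg T (cnv (νj j) (unif A)) = cnv (νj (j + 1)) (unif A) := by
    intro j; funext x; rw [νjs, cnv_avg]
  have hH0 : Real.log A.card ≤ H 0 := by
    have := ent_le_ent_cnv (νj 0) (unif A) (ha0 0) (ha1 0) (unif_nonneg A)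
    rw [show ent (unif A) = Real.log A.card from ent_unif A hA] at this
    exact this
  have hHJ : H J ≤ Real.log A.card + 5 * Real.log K := by
    have h1 : H J ≤ Real.log (((3 : ℕ) • A - (2 : ℕ) • A).card : ℝ) := by
      refine ent_le_log_card _ (cnv_nonneg _ _ (ha0 J) (unif_nonneg A))
        (by rw [sum_cnv, ha1 J, sum_unif A hA, one_mul]) _ ?_
      intro x hx
      obtain ⟨w, hw, hxw⟩ := cnv_ne_zero _ _ _ hx
      have hw' := hsupp J le_rfl w hw
      have hxw' := mem_of_unif_ne_zero _ _ hxw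
      obtain ⟨u, hu, v, hv, huv⟩ := Finset.mem_sub.mp hw'
      refine Finset.mem_sub.mpr ⟨u + (x - w), ?_, v, hv, ?_⟩
      · have : (3 : ℕ) • A = (2 : ℕ) • A + A := by rw [two_nsmul]; abel
        rw [this]
        exact Finset.add_mem_add hu hxw'
      · rw [← huv]; abel
    have h2 := card_bound A hA K hAK 3 2
    have h3 : (0 : ℝ) < (((3 : ℕ) • A - (2 : ℕ) • A).card : ℝ) := by
      have h4 : (3 : ℕ) • A - (2 : ℕ) • A |>.Nonempty := by
        obtain ⟨a, ha⟩ := hA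
        refine ⟨(a + a + a) - (a + a), Finset.sub_mem_sub ?_ ?_⟩
        · have : (3 : ℕ) • A = A + A + A := by abel
          rw [this]
          exact Finset.add_mem_add (Finset.add_mem_add ha ha) ha
        · rw [two_nsmul]; exact Finset.add_mem_add ha ha
      exact_mod_cast h4.card_pos
    have h5 := Real.log_le_log h3 h2
    rw [Real.log_mul (by positivity) hc.ne', Real.log_pow] at h5
    push_cast at h5
    linarith
  obtain ⟨j, hj, hjH⟩ : ∃ j < J, H (j + 1) - H j ≤ 5 * Real.log K / J := by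
    by_contra hno
    push Not at hno
    have h1 : ∑ j ∈ Finset.range J, (5 * Real.log K / J)
        < ∑ j ∈ Finset.range J, (H (j + 1) - H j) := by
      refine Finset.sum_lt_sum_of_nonempty ⟨0, Finset.mem_range.mpr hJ⟩ fun j hj => ?_
      exact hno j (Finset.mem_range.mp hj)
    rw [Finset.sum_range_sub, Finset.sum_const, Finset.card_range, nsmul_eq_mul] at h1
    have h2 : (J : ℝ) * (5 * Real.log K / J) = 5 * Real.log K := by field_simp
    rw [h2] at h1
    linarith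
  have hjJ : j ≤ J := hj.le
  obtain ⟨T', hTS, ⟨t0, ht0⟩, hlog, hper⟩ := cs_apply A hA K hK hAK (νj j) (ha0 j) (ha1 j)
    (hsupp j hjJ) T hT l hl
  refine ⟨νj j, T'.image (fun t => t - t0), ⟨ha0 j, ha1 j, ?_, ?_, ?_, ?_⟩, ?_⟩
  · have h1 := nrm_sub_triangle (a := (A.card : ℝ)) hq0 hc.le (cnv (νj j) (fA A)) f (fA A)
    have h2 := hcl j
    have h3 := h.close
    have h4 := hJle j hjJ
    linarith
  · intro w hw
    exact (hb j w).trans ((hd j w hw).trans (hJle j hjJ))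
  · exact Finset.mem_image.mpr ⟨t0, ht0, sub_self _⟩
  · intro t ht
    obtain ⟨t', ht', rfl⟩ := Finset.mem_image.mp ht
    exact hper t' ht' t0 ht0
  · rw [Finset.card_image_of_injective _ (sub_left_injective)]
    refine hlog.trans ?_
    rw [hHs j]
    have hl0 : (0 : ℝ) < l := by linarith
    have h1 : 18 * Real.exp 11 * Real.log K * l ^ 2 * (H (j + 1) - H j)
        ≤ 18 * Real.exp 11 * Real.log K * l ^ 2 * (5 * Real.log K / J) :=
      mul_le_mul_of_nonneg_left hjH (by positivity)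
    have h2 : 18 * Real.exp 11 * Real.log K * l ^ 2 * (5 * Real.log K / J)
        = 90 * Real.exp 11 * (Real.log K) ^ 2 * l ^ 2 / J := by ring
    have h3 : ent (cnv (νj (j + 1)) (unif A)) - ent (cnv (νj j) (unif A)) = H (j + 1) - H j := rfl
    rw [h3]
    linarith

end

/-- The level iteration with accuracies `16 * 2 ^ R * 4 ^ n` and `8 ^ n` averaging steps at
level `n`. -/
lemma level_iter (R : ℕ) {G : Type} [AddCommGroup G] [Fintype G] [DecidableEq G]
    (A : Finset G) (hA : A.Nonempty) (K : ℝ) (hK : Real.exp 1 ≤ K)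
    (hAK : ((A - A).card : ℝ) ≤ K * A.card) (n : ℕ) (hn : n ≤ R) :
    ∃ (ν : G → ℝ) (T : Finset G),
      LevelData A ⌈Real.log K⌉₊ ((2 ^ n - 1) / (16 * 2 ^ R)) (1 / (16 * 2 ^ R * 4 ^ n)) ν T ∧
      (A.card : ℝ) * Real.exp (-(421400 * Real.exp 11 * (Real.log K) ^ 2 * (4 ^ R * 2 ^ n)))
        ≤ T.card := by
  have hK0 : 0 < K := (Real.exp_pos 1).trans_le hK
  have hk1 : 1 ≤ Real.log K := by rw [Real.le_log_iff_exp_le hK0]; exact hK
  have e11 : (20 : ℝ) ≤ Real.exp 11 := by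
    have h2 : (2 : ℝ) ≤ Real.exp 1 := by
      have := Real.add_one_le_exp (1 : ℝ); linarith
    have : Real.exp 11 = Real.exp 1 ^ 11 := by rw [← Real.exp_nat_mul]; norm_num
    rw [this]
    calc (20 : ℝ) ≤ 2 ^ 11 := by norm_num
      _ ≤ Real.exp 1 ^ 11 := pow_le_pow_left₀ (by norm_num) h2 11
  have hk2 : 1 ≤ Real.log K ^ 2 := one_le_pow₀ hk1
  have hE : 20 ≤ Real.exp 11 * Real.log K ^ 2 := by
    calc (20 : ℝ) = 20 * 1 := by norm_num
      _ ≤ Real.exp 11 * Real.log K ^ 2 := by gcongr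
  induction n with
  | zero =>
    have hl : (1 : ℝ) ≤ 16 * 2 ^ R := by
      have : (1 : ℝ) ≤ 2 ^ R := one_le_pow₀ (by norm_num)
      linarith
    obtain ⟨ν, T, h1, h2⟩ := level_base A hA K hK hAK (16 * 2 ^ R) hl
    refine ⟨ν, T, ?_, ?_⟩
    · have e1 : ((2 : ℝ) ^ 0 - 1) / (16 * 2 ^ R) = 0 := by norm_num
      have e2 : (1 : ℝ) / (16 * 2 ^ R * 4 ^ 0) = 1 / (16 * 2 ^ R) := by rw [pow_zero, mul_one]
      rw [e1, e2]; exact h1
    · refine le_trans (mul_le_mul_of_nonneg_left ?_ (Nat.cast_nonneg _)) h2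
      apply Real.exp_le_exp.mpr
      have e1 : ((16 : ℝ) * 2 ^ R) ^ 2 = 256 * 4 ^ R := by
        rw [mul_pow, ← pow_mul, mul_comm R 2, pow_mul]; norm_num
      rw [e1, pow_zero, mul_one]
      have e2 : (0 : ℝ) < 4 ^ R := by positivity
      have e3 : 0 ≤ Real.exp 11 * Real.log K ^ 2 * 4 ^ R := by positivity
      have e4 : 21 * Real.exp 11 * Real.log K ^ 2 * (256 * 4 ^ R)
          = 5376 * (Real.exp 11 * Real.log K ^ 2 * 4 ^ R) := by ring
      have e5 : 421400 * Real.exp 11 * Real.log K ^ 2 * 4 ^ R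
          = 421400 * (Real.exp 11 * Real.log K ^ 2 * 4 ^ R) := by ring
      rw [e4, e5]
      linarith
  | succ n ih =>
    obtain ⟨ν, T, h1, h2⟩ := ih (by omega)
    set δ : ℝ := 1 / (16 * 2 ^ R * 4 ^ n) with hδ
    have hJδ : (2 ^ n - 1) / (16 * 2 ^ R) + ((8 ^ n : ℕ) : ℝ) * δ
        ≤ ((2 : ℝ) ^ (n + 1) - 1) / (16 * 2 ^ R) := by
      have e1 : ((8 ^ n : ℕ) : ℝ) * δ = 2 ^ n / (16 * 2 ^ R) := by
        rw [hδ]
        push_cast
        have : (8 : ℝ) ^ n = 2 ^ n * 4 ^ n := by rw [← mul_pow]; norm_num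
        rw [this]
        field_simp
      rw [e1, ← add_div]
      apply le_of_eq
      congr 1
      ring
    have he' : ((2 : ℝ) ^ (n + 1) - 1) / (16 * 2 ^ R) ≤ 1 / 16 := by
      rw [div_le_div_iff₀ (by positivity) (by norm_num)]
      have : (2 : ℝ) ^ (n + 1) ≤ 2 ^ R := pow_le_pow_right₀ (by norm_num) hn
      linarith
    have hl : (1 : ℝ) ≤ 16 * 2 ^ R * 4 ^ (n + 1) := by
      have e1 : (1 : ℝ) ≤ 2 ^ R := one_le_pow₀ (by norm_num)
      have e2 : (1 : ℝ) ≤ 4 ^ (n + 1) := one_le_pow₀ (by norm_num)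
      calc (1 : ℝ) ≤ 16 * 1 * 1 := by norm_num
        _ ≤ 16 * 2 ^ R * 4 ^ (n + 1) := by gcongr
    obtain ⟨ν', T', h3, h4⟩ := level_step A hA K hK hAK ((2 ^ n - 1) / (16 * 2 ^ R))
      (((2 : ℝ) ^ (n + 1) - 1) / (16 * 2 ^ R)) δ he' (by positivity) (8 ^ n) (by positivity)
      hJδ ν T h1 (16 * 2 ^ R * 4 ^ (n + 1)) hl
    refine ⟨ν', T', h3, ?_⟩
    have hTpos : (0 : ℝ) < T.card := by exact_mod_cast Finset.card_pos.mpr ⟨0, h1.zero_mem⟩
    have hT'pos : (0 : ℝ) < T'.card := by exact_mod_cast Finset.card_pos.mpr ⟨0, h3.zero_mem⟩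
    have h5 := card_ge_of_log hTpos hT'pos h4
    set X : ℝ := 8 / 7 * (90 * Real.exp 11 * Real.log K ^ 2 * (16 * 2 ^ R * 4 ^ (n + 1)) ^ 2
      / ((8 ^ n : ℕ) : ℝ) + 1) with hX
    have hXle : X ≤ 421400 * Real.exp 11 * Real.log K ^ 2 * (4 ^ R * 2 ^ n) := by
      have e1 : ((16 : ℝ) * 2 ^ R * 4 ^ (n + 1)) ^ 2 / ((8 ^ n : ℕ) : ℝ)
          = 4096 * (4 ^ R * 2 ^ n) := by
        push_cast
        rw [div_eq_iff (by positivity)]
        have e2 : (4 : ℝ) ^ R = (2 ^ R) ^ 2 := by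
          rw [← pow_mul, mul_comm, pow_mul]; norm_num
        have e3 : (2 : ℝ) ^ n * 8 ^ n = (4 ^ n) ^ 2 := by
          rw [← mul_pow, ← pow_mul, mul_comm n 2, pow_mul]; norm_num
        rw [pow_succ (4 : ℝ) n, e2]
        calc ((16 : ℝ) * 2 ^ R * (4 ^ n * 4)) ^ 2 = 4096 * ((2 ^ R) ^ 2 * (4 ^ n) ^ 2) := by ring
          _ = 4096 * ((2 ^ R) ^ 2 * (2 ^ n * 8 ^ n)) := by rw [e3]
          _ = 4096 * ((2 ^ R) ^ 2 * 2 ^ n) * 8 ^ n := by ring
      have e4 : X = 8 / 7 * (90 * 4096 * (Real.exp 11 * Real.log K ^ 2) * (4 ^ R * 2 ^ n) + 1) := by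
        rw [hX, mul_div_assoc, e1]; ring
      have e5 : (1 : ℝ) ≤ 4 ^ R * 2 ^ n := by
        have e6 : (1 : ℝ) ≤ 4 ^ R := one_le_pow₀ (by norm_num)
        have e7 : (1 : ℝ) ≤ 2 ^ n := one_le_pow₀ (by norm_num)
        calc (1 : ℝ) = 1 * 1 := by norm_num
          _ ≤ 4 ^ R * 2 ^ n := by gcongr
      have e8 : 20 * 1 ≤ (Real.exp 11 * Real.log K ^ 2) * (4 ^ R * 2 ^ n) := by gcongr
      have e9 : 421400 * Real.exp 11 * Real.log K ^ 2 * (4 ^ R * 2 ^ n)
          = 421400 * ((Real.exp 11 * Real.log K ^ 2) * (4 ^ R * 2 ^ n)) := by ring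
      have e10 : 90 * 4096 * (Real.exp 11 * Real.log K ^ 2) * ((4 : ℝ) ^ R * 2 ^ n)
          = 368640 * ((Real.exp 11 * Real.log K ^ 2) * (4 ^ R * 2 ^ n)) := by ring
      rw [e4, e9, e10]
      linarith
    calc (A.card : ℝ) * Real.exp (-(421400 * Real.exp 11 * Real.log K ^ 2
            * (4 ^ R * 2 ^ (n + 1))))
        ≤ (A.card : ℝ) * (Real.exp (-(421400 * Real.exp 11 * Real.log K ^ 2 * (4 ^ R * 2 ^ n)))
          * Real.exp (-X)) := by
          rw [← Real.exp_add]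
          refine mul_le_mul_of_nonneg_left ?_ (Nat.cast_nonneg _)
          apply Real.exp_le_exp.mpr
          have e1 : 421400 * Real.exp 11 * Real.log K ^ 2 * ((4 : ℝ) ^ R * 2 ^ (n + 1))
            = 421400 * Real.exp 11 * Real.log K ^ 2 * (4 ^ R * 2 ^ n)
              + 421400 * Real.exp 11 * Real.log K ^ 2 * (4 ^ R * 2 ^ n) := by
            rw [pow_succ]; ring
          rw [e1]
          linarith
      _ = ((A.card : ℝ) * Real.exp (-(421400 * Real.exp 11 * Real.log K ^ 2 * (4 ^ R * 2 ^ n))))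
          * Real.exp (-X) := by ring
      _ ≤ T.card * Real.exp (-X) := mul_le_mul_of_nonneg_right h2 (Real.exp_pos _).le
      _ ≤ T'.card := h5

lemma LevelData.mono {G : Type*} [AddCommGroup G] [Fintype G] [DecidableEq G] {A : Finset G}
    {q : ℕ} {e e' δ δ' : ℝ} {ν : G → ℝ} {T : Finset G} (h : LevelData A q e δ ν T)
    (he : e ≤ e') (hδ : δ ≤ δ') : LevelData A q e' δ' ν T :=
  ⟨h.nn, h.sum_one, h.close.trans he, fun w hw => (h.supp w hw).trans he, h.zero_mem,
    fun t ht => (h.per t ht).trans hδ⟩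

/-- Almost periods: accuracy `1 / l` costs only a factor `exp (-C (log K) ^ 2 l)`. -/
theorem level_main {G : Type} [AddCommGroup G] [Fintype G] [DecidableEq G]
    (A : Finset G) (hA : A.Nonempty) (K : ℝ) (hK : Real.exp 1 ≤ K)
    (hAK : ((A - A).card : ℝ) ≤ K * A.card) (l : ℝ) (hl : 1 ≤ l) :
    ∃ (ν : G → ℝ) (T : Finset G), LevelData A ⌈Real.log K⌉₊ (1 / 16) (1 / l) ν T ∧
      (A.card : ℝ) * Real.exp (-(421400 * Real.exp 11 * (Real.log K) ^ 2 * l)) ≤ T.card := by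
  -- choose the number of levels
  have hex : ∃ R : ℕ, l ≤ 16 * 8 ^ R := by
    obtain ⟨R, hR⟩ := pow_unbounded_of_one_lt l (show (1 : ℝ) < 8 by norm_num)
    exact ⟨R, by have : (0 : ℝ) ≤ 8 ^ R := by positivity
                 linarith⟩
  classical
  set R := Nat.find hex with hR
  have hR1 : l ≤ 16 * 8 ^ R := Nat.find_spec hex
  have hR2 : (8 : ℝ) ^ R ≤ l := by
    rcases Nat.eq_zero_or_pos R with h | h
    · rw [h, pow_zero]; exact hl
    · have h3 := Nat.find_min hex (m := R - 1) (by omega)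
      push Not at h3
      have h4 : (8 : ℝ) ^ R = 8 * 8 ^ (R - 1) := by
        rw [← pow_succ']; congr 1; omega
      rw [h4]; linarith
  obtain ⟨ν, T, h1, h2⟩ := level_iter R A hA K hK hAK R le_rfl
  have e1 : (16 : ℝ) * 2 ^ R * 4 ^ R = 16 * 8 ^ R := by
    rw [mul_assoc, ← mul_pow]; norm_num
  have e2 : (4 : ℝ) ^ R * 2 ^ R = 8 ^ R := by rw [← mul_pow]; norm_num
  rw [e1] at h1
  rw [e2] at h2
  refine ⟨ν, T, h1.mono ?_ ?_, ?_⟩
  · rw [div_le_div_iff₀ (by positivity) (by norm_num)]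
    linarith
  · exact one_div_le_one_div_of_le (by linarith) hR1
  · refine le_trans (mul_le_mul_of_nonneg_left ?_ (Nat.cast_nonneg _)) h2
    apply Real.exp_le_exp.mpr
    have : 421400 * Real.exp 11 * Real.log K ^ 2 * 8 ^ R
        ≤ 421400 * Real.exp 11 * Real.log K ^ 2 * l :=
      mul_le_mul_of_nonneg_left hR2 (by positivity)
    linarith

end Pool.Agent.H18
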