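import Pool.Agent.H18.Chang
import Pool.Agent.H18.Level

set_option autoImplicit false

open Finset ComplexConjugate
open scoped Pointwise

namespace Pool.Agent.H18

variable {N : ℕ} [NeZero N]

/-- `u` is the exponential sum with coefficients `c`. -/
def Rep (u : ZMod N → ℝ) (c : ZMod N → ℂ) : Prop := ∀ x, (u x : ℂ) = ∑ γ, c γ * ee (γ * x)

/-- Fourier transform of a real function. -/
noncomputable def wft (ν : ZMod N → ℝ) (γ : ZMod N) : ℂ := ∑ s, (ν s : ℂ) * ee (-(γ * s))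

lemma rep_cnv (ν u : ZMod N → ℝ) (c : ZMod N → ℂ) (h : Rep u c) :
    Rep (cnv ν u) (fun γ => c γ * wft ν γ) := by
  intro x
  unfold cnv wft
  push_cast
  have h1 : ∀ s, (ν s : ℂ) * (u (x - s) : ℂ)
      = ∑ γ, c γ * ((ν s : ℂ) * ee (-(γ * s))) * ee (γ * x) := by
    intro s
    rw [h (x - s), Finset.mul_sum]
    refine Finset.sum_congr rfl fun γ _ => ?_
    have : γ * (x - s) = -(γ * s) + γ * x := by ring
    rw [this, ee_add]; ring
  simp_rw [h1]
  rw [Finset.sum_comm]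
  refine Finset.sum_congr rfl fun γ _ => ?_
  rw [Finset.mul_sum, Finset.sum_mul]

lemma rep_inv (u : ZMod N → ℝ) : Rep u (fun γ => wft u γ / N) := by
  intro x
  have hN : (N : ℂ) ≠ 0 := by exact_mod_cast NeZero.ne N
  unfold wft
  have h1 : ∀ γ : ZMod N, (∑ s, (u s : ℂ) * ee (-(γ * s))) / N * ee (γ * x)
      = ∑ s, (u s : ℂ) / N * ee (γ * (x - s)) := by
    intro γ
    rw [Finset.sum_div, Finset.sum_mul]
    refine Finset.sum_congr rfl fun s _ => ?_
    have : γ * (x - s) = -(γ * s) + γ * x := by ring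
    rw [this, ee_add]; ring
  simp_rw [h1]
  rw [Finset.sum_comm]
  simp_rw [← Finset.mul_sum, sum_ee_mul]
  rw [Finset.sum_eq_single x]
  · rw [sub_self, if_pos rfl]; field_simp
  · intro s _ hs
    rw [if_neg (sub_ne_zero.mpr hs.symm), mul_zero]
  · intro h; exact absurd (Finset.mem_univ x) h

lemma norm_wft_le (ν : ZMod N → ℝ) (h0 : ∀ x, 0 ≤ ν x) (γ : ZMod N) :
    ‖wft ν γ‖ ≤ ∑ x, ν x := by
  unfold wft
  refine (norm_sum_le _ _).trans (le_of_eq ?_)
  refine Finset.sum_congr rfl fun s _ => ?_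
  rw [norm_mul, norm_ee, mul_one, Complex.norm_real, Real.norm_eq_abs, abs_of_nonneg (h0 s)]

lemma wft_unif (T : Finset (ZMod N)) (γ : ZMod N) :
    wft (unif T) γ = (T.card : ℂ)⁻¹ * fs T γ := by
  unfold wft fs unif
  rw [Finset.mul_sum, ← Finset.sum_subset (Finset.subset_univ T)]
  · refine Finset.sum_congr rfl fun t ht => ?_
    rw [if_pos ht]; push_cast; ring
  · intro x _ hx
    rw [if_neg hx]; simp

lemma fs_neg (T : Finset (ZMod N)) (γ : ZMod N) : fs (-T) γ = conj (fs T γ) := by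
  unfold fs
  rw [map_sum, Finset.sum_neg_index]
  refine Finset.sum_congr rfl fun t _ => ?_
  rw [← ee_neg]; congr 1; ring

lemma wft_unif_neg (T : Finset (ZMod N)) (γ : ZMod N) :
    wft (unif (-T)) γ = conj (wft (unif T) γ) := by
  rw [wft_unif, wft_unif, fs_neg, Finset.card_neg, map_mul, map_inv₀, Complex.conj_natCast]

/-- Parseval for the uniform measure. -/
lemma sum_wft_unif_sq (A : Finset (ZMod N)) (hA : A.Nonempty) :
    ∑ γ, ‖wft (unif A) γ‖ ^ 2 = N / A.card := by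
  have hc : (A.card : ℝ) ≠ 0 := by exact_mod_cast hA.card_pos.ne'
  have h := sum_normSq_expSum (N := N) A (fun x : ZMod N => x) (fun x _ y _ h => h)
    (fun _ => ((A.card : ℝ)⁻¹ : ℂ))
  have h1 : ∀ γ : ZMod N, ‖wft (unif A) γ‖ ^ 2
      = ‖∑ i ∈ A, ((A.card : ℝ)⁻¹ : ℂ) * ee (-(γ * i))‖ ^ 2 := by
    intro γ
    rw [wft_unif, fs, Finset.mul_sum]
    push_cast
    rfl
  simp_rw [h1]
  rw [h, Finset.sum_const, nsmul_eq_mul]
  have h2 : ‖((A.card : ℝ)⁻¹ : ℂ)‖ = (A.card : ℝ)⁻¹ := by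
    rw [← Complex.ofReal_inv, Complex.norm_real, Real.norm_eq_abs,
      abs_of_nonneg (by positivity)]
  rw [h2]
  field_simp

/-- The symmetrised averaging operator. -/
noncomputable def avg2 (T : Finset (ZMod N)) (u : ZMod N → ℝ) : ZMod N → ℝ :=
  cnv (unif T) (cnv (unif (-T)) u)

lemma rep_avg2 (T : Finset (ZMod N)) (u : ZMod N → ℝ) (c : ZMod N → ℂ) (h : Rep u c) :
    Rep (avg2 T u) (fun γ => c γ * ((‖wft (unif T) γ‖ ^ 2 : ℝ) : ℂ)) := by
  have h1 := rep_cnv (unif T) _ _ (rep_cnv (unif (-T)) u c h)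
  intro x
  rw [avg2, h1 x]
  refine Finset.sum_congr rfl fun γ _ => ?_
  beta_reduce
  rw [wft_unif_neg]
  have : ((‖wft (unif T) γ‖ ^ 2 : ℝ) : ℂ) = wft (unif T) γ * conj (wft (unif T) γ) := by
    rw [Complex.mul_conj']; push_cast; ring
  rw [this]; ring

lemma rep_avg2_iter (T : Finset (ZMod N)) (u : ZMod N → ℝ) (c : ZMod N → ℂ) (h : Rep u c)
    (n : ℕ) :
    Rep ((avg2 T)^[n] u) (fun γ => c γ * ((((‖wft (unif T) γ‖ ^ 2) ^ n : ℝ)) : ℂ)) := by
  induction n with
  | zero => intro x; simpa using h x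
  | succ n ih =>
    rw [Function.iterate_succ_apply']
    have h1 := rep_avg2 T _ _ ih
    intro x
    rw [h1 x]
    refine Finset.sum_congr rfl fun γ _ => ?_
    push_cast
    ring

lemma avg2_nonneg (T : Finset (ZMod N)) (u : ZMod N → ℝ) (h : ∀ x, 0 ≤ u x) (x : ZMod N) :
    0 ≤ avg2 T u x :=
  cnv_nonneg _ _ (unif_nonneg T) (cnv_nonneg _ _ (unif_nonneg _) h) x

lemma avg2_le_one (T : Finset (ZMod N)) (hT : T.Nonempty) (u : ZMod N → ℝ)
    (h : ∀ x, u x ≤ 1) (x : ZMod N) : avg2 T u x ≤ 1 :=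
  cnv_le_one _ _ (unif_nonneg T) (sum_unif T hT)
    (cnv_le_one _ _ (unif_nonneg _) (sum_unif _ hT.neg) h) x

/-- Estimate for the iterates of the symmetrised averaging operator. -/
lemma avg2_iter_close {q : ℕ} (hq : 0 < q) {a : ℝ} (ha : 0 ≤ a) (T : Finset (ZMod N))
    (hT : T.Nonempty) (f : ZMod N → ℝ) (δ : ℝ) (hδ : ∀ t ∈ T, dst q a f t ≤ δ) (n : ℕ) :
    (∀ w, dst q a ((avg2 T)^[n] f) w ≤ dst q a f w) ∧
    nrm q a (fun x => (avg2 T)^[n] f x - f x) ≤ n * (2 * δ) := by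
  induction n with
  | zero =>
    refine ⟨fun w => le_rfl, ?_⟩
    simp only [Function.iterate_zero, id_eq, sub_self, Nat.cast_zero, zero_mul]
    exact (nrm_zero hq).le
  | succ n ih =>
    obtain ⟨ih1, ih2⟩ := ih
    set u := (avg2 T)^[n] f with hu
    rw [Function.iterate_succ_apply', ← hu]
    set v := cnv (unif (-T)) u with hv
    have hnT : (-T).Nonempty := hT.neg
    have e1 : ∀ w, dst q a v w ≤ dst q a u w :=
      fun w => dst_cnv_le hq ha _ _ (unif_nonneg _) (sum_unif _ hnT) w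
    have e2 : ∀ w, dst q a (avg2 T u) w ≤ dst q a v w :=
      fun w => dst_cnv_le hq ha _ _ (unif_nonneg _) (sum_unif _ hT) w
    refine ⟨fun w => (e2 w).trans ((e1 w).trans (ih1 w)), ?_⟩
    have e3 : nrm q a (fun x => avg2 T u x - v x) ≤ δ := by
      refine nrm_cnv_sub_le hq ha _ _ (unif_nonneg _) (sum_unif _ hT) _ fun w hw => ?_
      exact (e1 w).trans ((ih1 w).trans (hδ w (mem_of_unif_ne_zero _ _ hw)))
    have e4 : nrm q a (fun x => v x - u x) ≤ δ := by
      refine nrm_cnv_sub_le hq ha _ _ (unif_nonneg _) (sum_unif _ hnT) _ fun w hw => ?_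
      have hw' := mem_of_unif_ne_zero _ _ hw
      rw [Finset.mem_neg'] at hw'
      rw [← dst_neg]
      exact (ih1 _).trans (hδ _ hw')
    have e5 := nrm_sub_triangle hq ha (avg2 T u) v u
    have e6 := nrm_sub_triangle hq ha (avg2 T u) u f
    push_cast
    linarith

lemma cnv_unif_neg (A : Finset (ZMod N)) (u : ZMod N → ℝ) (x : ZMod N) :
    cnv (unif (-A)) u x = ∑ b ∈ A, (A.card : ℝ)⁻¹ * u (x + b) := by
  unfold cnv
  rw [sum_unif_mul (-A) (fun s => u (x - s)), Finset.card_neg, Finset.sum_neg_index]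
  refine Finset.sum_congr rfl fun b _ => ?_
  rw [sub_neg_eq_add]

/-- Lifting the Bohr condition from a generating set to integer representatives. -/
lemma lift_bohr (Γ : Finset (ZMod N)) (ε : ℝ) (x : ZMod N)
    (hx : ∀ γ ∈ Γ, |((γ * x).val : ℝ) / (N : ℝ)
      - ((round (((γ * x).val : ℝ) / (N : ℝ)) : ℤ) : ℝ)| ≤ ε)
    (γ : ZMod N) (hγ : γ ∈ Γ.addSpan) :
    ∃ θ : ℤ, (θ : ZMod N) = γ * x ∧ |(θ : ℝ)| ≤ Γ.card * ε * N := by
  have hN : (0 : ℝ) < N := by exact_mod_cast Nat.pos_of_ne_zero (NeZero.ne N)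
  obtain ⟨c, hc, hsum⟩ := Finset.mem_addSpan.mp hγ
  set τ : ZMod N → ℤ := fun γ => ((γ * x).val : ℤ) - N * round (((γ * x).val : ℝ) / (N : ℝ))
    with hτ
  have h1 : ∀ γ, ((τ γ : ℤ) : ZMod N) = γ * x := by
    intro γ
    rw [hτ]
    push_cast
    simp
  have h2 : ∀ γ ∈ Γ, |(τ γ : ℝ)| ≤ ε * N := by
    intro γ hγ
    have h3 := hx γ hγ
    have h4 : (τ γ : ℝ) = (((γ * x).val : ℝ) / (N : ℝ)
      - ((round (((γ * x).val : ℝ) / (N : ℝ)) : ℤ) : ℝ)) * N := by
      rw [hτ]; push_cast; field_simp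
    rw [h4, abs_mul, abs_of_pos hN]
    gcongr
  refine ⟨∑ δ ∈ Γ, c δ * τ δ, ?_, ?_⟩
  · push_cast
    rw [← hsum, Finset.sum_mul]
    refine Finset.sum_congr rfl fun δ _ => ?_
    rw [h1 δ, zsmul_eq_mul]; ring
  · push_cast
    refine (Finset.abs_sum_le_sum_abs _ _).trans ?_
    calc ∑ δ ∈ Γ, |(c δ : ℝ) * (τ δ : ℝ)| ≤ ∑ δ ∈ Γ, ε * N := by
          refine Finset.sum_le_sum fun δ hδ => ?_
          rw [abs_mul]
          have h5 : |(c δ : ℝ)| ≤ 1 := by
            rcases hc δ with h | h | h <;> rw [h] <;> simp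
          calc |(c δ : ℝ)| * |(τ δ : ℝ)| ≤ 1 * (ε * N) :=
                mul_le_mul h5 (h2 δ hδ) (abs_nonneg _) zero_le_one
            _ = ε * N := one_mul _
      _ = Γ.card * ε * N := by rw [Finset.sum_const, nsmul_eq_mul]; ring

/-- Bogolyubov type theorem for sets of small doubling: linear dependence of the rank on the
logarithm of the density. -/
theorem bohr_small_doubling (A : Finset (ZMod N)) (hA : A.Nonempty) (K : ℝ)
    (hK : Real.exp 1 ≤ K) (hAK : ((A - A).card : ℝ) ≤ K * A.card) :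
    ∃ Γ : Finset (ZMod N),
      (Γ.card : ℝ) ≤ 8 * (Real.log (N / A.card)
        + 33712000 * Real.exp 11 * (Real.log K) ^ 3) ∧
      ∀ ε : ℝ, Γ.card * ε ≤ 1 / 250 → ∀ x : ZMod N,
        (∀ γ ∈ Γ, |((γ * x).val : ℝ) / (N : ℝ)
          - ((round (((γ * x).val : ℝ) / (N : ℝ)) : ℤ) : ℝ)| ≤ ε) →
        ∃ a₁ ∈ A, ∃ a₂ ∈ A, ∃ a₃ ∈ A, ∃ a₄ ∈ A, x = a₁ + a₂ - a₃ - a₄ := by
  classical
  have hN : (0 : ℝ) < N := by exact_mod_cast Nat.pos_of_ne_zero (NeZero.ne N)
  have hc : (0 : ℝ) < A.card := by exact_mod_cast hA.card_pos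
  have hK0 : 0 < K := (Real.exp_pos 1).trans_le hK
  set k := Real.log K with hk
  have hk1 : 1 ≤ k := by rw [hk, Real.le_log_iff_exp_le hK0]; exact hK
  set q := ⌈k⌉₊ with hq
  have hq0 : 0 < q := Nat.ceil_pos.mpr (by linarith)
  -- number of averaging steps
  set n : ℕ := ⌈k⌉₊ + 3 with hn
  have hnk : k + 3 ≤ n := by
    have := Nat.le_ceil k
    rw [hn]; push_cast; linarith
  have hn5 : (n : ℝ) ≤ 5 * k := by
    have := (Nat.ceil_lt_add_one (by linarith : (0 : ℝ) ≤ k)).le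
    rw [hn]; push_cast; linarith
  have hn0 : (0 : ℝ) < n := by linarith
  set l : ℝ := 16 * n with hl
  have hl1 : 1 ≤ l := by rw [hl]; linarith
  obtain ⟨ν, T, hL, hTcard⟩ := level_main A hA K hK hAK l hl1
  rw [← hk, ← hq] at hL
  rw [← hk] at hTcard
  have hT : T.Nonempty := ⟨0, hL.zero_mem⟩
  have hTc : (0 : ℝ) < T.card := by exact_mod_cast hT.card_pos
  -- the spectrum
  set Sp : Finset (ZMod N) := Finset.univ.filter (fun γ => (T.card : ℝ) / 2 ≤ ‖fs T γ‖) with hSp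
  obtain ⟨Γ, hΓS, hΓc, hΓspan⟩ := Finset.exists_subset_addSpan_card_le_of_forall_addDissociated
    (s := Sp) (d := ⌊8 * Real.log (N / T.card)⌋₊) (by
      intro Λ hΛ hdis
      apply Nat.le_floor
      refine chang_half T hT Λ hdis fun γ hγ => ?_
      have := hΛ hγ
      rw [hSp, Finset.mem_filter] at this
      exact this.2)
  refine ⟨Γ, ?_, ?_⟩
  · -- the bound on the rank
    have h1 : (Γ.card : ℝ) ≤ 8 * Real.log (N / T.card) := by
      have hTN : (T.card : ℝ) ≤ N := by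
        have := Finset.card_le_univ T
        rw [ZMod.card] at this
        exact_mod_cast this
      have h2 : 0 ≤ 8 * Real.log (N / T.card) := by
        have : 0 ≤ Real.log (N / T.card) := by
          apply Real.log_nonneg
          rw [le_div_iff₀ hTc]; linarith
        linarith
      exact (Nat.cast_le.mpr hΓc).trans (Nat.floor_le h2)
    have h3 : Real.log (N / T.card) ≤ Real.log (N / A.card)
        + 421400 * Real.exp 11 * k ^ 2 * l := by
      rw [Real.log_div hN.ne' hTc.ne', Real.log_div hN.ne' hc.ne']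
      have h4 := Real.log_le_log (by positivity) hTcard
      rw [Real.log_mul hc.ne' (Real.exp_pos _).ne', Real.log_exp] at h4
      linarith
    have h6 : 421400 * Real.exp 11 * k ^ 2 * l ≤ 421400 * Real.exp 11 * k ^ 2 * (80 * k) := by
      refine mul_le_mul_of_nonneg_left ?_ (by positivity)
      rw [hl]; linarith
    have h7 : 421400 * Real.exp 11 * k ^ 2 * (80 * k) = 33712000 * Real.exp 11 * k ^ 3 := by ring
    linarith
  · -- the inclusion
    intro ε hε x hx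
    set f := cnv ν (fA A) with hf
    set F0 := (avg2 T)^[n] f with hF0
    set F := cnv (unif (-A)) F0 with hF
    have hnA : (-A).Nonempty := hA.neg
    -- closeness of `F` to the base function
    have hclose : ∀ z, |F z - cnv (unif (-A)) (fA A) z| ≤ 3 / 16 := by
      intro z
      have e1 : F z - cnv (unif (-A)) (fA A) z
          = ∑ b ∈ A, (A.card : ℝ)⁻¹ * (fun y => F0 y - fA A y) (z + b) := by
        rw [hF, cnv_unif_neg, cnv_unif_neg, ← Finset.sum_sub_distrib]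
        refine Finset.sum_congr rfl fun b _ => ?_
        ring
      rw [e1]
      refine (mean_le_nrm hq0 A hA (fun y => F0 y - fA A y) z).trans ?_
      have e2 := nrm_sub_triangle (a := (A.card : ℝ)) hq0 hc.le F0 f (fA A)
      have e3 := (avg2_iter_close hq0 hc.le T hT f (1 / l) hL.per n).2
      have e4 := hL.close
      have e6 : (n : ℝ) * (2 * (1 / l)) = 1 / 8 := by
        rw [hl]; field_simp; norm_num
      rw [e6] at e3
      linarith
    -- the base function at zero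
    have hzero : cnv (unif (-A)) (fA A) 0 = 1 := by
      rw [cnv_unif_neg]
      have e1 : ∀ b ∈ A, (A.card : ℝ)⁻¹ * fA A (0 + b) = (A.card : ℝ)⁻¹ := by
        intro b hb
        rw [zero_add, fA_eq_one A hA b hb, mul_one]
      rw [Finset.sum_congr rfl e1, Finset.sum_const, nsmul_eq_mul]
      field_simp
    -- bounds for `F`
    have hF0b : ∀ m z, 0 ≤ (avg2 T)^[m] f z ∧ (avg2 T)^[m] f z ≤ 1 := by
      intro m
      induction m with
      | zero =>
        intro z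
        exact ⟨cnv_nonneg _ _ hL.nn (fA_nonneg A) z,
          cnv_le_one _ _ hL.nn hL.sum_one (fA_le_one A hA) z⟩
      | succ m ih =>
        intro z
        rw [Function.iterate_succ_apply']
        exact ⟨avg2_nonneg T _ (fun y => (ih y).1) z, avg2_le_one T hT _ (fun y => (ih y).2) z⟩
    have hFb : ∀ z, 0 ≤ F z ∧ F z ≤ 1 := fun z =>
      ⟨cnv_nonneg _ _ (unif_nonneg _) (fun y => (hF0b n y).1) z,
        cnv_le_one _ _ (unif_nonneg _) (sum_unif _ hnA) (fun y => (hF0b n y).2) z⟩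
    -- Fourier expansion
    set c0 : ZMod N → ℂ := fun γ => wft (gA A) γ / N * wft (unif A) γ * wft ν γ with hc0
    have hrepf : Rep f c0 := by
      have e1 := rep_cnv ν _ _ (rep_cnv (unif A) _ _ (rep_inv (gA A)))
      exact e1
    have hrepF := rep_cnv (unif (-A)) _ _ (rep_avg2_iter T f c0 hrepf n)
    set c : ZMod N → ℂ := fun γ =>
      c0 γ * ((((‖wft (unif T) γ‖ ^ 2) ^ n : ℝ)) : ℂ) * wft (unif (-A)) γ with hcc
    have hrepF' : ∀ z, (F z : ℂ) = ∑ γ, c γ * ee (γ * z) := hrepF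
    -- coefficient bounds
    have hcb : ∀ γ, ‖c γ‖ ≤ (A - A).card / N * ‖wft (unif A) γ‖ ^ 2
        * (‖wft (unif T) γ‖ ^ 2) ^ n := by
      intro γ
      have e1 : ‖wft (gA A) γ‖ ≤ (A - A).card := by
        refine (norm_wft_le _ (gA_nonneg A) γ).trans (le_of_eq ?_)
        unfold gA
        rw [Finset.sum_ite_mem, Finset.univ_inter, Finset.sum_const, nsmul_eq_mul, mul_one]
      have e2 : ‖wft ν γ‖ ≤ 1 := (norm_wft_le _ hL.nn γ).trans (le_of_eq hL.sum_one)
      rw [hcc]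
      beta_reduce
      rw [hc0]
      beta_reduce
      rw [wft_unif_neg, norm_mul, norm_mul, norm_mul, norm_mul, norm_div, RCLike.norm_conj,
        Complex.norm_natCast, Complex.norm_real, Real.norm_eq_abs,
        abs_of_nonneg (by positivity : (0 : ℝ) ≤ (‖wft (unif T) γ‖ ^ 2) ^ n)]
      calc ‖wft (gA A) γ‖ / N * ‖wft (unif A) γ‖ * ‖wft ν γ‖ * (‖wft (unif T) γ‖ ^ 2) ^ n
            * ‖wft (unif A) γ‖
          ≤ (A - A).card / N * ‖wft (unif A) γ‖ * 1 * (‖wft (unif T) γ‖ ^ 2) ^ n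
            * ‖wft (unif A) γ‖ := by gcongr
        _ = _ := by ring
    have hTle : ∀ γ, ‖wft (unif T) γ‖ ≤ 1 := fun γ =>
      (norm_wft_le _ (unif_nonneg T) γ).trans (le_of_eq (sum_unif T hT))
    -- the tail
    have htail : ∀ z, ‖∑ γ ∈ Spᶜ, c γ * ee (γ * z)‖ ≤ 1 / 64 := by
      intro z
      have e0 : ∀ γ ∈ Spᶜ, ‖c γ * ee (γ * z)‖
          ≤ ((A - A).card / N * (1 / 4) ^ n) * ‖wft (unif A) γ‖ ^ 2 := by
        intro γ hγ
        rw [Finset.mem_compl, hSp, Finset.mem_filter] at hγ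
        push Not at hγ
        have e1 := hγ (Finset.mem_univ γ)
        have e2 : ‖wft (unif T) γ‖ ≤ 1 / 2 := by
          rw [wft_unif, norm_mul, norm_inv, Complex.norm_natCast, inv_mul_le_iff₀ hTc]
          linarith
        have e3 : (‖wft (unif T) γ‖ ^ 2) ^ n ≤ (1 / 4) ^ n := by
          apply pow_le_pow_left₀ (by positivity)
          have := pow_le_pow_left₀ (norm_nonneg _) e2 2
          norm_num at this ⊢
          linarith
        rw [norm_mul, norm_ee, mul_one]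
        refine (hcb γ).trans ?_
        calc ((A - A).card : ℝ) / N * ‖wft (unif A) γ‖ ^ 2 * (‖wft (unif T) γ‖ ^ 2) ^ n
            ≤ ((A - A).card : ℝ) / N * ‖wft (unif A) γ‖ ^ 2 * (1 / 4) ^ n := by gcongr
          _ = _ := by ring
      refine (norm_sum_le _ _).trans ((Finset.sum_le_sum e0).trans ?_)
      rw [← Finset.mul_sum]
      have e4 : ∑ γ ∈ Spᶜ, ‖wft (unif A) γ‖ ^ 2 ≤ N / A.card := by
        rw [← sum_wft_unif_sq A hA]
        exact Finset.sum_le_sum_of_subset_of_nonneg (Finset.subset_univ _)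
          fun _ _ _ => by positivity
      have e5 : ((A - A).card : ℝ) / N * (1 / 4) ^ n * (N / A.card) ≤ K * (1 / 4) ^ n := by
        have : ((A - A).card : ℝ) / N * (1 / 4) ^ n * (N / A.card)
            = (A - A).card / A.card * (1 / 4) ^ n := by field_simp
        rw [this]
        refine mul_le_mul_of_nonneg_right ?_ (by positivity)
        rw [div_le_iff₀ hc]; exact hAK
      have e6 : K * (1 / 4) ^ n ≤ 1 / 64 := by
        have e7 : K ≤ 4 ^ ⌈k⌉₊ := by
          have h1 : K = Real.exp k := (Real.exp_log hK0).symm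
          have h2 : Real.exp k ≤ Real.exp (⌈k⌉₊ : ℝ) := Real.exp_le_exp.mpr (Nat.le_ceil k)
          have h3 : Real.exp (⌈k⌉₊ : ℝ) = (Real.exp 1) ^ ⌈k⌉₊ := by
            rw [← Real.exp_nat_mul, mul_one]
          have h4 : Real.exp 1 ≤ 4 := by
            have := Real.exp_one_lt_d9
            linarith
          rw [h1]
          refine h2.trans ?_
          rw [h3]
          exact pow_le_pow_left₀ (Real.exp_pos _).le h4 _
        have e8 : ((1 : ℝ) / 4) ^ n = (4 ^ ⌈k⌉₊)⁻¹ * (1 / 64) := by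
          rw [hn, pow_add, one_div, inv_pow]; norm_num
        rw [e8]
        have e9 : (0 : ℝ) < 4 ^ ⌈k⌉₊ := by positivity
        calc K * ((4 ^ ⌈k⌉₊)⁻¹ * (1 / 64)) ≤ 4 ^ ⌈k⌉₊ * ((4 ^ ⌈k⌉₊)⁻¹ * (1 / 64)) := by gcongr
          _ = 1 / 64 := by field_simp
      calc ((A - A).card : ℝ) / N * (1 / 4) ^ n * ∑ γ ∈ Spᶜ, ‖wft (unif A) γ‖ ^ 2
          ≤ ((A - A).card : ℝ) / N * (1 / 4) ^ n * (N / A.card) := by gcongr
        _ ≤ 1 / 64 := e5.trans e6
    have hsplit : ∀ z, (F z : ℂ) = ∑ γ ∈ Sp, c γ * ee (γ * z) + ∑ γ ∈ Spᶜ, c γ * ee (γ * z) := by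
      intro z
      rw [hrepF' z, Finset.sum_add_sum_compl]
    -- integer representatives
    have hθex : ∀ γ ∈ Sp, ∃ θ : ℤ, (θ : ZMod N) = γ * x ∧ |(θ : ℝ)| ≤ N / 250 := by
      intro γ hγ
      obtain ⟨θ, h1, h2⟩ := lift_bohr Γ ε x hx γ (hΓspan hγ)
      refine ⟨θ, h1, h2.trans ?_⟩
      calc (Γ.card : ℝ) * ε * N ≤ 1 / 250 * N := by gcongr
        _ = N / 250 := by ring
    choose! θ hθ1 hθ2 using hθex
    set m : ℕ := N / 250 with hm
    have hm4 : 4 * m + 1 ≤ N := by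
      have : 0 < N := Nat.pos_of_ne_zero (NeZero.ne N)
      omega
    have hmN : (m : ℝ) / N ≤ 1 / 250 := by
      rw [div_le_iff₀ hN]
      have : (m : ℝ) ≤ (N : ℝ) / 250 := by rw [hm]; exact_mod_cast Nat.cast_div_le
      linarith
    have hθm : ∀ γ ∈ Sp, |θ γ| ≤ m := by
      intro γ hγ
      have h1 := hθ2 γ hγ
      have h2 : ((|θ γ| : ℤ) : ℝ) ≤ (N : ℝ) / 250 := by rw [Int.cast_abs]; exact h1
      have h3 : (|θ γ| : ℤ) = ((θ γ).natAbs : ℤ) := Int.abs_eq_natAbs _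
      rw [h3] at h2 ⊢
      have h4 : (((θ γ).natAbs : ℕ) : ℝ) ≤ (N : ℝ) / 250 := by
        rw [Nat.cast_natAbs, Int.cast_abs]; exact h1
      have h5 : (θ γ).natAbs ≤ N / 250 := by
        rw [Nat.le_div_iff_mul_le (by norm_num)]
        rw [le_div_iff₀ (by norm_num)] at h4
        exact_mod_cast h4
      rw [hm]
      exact_mod_cast h5
    have hbern := bernstein (N := N) Sp c θ m hm4 hθm (65 / 64) (by
      intro j
      have e1 : ∑ γ ∈ Sp, c γ * ee (j * (θ γ : ZMod N)) = ∑ γ ∈ Sp, c γ * ee (γ * (j * x)) := by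
        refine Finset.sum_congr rfl fun γ hγ => ?_
        rw [hθ1 γ hγ]
        congr 2; ring
      rw [e1]
      have e2 : ∑ γ ∈ Sp, c γ * ee (γ * (j * x))
          = (F (j * x) : ℂ) - ∑ γ ∈ Spᶜ, c γ * ee (γ * (j * x)) := by
        rw [hsplit (j * x)]; ring
      rw [e2]
      refine (norm_sub_le _ _).trans ?_
      have e3 := htail (j * x)
      have e4 : ‖(F (j * x) : ℂ)‖ ≤ 1 := by
        rw [Complex.norm_real, Real.norm_eq_abs, abs_of_nonneg (hFb _).1]
        exact (hFb _).2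
      linarith)
    have e1 : ∑ γ ∈ Sp, c γ * ee ((θ γ : ℤ) : ZMod N) = ∑ γ ∈ Sp, c γ * ee (γ * x) := by
      refine Finset.sum_congr rfl fun γ hγ => ?_
      rw [hθ1 γ hγ]
    have e2 : ∑ γ ∈ Sp, c γ = ∑ γ ∈ Sp, c γ * ee (γ * 0) := by
      refine Finset.sum_congr rfl fun γ _ => ?_
      rw [mul_zero, ee_zero, mul_one]
    rw [e1, e2] at hbern
    have e3 : ‖(F x : ℂ) - (F 0 : ℂ)‖ ≤ 27 * (m / N) * (65 / 64) + 1 / 64 + 1 / 64 := by
      have e4 : (F x : ℂ) - (F 0 : ℂ)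
          = (∑ γ ∈ Sp, c γ * ee (γ * x) - ∑ γ ∈ Sp, c γ * ee (γ * 0))
            + ∑ γ ∈ Spᶜ, c γ * ee (γ * x) - ∑ γ ∈ Spᶜ, c γ * ee (γ * 0) := by
        rw [hsplit x, hsplit 0]; ring
      rw [e4]
      refine (norm_sub_le _ _).trans ?_
      have e5 := norm_add_le (∑ γ ∈ Sp, c γ * ee (γ * x) - ∑ γ ∈ Sp, c γ * ee (γ * 0))
        (∑ γ ∈ Spᶜ, c γ * ee (γ * x))
      have e6 := htail x
      have e7 := htail 0
      linarith
    rw [← Complex.ofReal_sub, Complex.norm_real, Real.norm_eq_abs] at e3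
    have e8 := abs_le.mp e3
    have e9 := abs_le.mp (hclose x)
    have e10 := abs_le.mp (hclose 0)
    rw [hzero] at e10
    have hpos : 0 < cnv (unif (-A)) (fA A) x := by
      have : 27 * ((m : ℝ) / N) * (65 / 64) ≤ 27 * (1 / 250) * (65 / 64) := by gcongr
      norm_num at this
      linarith [e8.1, e8.2, e9.1, e9.2, e10.1, e10.2]
    obtain ⟨s, hs, hsx⟩ := cnv_ne_zero _ _ _ hpos.ne'
    have hs' := mem_of_unif_ne_zero _ _ hs
    rw [Finset.mem_neg'] at hs'
    obtain ⟨t, ht, htx⟩ := cnv_ne_zero _ _ _ hsx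
    have ht' := mem_of_unif_ne_zero _ _ ht
    obtain ⟨a1, ha1, a2, ha2, h12⟩ := Finset.mem_sub.mp (mem_of_gA_ne_zero A _ htx)
    refine ⟨t, ht', a1, ha1, -s, hs', a2, ha2, ?_⟩
    have : x = (x - s - t) + s + t := by ring
    rw [this, ← h12]; ring

end Pool.Agent.H18
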