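import Pool.Agent.H18.Bernstein

set_option autoImplicit false

open Finset ComplexConjugate

namespace Pool.Agent.H18

variable {N : ℕ} [NeZero N]

/-- Fourier transform of the indicator function of a finite set. -/
noncomputable def fs (T : Finset (ZMod N)) (γ : ZMod N) : ℂ := ∑ t ∈ T, ee (-(γ * t))

lemma zmodAddEquiv_eq (γ x : ZMod N) : AddChar.zmodAddEquiv γ x = ee (γ * x) := by
  obtain ⟨a, rfl⟩ := ZMod.intCast_surjective γ
  obtain ⟨b, rfl⟩ := ZMod.intCast_surjective x
  rw [AddChar.zmodAddEquiv_apply]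
  have h1 : (AddChar.circleEquivComplex (AddChar.zmod N ((a : ℤ) : ZMod N)))
      ((b : ℤ) : ZMod N) = ((AddChar.zmod N ((a : ℤ) : ZMod N) ((b : ℤ) : ZMod N) : Circle) : ℂ) :=
    rfl
  have h2 : ((a : ℤ) : ZMod N) * ((b : ℤ) : ZMod N) = ((a * b : ℤ) : ZMod N) := by push_cast; ring
  rw [h1, AddChar.zmod_intCast, h2, ee, ZMod.stdAddChar_coe, Circle.coe_exp]
  congr 1
  push_cast
  ring

/-- The chord inequality for the logarithm. -/
lemma chord_log (y : ℝ) (hy : |y| ≤ 1) :
    1 / 2 * Real.log (3 / 4) + y / 2 * Real.log 3 ≤ Real.log (1 + y / 2) := by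
  have hy' := abs_le.mp hy
  have h := strictConcaveOn_log_Ioi.concaveOn.2 (show (3 / 2 : ℝ) ∈ Set.Ioi 0 by norm_num)
    (show (1 / 2 : ℝ) ∈ Set.Ioi 0 by norm_num) (show (0 : ℝ) ≤ (1 + y) / 2 by linarith)
    (show (0 : ℝ) ≤ (1 - y) / 2 by linarith) (by ring)
  simp only [smul_eq_mul] at h
  have e1 : (1 + y) / 2 * (3 / 2) + (1 - y) / 2 * (1 / 2) = 1 + y / 2 := by ring
  rw [e1] at h
  have e2 : Real.log (3 / 4) = Real.log (3 / 2) + Real.log (1 / 2) := by
    rw [← Real.log_mul (by norm_num) (by norm_num)]; norm_num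
  have e3 : Real.log 3 = Real.log (3 / 2) - Real.log (1 / 2) := by
    rw [← Real.log_div (by norm_num) (by norm_num)]; norm_num
  rw [e2, e3]
  linarith

lemma const_log : (1 : ℝ) / 8 ≤ 1 / 2 * Real.log (3 / 4) + 1 / 4 * Real.log 3 := by
  have e1 : 1 / 2 * Real.log (3 / 4) + 1 / 4 * Real.log 3
      = 1 / 8 * Real.log ((27 / 16) ^ 2) := by
    have h1 : Real.log ((27 / 16 : ℝ) ^ 2) = 2 * Real.log (27 / 16) := by
      rw [Real.log_pow]; norm_num
    have h2 : Real.log (27 / 16 : ℝ) = 2 * Real.log (3 / 4) + Real.log 3 := by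
      rw [show (27 / 16 : ℝ) = (3 / 4) ^ 2 * 3 by norm_num,
        Real.log_mul (by norm_num) (by norm_num), Real.log_pow]
      norm_num
    rw [h1, h2]; ring
  rw [e1]
  have h3 : (1 : ℝ) ≤ Real.log ((27 / 16) ^ 2) := by
    rw [Real.le_log_iff_exp_le (by norm_num)]
    have := Real.exp_one_lt_d9
    refine this.le.trans ?_
    norm_num
  linarith

/-- Riesz product identity for a dissociated set of frequencies. -/
lemma riesz (Λ : Finset (ZMod N)) (hΛ : AddDissociated (Λ : Set (ZMod N)))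
    (d : ZMod N → ℂ) :
    ∑ x : ZMod N, ∏ γ ∈ Λ, (1 + (d γ * ee (γ * x)).re) = N := by
  classical
  set e : ZMod N ≃+ AddChar (ZMod N) ℂ := AddChar.zmodAddEquiv with he
  set D : ZMod N → ℂ := fun γ => if γ ∈ Λ then d γ else 0 with hD
  have hdis : AddDissociated {ψ : AddChar (ZMod N) ℂ | D (e.symm ψ) ≠ 0} := by
    have h1 : AddDissociated {γ : ZMod N | D γ ≠ 0} := by
      refine AddDissociated.subset ?_ hΛ
      intro γ hγ
      by_contra h
      apply hγ
      rw [hD]
      simp only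
      rw [if_neg]
      simpa using h
    exact (AddEquiv.addDissociated_preimage e.symm).mpr h1
  have h2 := AddDissociated.randomisation (fun _ => 1) (fun ψ => D (e.symm ψ)) hdis
  rw [Fintype.expect_eq_sum_div_card, Finset.prod_const_one, ZMod.card] at h2
  have hN : (N : ℝ) ≠ 0 := by exact_mod_cast NeZero.ne N
  rw [div_eq_iff hN, one_mul] at h2
  rw [← h2]
  refine Finset.sum_congr rfl fun x _ => ?_
  have h3 : ∏ ψ : AddChar (ZMod N) ℂ, (1 + (D (e.symm ψ) * ψ x).re)
      = ∏ γ : ZMod N, (1 + (D γ * ee (γ * x)).re) := by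
    refine (Fintype.prod_equiv e.toEquiv _ _ fun γ => ?_).symm
    have : (e.toEquiv γ) = e γ := rfl
    rw [this, AddEquiv.symm_apply_apply, he, zmodAddEquiv_eq]
  rw [h3, ← Finset.prod_subset (Finset.subset_univ Λ)]
  · refine Finset.prod_congr rfl fun γ hγ => ?_
    rw [hD]; simp only; rw [if_pos hγ]
  · intro γ _ hγ
    rw [hD]; simp only; rw [if_neg hγ, zero_mul, Complex.zero_re, add_zero]

/-- Chang's theorem with threshold one half. -/
theorem chang_half (T : Finset (ZMod N)) (hT : T.Nonempty) (Λ : Finset (ZMod N))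
    (hΛ : AddDissociated (Λ : Set (ZMod N)))
    (hspec : ∀ γ ∈ Λ, (T.card : ℝ) / 2 ≤ ‖fs T γ‖) :
    (Λ.card : ℝ) ≤ 8 * Real.log (N / T.card) := by
  classical
  have hN : (0 : ℝ) < N := by exact_mod_cast Nat.pos_of_ne_zero (NeZero.ne N)
  have hTc : (0 : ℝ) < T.card := by exact_mod_cast hT.card_pos
  -- the unimodular multipliers
  set c : ZMod N → ℂ := fun γ => conj (fs T γ) / ‖fs T γ‖ with hc
  have hcn : ∀ γ, ‖c γ‖ ≤ 1 := by
    intro γ
    rw [hc]
    simp only [norm_div, RCLike.norm_conj, Complex.norm_real, norm_norm]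
    exact div_self_le_one _
  set y : ZMod N → ZMod N → ℝ := fun γ t => (conj (c γ) * ee (γ * t)).re with hy
  have hy1 : ∀ γ t, |y γ t| ≤ 1 := by
    intro γ t
    refine (Complex.abs_re_le_norm _).trans ?_
    rw [norm_mul, RCLike.norm_conj, norm_ee, mul_one]
    exact hcn γ
  have hysum : ∀ γ ∈ Λ, ∑ t ∈ T, y γ t = ‖fs T γ‖ := by
    intro γ hγ
    have h1 : ∀ t, y γ t = (c γ * ee (-(γ * t))).re := by
      intro t
      rw [hy]
      simp only
      rw [ee_neg, ← Complex.conj_re, map_mul, Complex.conj_conj]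
    simp_rw [h1]
    rw [← Complex.re_sum, ← Finset.mul_sum]
    have h2 : c γ * ∑ t ∈ T, ee (-(γ * t)) = (‖fs T γ‖ : ℂ) := by
      have h3 : (0 : ℝ) < ‖fs T γ‖ := lt_of_lt_of_le (by positivity) (hspec γ hγ)
      have h4 : (‖fs T γ‖ : ℂ) ≠ 0 := by exact_mod_cast h3.ne'
      rw [hc]
      simp only
      rw [show ∑ t ∈ T, ee (-(γ * t)) = fs T γ from rfl, div_mul_eq_mul_div, div_eq_iff h4,
        mul_comm, Complex.mul_conj']
      ring
    rw [h2, Complex.ofReal_re]
  have hriesz := riesz Λ hΛ (fun γ => conj (c γ) / 2)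
  have h1 : ∀ γ x, (conj (c γ) / 2 * ee (γ * x)).re = y γ x / 2 := by
    intro γ x
    rw [hy]
    simp only
    have : conj (c γ) / 2 * ee (γ * x) = ((1 / 2 : ℝ) : ℂ) * (conj (c γ) * ee (γ * x)) := by
      push_cast; ring
    rw [this, Complex.re_ofReal_mul]; ring
  simp_rw [h1] at hriesz
  have hpos : ∀ γ x, 0 < 1 + y γ x / 2 := by
    intro γ x
    have := abs_le.mp (hy1 γ x)
    linarith
  set p : ZMod N → ℝ := fun x => ∏ γ ∈ Λ, (1 + y γ x / 2) with hp
  have hp0 : ∀ x, 0 < p x := fun x => Finset.prod_pos fun γ _ => hpos γ x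
  -- upper bound
  have hupper : ∑ t ∈ T, Real.log (p t) ≤ T.card * Real.log (N / T.card) := by
    have hq : (0 : ℝ) < N / T.card := by positivity
    have h2 : ∀ t ∈ T, Real.log (p t) ≤ p t / (N / T.card) - 1 + Real.log (N / T.card) := by
      intro t _
      have h3 := Real.log_le_sub_one_of_pos (div_pos (hp0 t) hq)
      rw [Real.log_div (hp0 t).ne' hq.ne'] at h3
      linarith
    refine (Finset.sum_le_sum h2).trans ?_
    rw [Finset.sum_add_distrib, Finset.sum_sub_distrib, ← Finset.sum_div]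
    simp only [Finset.sum_const, nsmul_eq_mul, mul_one]
    have h4 : ∑ t ∈ T, p t ≤ N := by
      rw [← hriesz]
      exact Finset.sum_le_sum_of_subset_of_nonneg (Finset.subset_univ _) fun x _ _ => (hp0 x).le
    have h5 : (∑ t ∈ T, p t) / (N / T.card) ≤ T.card := by
      rw [div_le_iff₀ hq]
      refine h4.trans (le_of_eq ?_)
      field_simp
    linarith
  -- lower bound
  have hlower : (T.card : ℝ) * (Λ.card * (1 / 8)) ≤ ∑ t ∈ T, Real.log (p t) := by
    have h2 : ∀ t ∈ T, ∑ γ ∈ Λ, (1 / 2 * Real.log (3 / 4) + y γ t / 2 * Real.log 3)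
        ≤ Real.log (p t) := by
      intro t _
      rw [hp]
      simp only
      rw [Real.log_prod (fun γ _ => (hpos γ t).ne')]
      exact Finset.sum_le_sum fun γ _ => chord_log _ (hy1 γ t)
    refine le_trans ?_ (Finset.sum_le_sum h2)
    rw [Finset.sum_comm]
    have h3 : ∀ γ ∈ Λ, (T.card : ℝ) * (1 / 8)
        ≤ ∑ t ∈ T, (1 / 2 * Real.log (3 / 4) + y γ t / 2 * Real.log 3) := by
      intro γ hγ
      rw [Finset.sum_add_distrib, Finset.sum_const, nsmul_eq_mul, ← Finset.sum_mul,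
        ← Finset.sum_div, hysum γ hγ]
      have h4 := hspec γ hγ
      have h5 : 0 < Real.log 3 := Real.log_pos (by norm_num)
      have h6 : (T.card : ℝ) / 2 / 2 * Real.log 3 ≤ ‖fs T γ‖ / 2 * Real.log 3 := by gcongr
      have h7 := mul_le_mul_of_nonneg_left const_log hTc.le
      have h8 : (T.card : ℝ) * (1 / 2 * Real.log (3 / 4) + 1 / 4 * Real.log 3)
          = T.card * (1 / 2 * Real.log (3 / 4)) + (T.card : ℝ) / 2 / 2 * Real.log 3 := by ring
      linarith
    calc (T.card : ℝ) * (Λ.card * (1 / 8)) = ∑ γ ∈ Λ, (T.card : ℝ) * (1 / 8) := by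
          rw [Finset.sum_const, nsmul_eq_mul]; ring
      _ ≤ _ := Finset.sum_le_sum h3
  have h9 := hlower.trans hupper
  have h10 := le_of_mul_le_mul_left h9 hTc
  linarith

end Pool.Agent.H18
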