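import Mathlib

set_option autoImplicit false

open Finset

namespace Pool.Agent.H18

section product

variable {G : Type*} [Fintype G]

/-- Product weights on tuples. -/
noncomputable def prodW {m : ℕ} (ω : G → ℝ) (s : Fin m → G) : ℝ := ∏ i, ω (s i)

omit [Fintype G] in
lemma prodW_nonneg {m : ℕ} (ω : G → ℝ) (h0 : ∀ x, 0 ≤ ω x) (s : Fin m → G) : 0 ≤ prodW ω s :=
  Finset.prod_nonneg fun _ _ => h0 _

lemma sum_prodW (m : ℕ) (ω : G → ℝ) (h1 : ∑ x, ω x = 1) :
    ∑ s : Fin m → G, prodW ω s = 1 := by
  have := (Fintype.sum_pow ω m).symm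
  rw [h1, one_pow] at this
  exact this

lemma sum_prodW_mul_prod (m : ℕ) (ω φ : G → ℝ) :
    ∑ s : Fin m → G, prodW ω s * ∏ i, φ (s i) = (∑ x, ω x * φ x) ^ m := by
  rw [Fintype.sum_pow]
  refine Finset.sum_congr rfl fun s _ => ?_
  rw [prodW, Finset.prod_mul_distrib]

lemma sum_prodW_mul_apply {m : ℕ} (ω : G → ℝ) (h1 : ∑ x, ω x = 1) (φ : G → ℝ) (j : Fin m) :
    ∑ s : Fin m → G, prodW ω s * φ (s j) = ∑ x, ω x * φ x := by
  classical
  have h2 : ∀ s : Fin m → G, prodW ω s * φ (s j)
      = ∏ i, (if i = j then ω (s i) * φ (s i) else ω (s i)) := by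
    intro s
    have h3 : ∀ i, (if i = j then ω (s i) * φ (s i) else ω (s i))
        = ω (s i) * (if i = j then φ (s i) else 1) := by
      intro i; split_ifs <;> ring
    simp_rw [h3]
    rw [Finset.prod_mul_distrib, Finset.prod_ite_eq' Finset.univ j (fun i => φ (s i))]
    simp [prodW]
  simp_rw [h2]
  have h4 := Finset.prod_univ_sum (fun _ : Fin m => (Finset.univ : Finset G))
    (fun i x => if i = j then ω x * φ x else ω x)
  rw [Fintype.piFinset_univ] at h4
  rw [← h4, Finset.prod_eq_single j]
  · simp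
  · intro i _ hi
    simp [hi, h1]
  · intro h; exact absurd (Finset.mem_univ j) h

lemma two_mul_factorial_le (n : ℕ) (hn : 2 ≤ n) : 2 * n.factorial ≤ n ^ n := by
  induction n, hn using Nat.le_induction with
  | base => decide
  | succ n hn ih =>
    calc 2 * (n + 1).factorial = (n + 1) * (2 * n.factorial) := by
          rw [Nat.factorial_succ]; ring
      _ ≤ (n + 1) * n ^ n := Nat.mul_le_mul_left _ ih
      _ ≤ (n + 1) * (n + 1) ^ n := Nat.mul_le_mul_left _ (Nat.pow_le_pow_left (by omega) n)
      _ = (n + 1) ^ (n + 1) := by rw [pow_succ]; ring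

/-- Marcinkiewicz-Zygmund type bound via exponential moments. -/
lemma moment_bound {m q : ℕ} (hm : 0 < m) (hq : 0 < q) (ω : G → ℝ) (h0 : ∀ x, 0 ≤ ω x)
    (h1 : ∑ x, ω x = 1) (X : G → ℝ) (hX : ∀ x, |X x| ≤ 1) (hmean : ∑ x, ω x * X x = 0) :
    ∑ s : Fin m → G, prodW ω s * ((∑ i, X (s i)) / m) ^ (2 * q)
      ≤ (2 * Real.exp 1 * q / m) ^ q := by
  have hm' : (0 : ℝ) < m := by exact_mod_cast hm
  have hq' : (0 : ℝ) < q := by exact_mod_cast hq
  set l : ℝ := Real.sqrt (2 * q / m) with hl
  have hl2 : l ^ 2 = 2 * q / m := Real.sq_sqrt (by positivity)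
  have hl0 : 0 < l := Real.sqrt_pos.mpr (by positivity)
  -- exponential moments
  have hexp : ∀ c : ℝ, (c = l ∨ c = -l) →
      ∑ s : Fin m → G, prodW ω s * Real.exp (c * ∑ i, X (s i)) ≤ Real.exp q := by
    intro c hc
    have hc2 : c ^ 2 = 2 * q / m := by rcases hc with rfl | rfl <;> [exact hl2; rw [neg_sq, hl2]]
    have e1 : ∀ s : Fin m → G, prodW ω s * Real.exp (c * ∑ i, X (s i))
        = prodW ω s * ∏ i, Real.exp (X (s i) * c) := by
      intro s
      rw [← Real.exp_sum, ← Finset.sum_mul, mul_comm c]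
    simp_rw [e1]
    rw [sum_prodW_mul_prod m ω (fun x => Real.exp (X x * c))]
    have e2 : ∑ x, ω x * Real.exp (X x * c) ≤ Real.exp (c ^ 2 / 2) := by
      calc ∑ x, ω x * Real.exp (X x * c)
          ≤ ∑ x, ω x * (Real.cosh c + X x * Real.sinh c) := by
            refine Finset.sum_le_sum fun x _ => ?_
            exact mul_le_mul_of_nonneg_left (Real.exp_mul_le_cosh_add_mul_sinh (hX x) c) (h0 x)
        _ = Real.cosh c * ∑ x, ω x + Real.sinh c * ∑ x, ω x * X x := by
            rw [Finset.mul_sum, Finset.mul_sum, ← Finset.sum_add_distrib]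
            refine Finset.sum_congr rfl fun x _ => ?_
            ring
        _ = Real.cosh c := by rw [h1, hmean]; ring
        _ ≤ Real.exp (c ^ 2 / 2) := Real.cosh_le_exp_half_sq c
    calc (∑ x, ω x * Real.exp (X x * c)) ^ m
        ≤ (Real.exp (c ^ 2 / 2)) ^ m := by
          refine pow_le_pow_left₀ (Finset.sum_nonneg fun x _ => ?_) e2 m
          exact mul_nonneg (h0 x) (Real.exp_pos _).le
      _ = Real.exp q := by
          rw [← Real.exp_nat_mul, hc2]; congr 1; field_simp
  have hpt : ∀ s : Fin m → G, prodW ω s * ((∑ i, X (s i)) / m) ^ (2 * q)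
      ≤ ((2 * q).factorial : ℝ) / (2 * q * m) ^ q *
        (prodW ω s * Real.exp (l * ∑ i, X (s i)) + prodW ω s * Real.exp (-l * ∑ i, X (s i))) := by
    intro s
    have hW := prodW_nonneg ω h0 s
    set S := ∑ i, X (s i) with hS
    have a1 : (|l * S|) ^ (2 * q) ≤ ((2 * q).factorial : ℝ) * Real.exp |l * S| := by
      have := Real.pow_div_factorial_le_exp (|l * S|) (abs_nonneg _) (2 * q)
      rw [div_le_iff₀ (by positivity)] at this
      linarith
    have a2 : Real.exp |l * S| ≤ Real.exp (l * S) + Real.exp (-l * S) := by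
      rcases abs_cases (l * S) with ⟨h, _⟩ | ⟨h, _⟩ <;> rw [h]
      · linarith [Real.exp_pos (-l * S)]
      · have : -(l * S) = -l * S := by ring
        rw [this]; linarith [Real.exp_pos (l * S)]
    have a3 : (S / m) ^ (2 * q) = (|l * S|) ^ (2 * q) / (2 * q * m) ^ q := by
      have : (|l * S|) ^ (2 * q) = (l * S) ^ (2 * q) := by
        rw [pow_mul, pow_mul, sq_abs]
      rw [this, mul_pow, pow_mul l, hl2, div_pow, div_pow, mul_pow (2 * (q : ℝ)) (m : ℝ) q]
      have hq2 : (2 * (q : ℝ)) ^ q ≠ 0 := by positivity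
      have hmq : (m : ℝ) ^ q ≠ 0 := by positivity
      rw [two_mul q, pow_add (m : ℝ)]
      field_simp
    rw [a3]
    have a4 : (|l * S|) ^ (2 * q)
        ≤ ((2 * q).factorial : ℝ) * (Real.exp (l * S) + Real.exp (-l * S)) :=
      a1.trans (mul_le_mul_of_nonneg_left a2 (by positivity))
    calc prodW ω s * ((|l * S|) ^ (2 * q) / (2 * q * m) ^ q)
        ≤ prodW ω s * ((((2 * q).factorial : ℝ) *
            (Real.exp (l * S) + Real.exp (-l * S))) / (2 * q * m) ^ q) := by
          gcongr
      _ = _ := by ring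
  calc ∑ s : Fin m → G, prodW ω s * ((∑ i, X (s i)) / m) ^ (2 * q)
      ≤ ∑ s : Fin m → G, ((2 * q).factorial : ℝ) / (2 * q * m) ^ q *
        (prodW ω s * Real.exp (l * ∑ i, X (s i))
          + prodW ω s * Real.exp (-l * ∑ i, X (s i))) := Finset.sum_le_sum fun s _ => hpt s
    _ = ((2 * q).factorial : ℝ) / (2 * q * m) ^ q *
        (∑ s : Fin m → G, prodW ω s * Real.exp (l * ∑ i, X (s i))
          + ∑ s : Fin m → G, prodW ω s * Real.exp (-l * ∑ i, X (s i))) := by
        rw [← Finset.mul_sum, Finset.sum_add_distrib]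
    _ ≤ ((2 * q).factorial : ℝ) / (2 * q * m) ^ q * (Real.exp q + Real.exp q) := by
        gcongr
        · exact hexp l (Or.inl rfl)
        · exact hexp (-l) (Or.inr rfl)
    _ = (2 * (2 * q).factorial : ℝ) / (2 * q * m) ^ q * Real.exp q := by ring
    _ ≤ ((2 * q : ℝ) ^ (2 * q)) / (2 * q * m) ^ q * Real.exp q := by
        have h3 : (2 * (2 * q).factorial : ℝ) ≤ (2 * q : ℝ) ^ (2 * q) := by
          exact_mod_cast two_mul_factorial_le (2 * q) (by omega)
        gcongr
    _ = (2 * Real.exp 1 * q / m) ^ q := by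
        have : Real.exp q = (Real.exp 1) ^ q := by rw [← Real.exp_nat_mul, mul_one]
        rw [this, two_mul q, pow_add, div_pow, mul_pow (2 * (q : ℝ)) (m : ℝ) q,
          show (2 * Real.exp 1 * q) = (2 * (q : ℝ)) * Real.exp 1 by ring,
          mul_pow (2 * (q : ℝ)) (Real.exp 1) q]
        have hq2 : (2 * (q : ℝ)) ^ q ≠ 0 := by positivity
        have hmq : (m : ℝ) ^ q ≠ 0 := by positivity
        field_simp

end product

section group

variable {G : Type*} [AddCommGroup G] [Fintype G]

/-- Average of translates. -/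
noncomputable def avg (T : Finset G) (u : G → ℝ) (x : G) : ℝ := (∑ t ∈ T, u (x - t)) / T.card

/-- Shannon entropy. -/
noncomputable def ent (ω : G → ℝ) : ℝ := ∑ x, Real.negMulLog (ω x)

/-- Convolution. -/
noncomputable def cnv (ω g : G → ℝ) (x : G) : ℝ := ∑ s, ω s * g (x - s)

lemma sum_sub_right (f : G → ℝ) (c : G) : ∑ j, f (j - c) = ∑ j, f j :=
  Fintype.sum_equiv (Equiv.subRight c) _ _ (fun _ => rfl)

lemma sum_add_right (f : G → ℝ) (c : G) : ∑ j, f (j + c) = ∑ j, f j :=
  Fintype.sum_equiv (Equiv.addRight c) _ _ (fun _ => rfl)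

omit [Fintype G] in
lemma avg_nonneg (T : Finset G) (u : G → ℝ) (h0 : ∀ x, 0 ≤ u x) (x : G) : 0 ≤ avg T u x :=
  div_nonneg (Finset.sum_nonneg fun _ _ => h0 _) (Nat.cast_nonneg _)

lemma sum_avg (T : Finset G) (hT : T.Nonempty) (u : G → ℝ) : ∑ x, avg T u x = ∑ x, u x := by
  have hc : (T.card : ℝ) ≠ 0 := by exact_mod_cast hT.card_pos.ne'
  unfold avg
  rw [← Finset.sum_div, Finset.sum_comm]
  simp_rw [sum_sub_right u]
  rw [Finset.sum_const, nsmul_eq_mul]
  field_simp

lemma cnv_avg (T : Finset G) (u g : G → ℝ) (x : G) :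
    cnv (avg T u) g x = avg T (cnv u g) x := by
  unfold cnv avg
  simp_rw [div_mul_eq_mul_div]
  rw [← Finset.sum_div]
  congr 1
  simp_rw [Finset.sum_mul]
  rw [Finset.sum_comm]
  refine Finset.sum_congr rfl fun t _ => ?_
  rw [← sum_sub_right (fun s => u s * g (x - t - s)) t]
  refine Finset.sum_congr rfl fun s _ => ?_
  congr 2; abel

variable [DecidableEq G]

set_option maxHeartbeats 2000000 in
/-- Entropic Croot-Sisask step. -/
theorem cs_step (ω g : G → ℝ) (h0 : ∀ x, 0 ≤ ω x) (h1 : ∑ x, ω x = 1)
    (hg0 : ∀ x, 0 ≤ g x) (hg1 : ∀ x, g x ≤ 1)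
    (Y : Finset G) (hY : ∀ x, x ∉ Y → ∀ s, ω s ≠ 0 → g (x - s) = 0)
    (S : Finset G) (hS : S.Nonempty) (m q : ℕ) (hm : 0 < m) (hq : 0 < q)
    (a η : ℝ) (ha : 0 < a) (hη : 0 < η)
    (hcond : (Y.card : ℝ) * (8 * Real.exp 1 * q / (m * η ^ 2)) ^ q ≤ a / 8) :
    ∃ T ⊆ S, T.Nonempty ∧
      7 / 8 * Real.log (S.card / T.card) ≤ m * (ent (avg S ω) - ent ω) + 1 ∧
      ∀ t ∈ T, ∀ t' ∈ T,
        ∑ x, |cnv ω g (x - t) - cnv ω g (x - t')| ^ (2 * q) ≤ a * η ^ (2 * q) := by
  classical
  have hm' : (0 : ℝ) < m := by exact_mod_cast hm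
  have hq' : (0 : ℝ) < q := by exact_mod_cast hq
  have hSc : (0 : ℝ) < S.card := by exact_mod_cast hS.card_pos
  set f := cnv ω g with hf
  -- bounds for `f`
  have hf0 : ∀ x, 0 ≤ f x := fun x => Finset.sum_nonneg fun s _ => mul_nonneg (h0 s) (hg0 _)
  have hf1 : ∀ x, f x ≤ 1 := by
    intro x
    calc f x ≤ ∑ s, ω s * 1 := Finset.sum_le_sum fun s _ =>
          mul_le_mul_of_nonneg_left (hg1 _) (h0 s)
      _ = 1 := by simp [h1]
  set F : (Fin m → G) → G → ℝ := fun s x => (∑ i, g (x - s i)) / m with hF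
  set dev : (Fin m → G) → ℝ := fun s => ∑ x, |F s x - f x| ^ (2 * q) with hdev
  set τ : ℝ := a * (η / 2) ^ (2 * q) with hτ
  have hτ0 : 0 < τ := by positivity
  -- total deviation
  have htotal : ∑ s : Fin m → G, prodW ω s * dev s ≤ Y.card * (2 * Real.exp 1 * q / m) ^ q := by
    have e1 : ∑ s : Fin m → G, prodW ω s * dev s
        = ∑ x, ∑ s : Fin m → G, prodW ω s * |F s x - f x| ^ (2 * q) := by
      rw [Finset.sum_comm]
      refine Finset.sum_congr rfl fun s _ => ?_
      rw [hdev, Finset.mul_sum]
    rw [e1]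
    have e2 : ∀ x, x ∉ Y → ∑ s : Fin m → G, prodW ω s * |F s x - f x| ^ (2 * q) = 0 := by
      intro x hx
      refine Finset.sum_eq_zero fun s _ => ?_
      by_cases hW : prodW ω s = 0
      · rw [hW, zero_mul]
      · have h3 : ∀ i, ω (s i) ≠ 0 := by
          intro i hi
          exact hW (Finset.prod_eq_zero (Finset.mem_univ i) hi)
        have h4 : F s x = 0 := by
          rw [hF]
          simp only
          rw [Finset.sum_eq_zero fun i _ => hY x hx (s i) (h3 i), zero_div]
        have h5 : f x = 0 := by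
          refine Finset.sum_eq_zero fun t _ => ?_
          by_cases ht : ω t = 0
          · rw [ht, zero_mul]
          · rw [hY x hx t ht, mul_zero]
        rw [h4, h5, sub_zero, abs_zero, zero_pow (by omega), mul_zero]
    have e3 : ∀ x, ∑ s : Fin m → G, prodW ω s * |F s x - f x| ^ (2 * q)
        ≤ (2 * Real.exp 1 * q / m) ^ q := by
      intro x
      have h3 := moment_bound hm hq ω h0 h1 (fun s => g (x - s) - f x)
        (fun s => by
          rw [abs_le]; constructor <;> linarith [hg0 (x - s), hg1 (x - s), hf0 x, hf1 x])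
        (by
          simp_rw [mul_sub]
          rw [Finset.sum_sub_distrib, ← Finset.sum_mul, h1, one_mul]
          exact sub_self _)
      refine le_trans (le_of_eq ?_) h3
      refine Finset.sum_congr rfl fun s _ => ?_
      congr 1
      rw [pow_mul, pow_mul, sq_abs]
      congr 2
      rw [Finset.sum_sub_distrib, Finset.sum_const, Finset.card_univ, Fintype.card_fin,
        nsmul_eq_mul, hF]
      field_simp
    rw [← Finset.sum_subset (Finset.subset_univ Y) (fun x _ hx => e2 x hx)]
    calc ∑ x ∈ Y, ∑ s : Fin m → G, prodW ω s * |F s x - f x| ^ (2 * q)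
        ≤ ∑ x ∈ Y, (2 * Real.exp 1 * q / m) ^ q := Finset.sum_le_sum fun x _ => e3 x
      _ = _ := by rw [Finset.sum_const, nsmul_eq_mul]
  have htotal2 : ∑ s : Fin m → G, prodW ω s * dev s ≤ τ / 8 := by
    refine htotal.trans ?_
    have h3 : (2 * Real.exp 1 * q / m) ^ q
        = (8 * Real.exp 1 * q / (m * η ^ 2)) ^ q * (η / 2) ^ (2 * q) := by
      rw [pow_mul (η / 2), ← mul_pow]
      congr 1
      field_simp
      ring
    rw [h3, ← mul_assoc, hτ]
    calc (Y.card : ℝ) * (8 * Real.exp 1 * q / (m * η ^ 2)) ^ q * (η / 2) ^ (2 * q)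
        ≤ a / 8 * (η / 2) ^ (2 * q) := by gcongr
      _ = a * (η / 2) ^ (2 * q) / 8 := by ring
  have hdev0 : ∀ s, 0 ≤ dev s := fun s => Finset.sum_nonneg fun x _ => by positivity
  -- mass of bad tuples
  have hbad : ∑ s ∈ Finset.univ.filter (fun s : Fin m → G => ¬ dev s ≤ τ), prodW ω s ≤ 1 / 8 := by
    have h3 : τ * ∑ s ∈ Finset.univ.filter (fun s : Fin m → G => ¬ dev s ≤ τ), prodW ω s
        ≤ τ / 8 := by
      rw [Finset.mul_sum]
      calc ∑ s ∈ Finset.univ.filter (fun s : Fin m → G => ¬ dev s ≤ τ), τ * prodW ω s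
          ≤ ∑ s ∈ Finset.univ.filter (fun s : Fin m → G => ¬ dev s ≤ τ), prodW ω s * dev s := by
            refine Finset.sum_le_sum fun s hs => ?_
            rw [Finset.mem_filter] at hs
            rw [mul_comm]
            exact mul_le_mul_of_nonneg_left (not_le.mp hs.2).le (prodW_nonneg ω h0 s)
        _ ≤ ∑ s : Fin m → G, prodW ω s * dev s :=
            Finset.sum_le_sum_of_subset_of_nonneg (Finset.filter_subset _ _)
              (fun s _ _ => mul_nonneg (prodW_nonneg ω h0 s) (hdev0 s))
        _ ≤ τ / 8 := htotal2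
    have : τ * ∑ s ∈ Finset.univ.filter (fun s : Fin m → G => ¬ dev s ≤ τ), prodW ω s
        ≤ τ * (1 / 8) := by rw [mul_one_div]; exact h3
    exact le_of_mul_le_mul_left this hτ0
  have hgood : 7 / 8 ≤ ∑ s ∈ Finset.univ.filter (fun s : Fin m → G => dev s ≤ τ), prodW ω s := by
    have := Finset.sum_filter_add_sum_filter_not Finset.univ (fun s : Fin m → G => dev s ≤ τ)
      (fun s => prodW ω s)
    rw [sum_prodW m ω h1] at this
    linarith
  -- the sets `T_b`
  set Tb : (Fin m → G) → Finset G := fun b => S.filter (fun t => dev (fun i => b i - t) ≤ τ)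
    with hTb
  obtain ⟨b, -, hbmax⟩ := Finset.exists_max_image (Finset.univ : Finset (Fin m → G))
    (fun b => (Tb b).card) ⟨fun _ => 0, Finset.mem_univ _⟩
  obtain ⟨s₀, hs₀⟩ : ∃ s : Fin m → G, dev s ≤ τ := by
    by_contra hno
    push Not at hno
    rw [Finset.filter_false_of_mem (fun s _ => not_le.mpr (hno s))] at hgood
    simp at hgood
    linarith
  obtain ⟨t₀, ht₀⟩ := hS
  have hTb0 : (Tb b).Nonempty := by
    have h3 := hbmax (fun i => s₀ i + t₀) (Finset.mem_univ _)
    have h4 : t₀ ∈ Tb (fun i => s₀ i + t₀) := by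
      rw [hTb]
      simp only [Finset.mem_filter, add_sub_cancel_right]
      exact ⟨ht₀, hs₀⟩
    rw [← Finset.card_pos]
    exact lt_of_lt_of_le (Finset.card_pos.mpr ⟨t₀, h4⟩) h3
  have hM : (0 : ℝ) < (Tb b).card := by exact_mod_cast hTb0.card_pos
  have hMS : ((Tb b).card : ℝ) ≤ S.card := by
    exact_mod_cast Finset.card_le_card (Finset.filter_subset _ _)
  refine ⟨Tb b, Finset.filter_subset _ _, hTb0, ?_, ?_⟩
  · -- entropy inequality
    set ω' := avg S ω with hω'
    have hω'0 : ∀ x, 0 ≤ ω' x := avg_nonneg S ω h0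
    have hω'1 : ∑ x, ω' x = 1 := by rw [hω', sum_avg S ⟨t₀, ht₀⟩ ω, h1]
    have hω'pos : ∀ x, ∀ t ∈ S, ω x ≠ 0 → 0 < ω' (x + t) := by
      intro x t ht hx
      have hx' : 0 < ω x := lt_of_le_of_ne (h0 x) (Ne.symm hx)
      rw [hω', avg]
      refine div_pos ?_ hSc
      refine Finset.sum_pos' (fun _ _ => h0 _) ⟨t, ht, ?_⟩
      rw [add_sub_cancel_right]; exact hx'
    set lam : (Fin m → G) → ℝ := fun s => if dev s ≤ τ then (S.card : ℝ) / (Tb b).card else 1
      with hlam
    have hlam0 : ∀ s, 0 < lam s := by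
      intro s; rw [hlam]; simp only; split_ifs
      · positivity
      · exact one_pos
    have hptw : ∀ t ∈ S, ∀ s : Fin m → G,
        prodW ω s * Real.log (lam s) + prodW ω s - lam s * prodW ω' (fun i => s i + t)
        ≤ ∑ i, prodW ω s * (Real.log (ω (s i)) - Real.log (ω' (s i + t))) := by
      intro t ht s
      by_cases hW : prodW ω s = 0
      · rw [hW]
        simp only [zero_mul, zero_add, Finset.sum_const_zero, zero_sub, Left.neg_nonpos_iff]
        exact mul_nonneg (hlam0 s).le (prodW_nonneg ω' hω'0 _)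
      · have h3 : ∀ i, ω (s i) ≠ 0 := by
          intro i hi
          exact hW (Finset.prod_eq_zero (Finset.mem_univ i) hi)
        have hWpos : 0 < prodW ω s := lt_of_le_of_ne (prodW_nonneg ω h0 s) (Ne.symm hW)
        have hW'pos : 0 < prodW ω' (fun i => s i + t) :=
          Finset.prod_pos fun i _ => hω'pos (s i) t ht (h3 i)
        have h4 : ∑ i, prodW ω s * (Real.log (ω (s i)) - Real.log (ω' (s i + t)))
            = prodW ω s * (Real.log (prodW ω s) - Real.log (prodW ω' (fun i => s i + t))) := by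
          rw [← Finset.mul_sum, Finset.sum_sub_distrib]
          unfold prodW
          rw [Real.log_prod (fun i _ => h3 i),
            Real.log_prod (fun i _ => (hω'pos (s i) t ht (h3 i)).ne')]
        rw [h4]
        have hl := hlam0 s
        have h5 := Real.one_sub_inv_le_log_of_pos
          (show 0 < prodW ω s / (lam s * prodW ω' (fun i => s i + t)) by positivity)
        rw [Real.log_div hWpos.ne' (by positivity), Real.log_mul hl.ne' hW'pos.ne',
          inv_div] at h5
        have h6 := mul_le_mul_of_nonneg_left h5 hWpos.le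
        have h7 : prodW ω s * (1 - lam s * prodW ω' (fun i => s i + t) / prodW ω s)
            = prodW ω s - lam s * prodW ω' (fun i => s i + t) := by
          field_simp
        rw [h7] at h6
        linarith
    -- sum of left-hand sides
    have hR : ∑ t ∈ S, ∑ s : Fin m → G, ∑ i,
          prodW ω s * (Real.log (ω (s i)) - Real.log (ω' (s i + t)))
        = S.card * (m * (ent ω' - ent ω)) := by
      have e1 : ∀ t ∈ S, ∑ s : Fin m → G, ∑ i,
          prodW ω s * (Real.log (ω (s i)) - Real.log (ω' (s i + t)))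
          = m * (- ent ω - ∑ x, ω x * Real.log (ω' (x + t))) := by
        intro t _
        rw [Finset.sum_comm]
        have e2 : ∀ i : Fin m, ∑ s : Fin m → G,
            prodW ω s * (Real.log (ω (s i)) - Real.log (ω' (s i + t)))
            = - ent ω - ∑ x, ω x * Real.log (ω' (x + t)) := by
          intro i
          rw [sum_prodW_mul_apply ω h1 (fun x => Real.log (ω x) - Real.log (ω' (x + t))) i]
          simp_rw [mul_sub]
          rw [Finset.sum_sub_distrib]
          congr 1
          unfold ent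
          rw [← Finset.sum_neg_distrib]
          refine Finset.sum_congr rfl fun x _ => ?_
          rw [Real.negMulLog]; ring
        rw [Finset.sum_congr rfl fun i _ => e2 i, Finset.sum_const, Finset.card_univ,
          Fintype.card_fin, nsmul_eq_mul]
      rw [Finset.sum_congr rfl e1, ← Finset.mul_sum, Finset.sum_sub_distrib, Finset.sum_const,
        nsmul_eq_mul]
      have e3 : ∑ t ∈ S, ∑ x, ω x * Real.log (ω' (x + t)) = - (S.card * ent ω') := by
        have e4 : ∀ t ∈ S, ∑ x, ω x * Real.log (ω' (x + t))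
            = ∑ y, ω (y - t) * Real.log (ω' y) := by
          intro t _
          rw [← sum_add_right (fun y => ω (y - t) * Real.log (ω' y)) t]
          refine Finset.sum_congr rfl fun x _ => ?_
          rw [add_sub_cancel_right]
        rw [Finset.sum_congr rfl e4, Finset.sum_comm]
        unfold ent
        rw [Finset.mul_sum, ← Finset.sum_neg_distrib]
        refine Finset.sum_congr rfl fun y _ => ?_
        rw [← Finset.sum_mul]
        have : ∑ t ∈ S, ω (y - t) = S.card * ω' y := by
          rw [hω', avg]; field_simp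
        rw [this, Real.negMulLog]; ring
      rw [e3]; ring
    -- sum of the right-hand sides
    have hL : ∑ t ∈ S, ∑ s : Fin m → G,
          (prodW ω s * Real.log (lam s) + prodW ω s - lam s * prodW ω' (fun i => s i + t))
        ≥ S.card * (7 / 8 * Real.log (S.card / (Tb b).card) - 1) := by
      have e1 : ∑ t ∈ S, ∑ s : Fin m → G, (prodW ω s * Real.log (lam s) + prodW ω s)
          ≥ S.card * (7 / 8 * Real.log (S.card / (Tb b).card) + 1) := by
        rw [Finset.sum_const, nsmul_eq_mul, Finset.sum_add_distrib, sum_prodW m ω h1]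
        refine mul_le_mul_of_nonneg_left ?_ hSc.le
        have hlog : 0 ≤ Real.log (S.card / (Tb b).card) := by
          apply Real.log_nonneg
          rw [le_div_iff₀ hM]; linarith
        have e2 : ∑ s : Fin m → G, prodW ω s * Real.log (lam s)
            = (∑ s ∈ Finset.univ.filter (fun s : Fin m → G => dev s ≤ τ), prodW ω s)
              * Real.log (S.card / (Tb b).card) := by
          rw [Finset.sum_mul, Finset.sum_filter]
          refine Finset.sum_congr rfl fun s _ => ?_
          rw [hlam]; simp only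
          split_ifs
          · rfl
          · rw [Real.log_one, mul_zero]
        rw [e2]
        have := mul_le_mul_of_nonneg_right hgood hlog
        linarith
      have e3 : ∑ t ∈ S, ∑ s : Fin m → G, lam s * prodW ω' (fun i => s i + t)
          ≤ S.card + S.card := by
        have e4 : ∀ t ∈ S, ∑ s : Fin m → G, lam s * prodW ω' (fun i => s i + t)
            = ∑ b' : Fin m → G, lam (fun i => b' i - t) * prodW ω' b' := by
          intro t _
          refine Fintype.sum_equiv (Equiv.addRight (fun _ : Fin m => t)) _ _ (fun s => ?_)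
          simp only [Equiv.coe_addRight]
          congr 1
          congr 1
          funext i
          simp
        rw [Finset.sum_congr rfl e4, Finset.sum_comm]
        have e5 : ∀ b' : Fin m → G, ∑ t ∈ S, lam (fun i => b' i - t) * prodW ω' b'
            ≤ (S.card + S.card) * prodW ω' b' := by
          intro b'
          rw [← Finset.sum_mul]
          refine mul_le_mul_of_nonneg_right ?_ (prodW_nonneg ω' hω'0 b')
          have h6 : ∀ t ∈ S, lam (fun i => b' i - t)
              ≤ (if dev (fun i => b' i - t) ≤ τ then (S.card : ℝ) / (Tb b).card else 0) + 1 := by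
            intro t _
            rw [hlam]; simp only
            split_ifs <;> linarith
          refine (Finset.sum_le_sum h6).trans ?_
          rw [Finset.sum_add_distrib, Finset.sum_const, nsmul_eq_mul, mul_one,
            ← Finset.sum_filter, Finset.sum_const, nsmul_eq_mul]
          have h7 : ((S.filter (fun t => dev (fun i => b' i - t) ≤ τ)).card : ℝ)
              ≤ (Tb b).card := by
            exact_mod_cast hbmax b' (Finset.mem_univ _)
          have h8 : ((S.filter (fun t => dev (fun i => b' i - t) ≤ τ)).card : ℝ)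
              * ((S.card : ℝ) / (Tb b).card) ≤ (Tb b).card * ((S.card : ℝ) / (Tb b).card) :=
            mul_le_mul_of_nonneg_right h7 (by positivity)
          have h9 : ((Tb b).card : ℝ) * ((S.card : ℝ) / (Tb b).card) = S.card := by
            field_simp
          linarith
        refine (Finset.sum_le_sum fun b' _ => e5 b').trans ?_
        rw [← Finset.mul_sum, sum_prodW m ω' hω'1, mul_one]
      have e6 : ∑ t ∈ S, ∑ s : Fin m → G,
          (prodW ω s * Real.log (lam s) + prodW ω s - lam s * prodW ω' (fun i => s i + t))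
          = ∑ t ∈ S, ∑ s : Fin m → G, (prodW ω s * Real.log (lam s) + prodW ω s)
            - ∑ t ∈ S, ∑ s : Fin m → G, lam s * prodW ω' (fun i => s i + t) := by
        rw [← Finset.sum_sub_distrib]
        refine Finset.sum_congr rfl fun t _ => ?_
        rw [← Finset.sum_sub_distrib]
      rw [e6]
      linarith
    have hfinal : S.card * (7 / 8 * Real.log (S.card / (Tb b).card) - 1)
        ≤ S.card * (m * (ent ω' - ent ω)) := by
      rw [← hR]
      refine le_trans hL ?_
      exact Finset.sum_le_sum fun t ht => Finset.sum_le_sum fun s _ => hptw t ht s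
    have := le_of_mul_le_mul_left hfinal hSc
    linarith
  · -- almost periodicity
    intro t ht t' ht'
    have key : ∀ t ∈ Tb b, ∑ x, |F b x - f (x - t)| ^ (2 * q) ≤ τ := by
      intro t ht
      rw [hTb] at ht
      simp only [Finset.mem_filter] at ht
      have h3 := ht.2
      rw [hdev] at h3
      simp only at h3
      rw [← sum_sub_right (fun x => |F (fun i => b i - t) x - f x| ^ (2 * q)) t] at h3
      refine le_trans (le_of_eq ?_) h3
      refine Finset.sum_congr rfl fun x _ => ?_
      have : F (fun i => b i - t) (x - t) = F b x := by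
        rw [hF]; simp only
        congr 1
        refine Finset.sum_congr rfl fun i _ => ?_
        congr 1; abel
      rw [this]
    have h3 := key t ht
    have h4 := key t' ht'
    have h5 : ∀ x, |f (x - t) - f (x - t')| ^ (2 * q)
        ≤ 2 ^ (2 * q - 1) * (|F b x - f (x - t)| ^ (2 * q) + |F b x - f (x - t')| ^ (2 * q)) := by
      intro x
      have h6 : |f (x - t) - f (x - t')| ≤ |F b x - f (x - t)| + |F b x - f (x - t')| := by
        have : f (x - t) - f (x - t') = -(F b x - f (x - t)) + (F b x - f (x - t')) := by ring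
        rw [this]
        refine (abs_add_le _ _).trans ?_
        rw [abs_neg]
      refine (pow_le_pow_left₀ (abs_nonneg _) h6 (2 * q)).trans ?_
      exact add_pow_le (abs_nonneg _) (abs_nonneg _) (2 * q)
    calc ∑ x, |f (x - t) - f (x - t')| ^ (2 * q)
        ≤ ∑ x, 2 ^ (2 * q - 1) *
          (|F b x - f (x - t)| ^ (2 * q) + |F b x - f (x - t')| ^ (2 * q)) :=
          Finset.sum_le_sum fun x _ => h5 x
      _ = 2 ^ (2 * q - 1) * (∑ x, |F b x - f (x - t)| ^ (2 * q)
            + ∑ x, |F b x - f (x - t')| ^ (2 * q)) := by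
          rw [← Finset.mul_sum, Finset.sum_add_distrib]
      _ ≤ 2 ^ (2 * q - 1) * (τ + τ) := by gcongr
      _ = a * η ^ (2 * q) := by
          rw [hτ, div_pow]
          have : (2 : ℝ) ^ (2 * q) = 2 ^ (2 * q - 1) * 2 := by
            rw [← pow_succ]; congr 1; omega
          rw [this]
          field_simp
          ring

end group

end Pool.Agent.H18
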