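import Pool.Agent.H18.Level

set_option autoImplicit false

open Finset
open scoped Pointwise

namespace Pool.Agent.H18

section digits

variable {G : Type*} [AddCommGroup G] [Fintype G]

/-- Binary digits: almost periods `2 ^ i • t` give almost periods `j • t`, `j < 2 ^ I`. -/
lemma dst_nsmul_le {q : ℕ} (hq : 0 < q) {a : ℝ} (ha : 0 ≤ a) (f : G → ℝ) (ε : ℝ) (I : ℕ) :
    ∀ t : G, (∀ i < I, dst q a f ((2 ^ i : ℕ) • t) ≤ ε) → ∀ j : ℕ, j < 2 ^ I →
      dst q a f (j • t) ≤ I * ε := by
  induction I with
  | zero =>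
    intro t _ j hj
    have : j = 0 := by simpa using hj
    subst this
    rw [zero_smul, dst_zero hq]
    simp
  | succ I ih =>
    intro t ht j hj
    have h1 := ih ((2 : ℕ) • t) (by
      intro i hi
      have := ht (i + 1) (by omega)
      rw [pow_succ, mul_smul] at this
      exact this) (j / 2) (by
        rw [pow_succ] at hj
        omega)
    have hsplit : j • t = (j / 2) • ((2 : ℕ) • t) + (j % 2) • t := by
      rw [← mul_smul, ← add_smul]
      congr 1
      omega
    rw [hsplit]
    refine (dst_add hq ha f _ _).trans ?_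
    have h2 : dst q a f ((j % 2) • t) ≤ ε := by
      have h0 := ht 0 (by omega)
      rw [pow_zero, one_smul] at h0
      rcases Nat.mod_two_eq_zero_or_one j with h | h
      · rw [h, zero_smul, dst_zero hq]
        exact (dst_nonneg ha f t).trans h0
      · rw [h, one_smul]; exact h0
    push_cast
    linarith

lemma dst_zsmul_le {q : ℕ} (hq : 0 < q) {a : ℝ} (ha : 0 ≤ a) (f : G → ℝ) (ε : ℝ) (I : ℕ)
    (t : G) (ht : ∀ i < I, dst q a f ((2 ^ i : ℕ) • t) ≤ ε) (j : ℤ) (hj : |j| < 2 ^ I) :
    dst q a f (j • t) ≤ I * ε := by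
  have h1 := dst_nsmul_le hq ha f ε I t ht j.natAbs (by
    have : ((j.natAbs : ℕ) : ℤ) < 2 ^ I := by rw [← Int.abs_eq_natAbs]; exact hj
    exact_mod_cast this)
  rcases Int.natAbs_eq j with h | h
  · rw [h, natCast_zsmul]; exact h1
  · rw [h, neg_smul, natCast_zsmul, dst_neg]; exact h1

lemma dst_sum_le {q : ℕ} (hq : 0 < q) {a : ℝ} (ha : 0 ≤ a) (f : G → ℝ) {ι : Type*}
    (s : Finset ι) (v : ι → G) : dst q a f (∑ i ∈ s, v i) ≤ ∑ i ∈ s, dst q a f (v i) := by
  classical
  induction s using Finset.induction_on with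
  | empty => simp [dst_zero hq]
  | insert i s hi ih =>
    rw [Finset.sum_insert hi, Finset.sum_insert hi]
    refine (dst_add hq ha f _ _).trans ?_
    linarith

variable [DecidableEq G]

/-- Simultaneous pigeonhole for `x, 2x, 4x, ...`. -/
lemma pigeonhole_digits (T : Finset G) (I : ℕ) :
    ∃ X : Finset G, (Fintype.card G : ℝ) * (T.card : ℝ) ^ I
        ≤ (Fintype.card G : ℝ) ^ I * X.card ∧
      ∀ x ∈ X, ∀ x' ∈ X, ∀ i < I, ∃ t ∈ T, ∃ t' ∈ T, (2 ^ i : ℕ) • (x - x') = t - t' := by
  classical
  set X : (Fin I → G) → Finset G := fun u =>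
    Finset.univ.filter (fun x => ∀ i : Fin I, (2 ^ (i : ℕ) : ℕ) • x - u i ∈ T) with hX
  have hcount : ∑ u : Fin I → G, (X u).card = Fintype.card G * T.card ^ I := by
    have h1 : ∀ u, (X u).card
        = ∑ x : G, if (∀ i : Fin I, (2 ^ (i : ℕ) : ℕ) • x - u i ∈ T) then 1 else 0 := by
      intro u
      rw [hX, Finset.card_filter]
    simp_rw [h1]
    rw [Finset.sum_comm]
    have h2 : ∀ x : G, ∑ u : Fin I → G,
        (if (∀ i : Fin I, (2 ^ (i : ℕ) : ℕ) • x - u i ∈ T) then 1 else 0) = T.card ^ I := by
      intro x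
      rw [← Finset.card_filter]
      have h3 : (Finset.univ.filter
          (fun u : Fin I → G => ∀ i : Fin I, (2 ^ (i : ℕ) : ℕ) • x - u i ∈ T))
          = Fintype.piFinset (fun i : Fin I => T.image (fun t => (2 ^ (i : ℕ) : ℕ) • x - t)) := by
        ext u
        rw [Finset.mem_filter, Fintype.mem_piFinset]
        constructor
        · rintro ⟨-, h⟩ i
          exact Finset.mem_image.mpr ⟨_, h i, sub_sub_cancel _ _⟩
        · intro h
          refine ⟨Finset.mem_univ _, fun i => ?_⟩
          obtain ⟨t, ht, hti⟩ := Finset.mem_image.mp (h i)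
          rw [← hti, sub_sub_cancel]; exact ht
      rw [h3, Fintype.card_piFinset]
      have h4 : ∀ i : Fin I, (T.image (fun t => (2 ^ (i : ℕ) : ℕ) • x - t)).card = T.card :=
        fun i => Finset.card_image_of_injective _ sub_right_injective
      simp_rw [h4]
      simp
    simp_rw [h2]
    simp
  obtain ⟨u, -, hu⟩ := Finset.exists_max_image (Finset.univ : Finset (Fin I → G))
    (fun u => (X u).card) ⟨fun _ => 0, Finset.mem_univ _⟩
  refine ⟨X u, ?_, ?_⟩
  · have h1 : Fintype.card G * T.card ^ I ≤ Fintype.card G ^ I * (X u).card := by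
      rw [← hcount]
      calc ∑ u' : Fin I → G, (X u').card ≤ ∑ _u' : Fin I → G, (X u).card :=
            Finset.sum_le_sum fun u' _ => hu u' (Finset.mem_univ _)
        _ = Fintype.card G ^ I * (X u).card := by
            rw [Finset.sum_const, Finset.card_univ, Fintype.card_fun, Fintype.card_fin,
              smul_eq_mul]
    exact_mod_cast h1
  · intro x hx x' hx' i hi
    rw [hX, Finset.mem_filter] at hx hx'
    refine ⟨_, hx.2 ⟨i, hi⟩, _, hx'.2 ⟨i, hi⟩, ?_⟩
    simp only [smul_sub]
    abel

end digits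

section proper

variable {N : ℕ} [NeZero N]

lemma card_nsmul_eq_le (n : ℕ) (hn : 0 < n) (g : ZMod N) :
    (Finset.univ.filter (fun t : ZMod N => n • t = g)).card ≤ n := by
  classical
  rcases (Finset.univ.filter (fun t : ZMod N => n • t = g)).eq_empty_or_nonempty with h | h
  · rw [h]; simp
  · obtain ⟨t0, ht0⟩ := h
    rw [Finset.mem_filter] at ht0
    have h1 := IsAddCyclic.card_nsmul_eq_zero_le (α := ZMod N) hn
    refine le_trans (Finset.card_le_card_of_injOn (fun t => t - t0) ?_ ?_) h1
    · intro t ht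
      rw [Finset.mem_coe, Finset.mem_filter] at ht
      rw [Finset.mem_coe, Finset.mem_filter]
      refine ⟨Finset.mem_univ _, ?_⟩
      rw [smul_sub, ht.2, ht0.2, sub_self]
    · intro t _ t' _ h
      exact sub_left_injective h

/-- Choosing generators of a proper generalised arithmetic progression in a large set. -/
lemma exists_proper (J : ℕ) (S : Finset (ZMod N)) (d : ℕ)
    (hS : (2 * J + 1) ^ (2 * d) < S.card ∨ d = 0) :
    ∃ t : Fin d → ZMod N, (∀ i, t i ∈ S) ∧
      ∀ j j' : Fin d → ℤ, (∀ i, |j i| ≤ J) → (∀ i, |j' i| ≤ J) →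
        ∑ i, j i • t i = ∑ i, j' i • t i → j = j' := by
  classical
  induction d with
  | zero =>
    refine ⟨fun i => 0, fun i => i.elim0, ?_⟩
    intro j j' _ _ _
    funext i; exact i.elim0
  | succ d ih =>
    have hS' : (2 * J + 1) ^ (2 * (d + 1)) < S.card := by
      rcases hS with h | h
      · exact h
      · omega
    obtain ⟨t, htS, hinj⟩ := ih (by
      left
      refine lt_of_le_of_lt ?_ hS'
      exact Nat.pow_le_pow_right (by omega) (by omega))
    set P : Finset (ZMod N) := (Fintype.piFinset (fun _ : Fin d => Finset.Icc (-(J : ℤ)) J)).image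
      (fun j => ∑ i, j i • t i) with hP
    have hPcard : P.card ≤ (2 * J + 1) ^ d := by
      refine Finset.card_image_le.trans ?_
      rw [Fintype.card_piFinset]
      simp only [Int.card_Icc, Finset.prod_const, Finset.card_univ, Fintype.card_fin]
      apply Nat.pow_le_pow_left
      omega
    have hPP : (P - P).card ≤ (2 * J + 1) ^ (2 * d) := by
      calc (P - P).card ≤ P.card * P.card := Finset.card_sub_le
        _ ≤ (2 * J + 1) ^ d * (2 * J + 1) ^ d := Nat.mul_le_mul hPcard hPcard
        _ = (2 * J + 1) ^ (2 * d) := by rw [← pow_add]; congr 1; omega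
    set bad : Finset (ZMod N) := (Finset.Icc 1 (2 * J)).biUnion (fun n =>
      (P - P).biUnion (fun g => Finset.univ.filter (fun s : ZMod N => n • s = g))) with hbad
    have hbadcard : bad.card ≤ (2 * J) * ((2 * J + 1) ^ (2 * d) * (2 * J)) := by
      refine Finset.card_biUnion_le.trans ?_
      calc ∑ n ∈ Finset.Icc 1 (2 * J), ((P - P).biUnion
            (fun g => Finset.univ.filter (fun s : ZMod N => n • s = g))).card
          ≤ ∑ n ∈ Finset.Icc 1 (2 * J), (2 * J + 1) ^ (2 * d) * (2 * J) := by
            refine Finset.sum_le_sum fun n hn => ?_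
            rw [Finset.mem_Icc] at hn
            refine Finset.card_biUnion_le.trans ?_
            calc ∑ g ∈ P - P, (Finset.univ.filter (fun s : ZMod N => n • s = g)).card
                ≤ ∑ g ∈ P - P, 2 * J :=
                  Finset.sum_le_sum fun g _ => (card_nsmul_eq_le n (by omega) g).trans hn.2
              _ = (P - P).card * (2 * J) := by rw [Finset.sum_const, smul_eq_mul]
              _ ≤ (2 * J + 1) ^ (2 * d) * (2 * J) := Nat.mul_le_mul_right _ hPP
        _ = (2 * J) * ((2 * J + 1) ^ (2 * d) * (2 * J)) := by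
            rw [Finset.sum_const, Nat.card_Icc, smul_eq_mul]; simp
    have hlt : bad.card < S.card := by
      refine lt_of_le_of_lt hbadcard (lt_of_le_of_lt ?_ hS')
      calc 2 * J * ((2 * J + 1) ^ (2 * d) * (2 * J))
          ≤ (2 * J + 1) * ((2 * J + 1) ^ (2 * d) * (2 * J + 1)) := by gcongr <;> omega
        _ = (2 * J + 1) ^ (2 * (d + 1)) := by ring
    obtain ⟨s, hsS, hsbad⟩ := Finset.exists_mem_notMem_of_card_lt_card hlt
    refine ⟨Fin.cons s t, ?_, ?_⟩
    · intro i
      refine Fin.cases ?_ (fun i => ?_) i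
      · simpa using hsS
      · simpa using htS i
    · intro j j' hj hj' hsum
      rw [Fin.sum_univ_succ, Fin.sum_univ_succ] at hsum
      simp only [Fin.cons_zero, Fin.cons_succ] at hsum
      have h0 : j 0 = j' 0 := by
        by_contra hne
        apply hsbad
        have hmem : ∀ j : Fin (d + 1) → ℤ, (∀ i, |j i| ≤ J) →
            ∑ i : Fin d, j i.succ • t i ∈ P := by
          intro j hj
          rw [hP]
          refine Finset.mem_image.mpr ⟨fun i => j i.succ, ?_, rfl⟩
          rw [Fintype.mem_piFinset]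
          intro i
          rw [Finset.mem_Icc]
          exact abs_le.mp (hj i.succ)
        have hdiff : (j 0 - j' 0) • s
            = ∑ i : Fin d, j' i.succ • t i - ∑ i : Fin d, j i.succ • t i := by
          rw [sub_smul, sub_eq_sub_iff_add_eq_add, hsum]; abel
        set n : ℕ := (j 0 - j' 0).natAbs with hn
        have hn1 : 1 ≤ n := by
          rw [hn]
          have : j 0 - j' 0 ≠ 0 := sub_ne_zero.mpr hne
          exact Nat.one_le_iff_ne_zero.mpr (Int.natAbs_ne_zero.mpr this)
        have hn2 : n ≤ 2 * J := by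
          have h1 := abs_le.mp (hj 0)
          have h2 := abs_le.mp (hj' 0)
          omega
        rw [hbad, Finset.mem_biUnion]
        refine ⟨n, Finset.mem_Icc.mpr ⟨hn1, hn2⟩, ?_⟩
        rw [Finset.mem_biUnion]
        rcases Int.natAbs_eq (j 0 - j' 0) with h | h
        · refine ⟨n • s, ?_, Finset.mem_filter.mpr ⟨Finset.mem_univ _, rfl⟩⟩
          rw [h, natCast_zsmul, ← hn] at hdiff
          rw [hdiff]
          exact Finset.sub_mem_sub (hmem j' hj') (hmem j hj)
        · refine ⟨n • s, ?_, Finset.mem_filter.mpr ⟨Finset.mem_univ _, rfl⟩⟩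
          rw [h, neg_smul, natCast_zsmul, ← hn] at hdiff
          have h3 : n • s = ∑ i : Fin d, j i.succ • t i - ∑ i : Fin d, j' i.succ • t i := by
            rw [← neg_sub (∑ i : Fin d, j' i.succ • t i), ← hdiff, neg_neg]
          rw [h3]
          exact Finset.sub_mem_sub (hmem j hj) (hmem j' hj')
      have h1 : (fun i : Fin d => j i.succ) = fun i : Fin d => j' i.succ := by
        apply hinj _ _ (fun i => hj i.succ) (fun i => hj' i.succ)
        rw [h0] at hsum
        exact add_left_cancel hsum
      funext i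
      refine Fin.cases h0 (fun i => ?_) i
      exact congrFun h1 i

end proper

end Pool.Agent.H18
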