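import Pool.Agent.H18.Norm

set_option autoImplicit false

open Finset

namespace Pool.Agent.H18

section hel

variable {T : Type*} [Fintype T]

/-- Total variation is controlled by the Hellinger distance. -/
lemma tv_le_hel (a b φ : T → ℝ) (ha : ∀ t, 0 ≤ a t) (hb : ∀ t, 0 ≤ b t) (ha1 : ∑ t, a t = 1)
    (hb1 : ∑ t, b t = 1) (h0 : ∀ t, 0 ≤ φ t) (h1 : ∀ t, φ t ≤ 1) :
    ∑ t, a t * φ t - ∑ t, b t * φ t
      ≤ Real.sqrt (∑ t, (Real.sqrt (a t) - Real.sqrt (b t)) ^ 2) := by
  set X := ∑ t, (Real.sqrt (a t) - Real.sqrt (b t)) ^ 2 with hX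
  have hX0 : 0 ≤ X := Finset.sum_nonneg fun t _ => sq_nonneg _
  have e1 : ∑ t, a t * φ t - ∑ t, b t * φ t = ∑ t, (a t - b t) * (φ t - 1 / 2) := by
    have : ∀ t, (a t - b t) * (φ t - 1 / 2)
        = (a t * φ t - b t * φ t) - (1 / 2) * (a t - b t) := fun t => by ring
    simp_rw [this]
    rw [Finset.sum_sub_distrib, Finset.sum_sub_distrib, ← Finset.mul_sum,
      Finset.sum_sub_distrib, ha1, hb1]
    ring
  have e2 : ∑ t, (a t - b t) * (φ t - 1 / 2)
      ≤ ∑ t, |Real.sqrt (a t) - Real.sqrt (b t)| * ((Real.sqrt (a t) + Real.sqrt (b t)) / 2) := by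
    refine Finset.sum_le_sum fun t _ => ?_
    have e3 : a t - b t = (Real.sqrt (a t) - Real.sqrt (b t))
        * (Real.sqrt (a t) + Real.sqrt (b t)) := by
      have h1 := Real.mul_self_sqrt (ha t)
      have h2 := Real.mul_self_sqrt (hb t)
      linear_combination -h1 + h2
    have e4 : |φ t - 1 / 2| ≤ 1 / 2 := by
      rw [abs_le]; constructor <;> linarith [h0 t, h1 t]
    refine (le_abs_self _).trans ?_
    rw [abs_mul, e3, abs_mul, abs_of_nonneg (add_nonneg (Real.sqrt_nonneg (a t))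
      (Real.sqrt_nonneg (b t)))]
    have e5 := mul_le_mul_of_nonneg_left e4
      (mul_nonneg (abs_nonneg (Real.sqrt (a t) - Real.sqrt (b t)))
      (add_nonneg (Real.sqrt_nonneg (a t)) (Real.sqrt_nonneg (b t))))
    linarith
  have e6 : ∑ t, ((Real.sqrt (a t) + Real.sqrt (b t)) / 2) ^ 2 ≤ 1 := by
    have : ∀ t, ((Real.sqrt (a t) + Real.sqrt (b t)) / 2) ^ 2 ≤ (a t + b t) / 2 := by
      intro t
      have h1 := Real.mul_self_sqrt (ha t)
      have h2 := Real.mul_self_sqrt (hb t)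
      nlinarith [sq_nonneg (Real.sqrt (a t) - Real.sqrt (b t))]
    refine (Finset.sum_le_sum fun t _ => this t).trans (le_of_eq ?_)
    rw [← Finset.sum_div, Finset.sum_add_distrib, ha1, hb1]; norm_num
  have e7 := Finset.sum_mul_sq_le_sq_mul_sq Finset.univ
    (fun t => |Real.sqrt (a t) - Real.sqrt (b t)|)
    (fun t => (Real.sqrt (a t) + Real.sqrt (b t)) / 2)
  simp only [sq_abs] at e7
  rw [← hX] at e7
  rw [e1]
  refine e2.trans ?_
  apply Real.le_sqrt_of_sq_le
  refine e7.trans ?_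
  calc X * ∑ t, ((Real.sqrt (a t) + Real.sqrt (b t)) / 2) ^ 2 ≤ X * 1 := by gcongr
    _ = X := mul_one X

end hel

section joint

variable {α β : Type*} [Fintype α] [Fintype β]

/-- First marginal. -/
def mgl (J : α × β → ℝ) (z : α) : ℝ := ∑ c, J (z, c)

/-- Second marginal. -/
def mgr (J : α × β → ℝ) (c : β) : ℝ := ∑ z, J (z, c)

/-- Shannon entropy on a finite type. -/
noncomputable def entT {T : Type*} [Fintype T] (p : T → ℝ) : ℝ := ∑ t, Real.negMulLog (p t)

/-- Mutual information. -/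
noncomputable def mi (J : α × β → ℝ) : ℝ := entT (mgl J) + entT (mgr J) - entT J

omit [Fintype α] in
lemma le_mgl (J : α × β → ℝ) (h0 : ∀ t, 0 ≤ J t) (t : α × β) : J t ≤ mgl J t.1 := by
  unfold mgl
  exact Finset.single_le_sum (f := fun c => J (t.1, c)) (fun c _ => h0 _) (Finset.mem_univ t.2)

omit [Fintype β] in
lemma le_mgr (J : α × β → ℝ) (h0 : ∀ t, 0 ≤ J t) (t : α × β) : J t ≤ mgr J t.2 := by
  unfold mgr
  exact Finset.single_le_sum (f := fun z => J (z, t.2)) (fun c _ => h0 _) (Finset.mem_univ t.1)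

lemma sum_mgl (J : α × β → ℝ) : ∑ z, mgl J z = ∑ t, J t := by
  unfold mgl; rw [Fintype.sum_prod_type]

lemma sum_mgr (J : α × β → ℝ) : ∑ z, mgr J z = ∑ t, J t := by
  unfold mgr; rw [Fintype.sum_prod_type_right]

lemma sum_mul_log_mgl (J : α × β → ℝ) :
    ∑ t, J t * Real.log (mgl J t.1) = - entT (mgl J) := by
  rw [Fintype.sum_prod_type]
  unfold entT
  rw [← Finset.sum_neg_distrib]
  refine Finset.sum_congr rfl fun z _ => ?_
  simp only
  rw [← Finset.sum_mul, Real.negMulLog]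
  unfold mgl
  ring

lemma sum_mul_log_mgr (J : α × β → ℝ) :
    ∑ t, J t * Real.log (mgr J t.2) = - entT (mgr J) := by
  rw [Fintype.sum_prod_type_right]
  unfold entT
  rw [← Finset.sum_neg_distrib]
  refine Finset.sum_congr rfl fun z _ => ?_
  simp only
  rw [← Finset.sum_mul, Real.negMulLog]
  unfold mgr
  ring

/-- The squared Hellinger distance to the product of the marginals is at most the mutual
information. -/
lemma hel_le_mi (J : α × β → ℝ) (h0 : ∀ t, 0 ≤ J t) (h1 : ∑ t, J t = 1) :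
    ∑ t : α × β, (Real.sqrt (J t) - Real.sqrt (mgl J t.1 * mgr J t.2)) ^ 2 ≤ mi J := by
  have hPR : ∑ t : α × β, mgl J t.1 * mgr J t.2 = 1 := by
    rw [Fintype.sum_prod_type]
    simp only
    simp_rw [← Finset.mul_sum]
    rw [← Finset.sum_mul, sum_mgl, sum_mgr, h1, mul_one]
  have hP0 : ∀ z, 0 ≤ mgl J z := fun z => Finset.sum_nonneg fun _ _ => h0 _
  have hR0 : ∀ z, 0 ≤ mgr J z := fun z => Finset.sum_nonneg fun _ _ => h0 _
  have hmi : mi J = ∑ t : α × β, (J t * Real.log (J t) - J t * Real.log (mgl J t.1)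
      - J t * Real.log (mgr J t.2)) := by
    rw [Finset.sum_sub_distrib, Finset.sum_sub_distrib, sum_mul_log_mgl, sum_mul_log_mgr]
    unfold mi
    have : ∑ t, J t * Real.log (J t) = - entT J := by
      unfold entT
      rw [← Finset.sum_neg_distrib]
      refine Finset.sum_congr rfl fun t _ => ?_
      rw [Real.negMulLog]; ring
    rw [this]; ring
  have hpt : ∀ t : α × β, 2 * J t - 2 * (Real.sqrt (J t) * Real.sqrt (mgl J t.1 * mgr J t.2))
      ≤ J t * Real.log (J t) - J t * Real.log (mgl J t.1) - J t * Real.log (mgr J t.2) := by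
    intro t
    rcases (h0 t).eq_or_lt with h | h
    · rw [← h]; simp
    · have hP : 0 < mgl J t.1 := h.trans_le (le_mgl J h0 t)
      have hR : 0 < mgr J t.2 := h.trans_le (le_mgr J h0 t)
      set q : ℝ := mgl J t.1 * mgr J t.2 with hq
      have hq0 : 0 < q := mul_pos hP hR
      have e1 : Real.log (mgl J t.1) + Real.log (mgr J t.2) = Real.log q := by
        rw [hq, Real.log_mul hP.ne' hR.ne']
      have e2 : Real.log (Real.sqrt q / Real.sqrt (J t))
          ≤ Real.sqrt q / Real.sqrt (J t) - 1 :=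
        Real.log_le_sub_one_of_pos (div_pos (Real.sqrt_pos.mpr hq0) (Real.sqrt_pos.mpr h))
      rw [Real.log_div (Real.sqrt_pos.mpr hq0).ne' (Real.sqrt_pos.mpr h).ne',
        Real.log_sqrt hq0.le, Real.log_sqrt h.le] at e2
      have hs : 0 < Real.sqrt (J t) := Real.sqrt_pos.mpr h
      have e3 : J t * (Real.sqrt q / Real.sqrt (J t)) = Real.sqrt (J t) * Real.sqrt q := by
        have e7 := Real.mul_self_sqrt h.le
        calc J t * (Real.sqrt q / Real.sqrt (J t))
            = (Real.sqrt (J t) * Real.sqrt (J t)) * (Real.sqrt q / Real.sqrt (J t)) := by rw [e7]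
          _ = Real.sqrt (J t) * Real.sqrt q := by field_simp
      have e4 := mul_le_mul_of_nonneg_left e2 (mul_nonneg zero_le_two h.le)
      have e5 : 2 * J t * (Real.log q / 2 - Real.log (J t) / 2)
          = J t * Real.log q - J t * Real.log (J t) := by ring
      have e6 : 2 * J t * (Real.sqrt q / Real.sqrt (J t) - 1)
          = 2 * (Real.sqrt (J t) * Real.sqrt q) - 2 * J t := by
        rw [← e3]; ring
      rw [e5, e6, ← e1] at e4
      linarith
  have hexp : ∀ t : α × β, (Real.sqrt (J t) - Real.sqrt (mgl J t.1 * mgr J t.2)) ^ 2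
      = (2 * J t - 2 * (Real.sqrt (J t) * Real.sqrt (mgl J t.1 * mgr J t.2)))
        + (mgl J t.1 * mgr J t.2 - J t) := by
    intro t
    have e1 := Real.mul_self_sqrt (h0 t)
    have e2 := Real.mul_self_sqrt (mul_nonneg (hP0 t.1) (hR0 t.2))
    linear_combination e1 + e2
  simp_rw [hexp]
  rw [Finset.sum_add_distrib, Finset.sum_sub_distrib (f := fun t : α × β => mgl J t.1 * mgr J t.2),
    hPR, h1, sub_self, add_zero, hmi]
  exact Finset.sum_le_sum fun t _ => hpt t

lemma mi_nonneg (J : α × β → ℝ) (h0 : ∀ t, 0 ≤ J t) (h1 : ∑ t, J t = 1) : 0 ≤ mi J :=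
  (Finset.sum_nonneg fun _ _ => sq_nonneg _).trans (hel_le_mi J h0 h1)

/-- Pinsker type inequality. -/
lemma pinsker (J : α × β → ℝ) (h0 : ∀ t, 0 ≤ J t) (h1 : ∑ t, J t = 1) (φ : α × β → ℝ)
    (hφ0 : ∀ t, 0 ≤ φ t) (hφ1 : ∀ t, φ t ≤ 1) :
    ∑ t, J t * φ t - ∑ t : α × β, mgl J t.1 * mgr J t.2 * φ t ≤ Real.sqrt (mi J) := by
  have hPR : ∑ t : α × β, mgl J t.1 * mgr J t.2 = 1 := by
    rw [Fintype.sum_prod_type]
    simp only
    simp_rw [← Finset.mul_sum]
    rw [← Finset.sum_mul, sum_mgl, sum_mgr, h1, mul_one]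
  have hP0 : ∀ z, 0 ≤ mgl J z := fun z => Finset.sum_nonneg fun _ _ => h0 _
  have hR0 : ∀ z, 0 ≤ mgr J z := fun z => Finset.sum_nonneg fun _ _ => h0 _
  refine (tv_le_hel J (fun t => mgl J t.1 * mgr J t.2) φ h0
    (fun t => mul_nonneg (hP0 _) (hR0 _)) h1 hPR hφ0 hφ1).trans ?_
  exact Real.sqrt_le_sqrt (hel_le_mi J h0 h1)

/-- Chain rule for entropy. -/
lemma chain_rule (J : α × β → ℝ) (h0 : ∀ t, 0 ≤ J t) :
    entT J = entT (mgr J) + ∑ c, mgr J c * entT (fun z => J (z, c) / mgr J c) := by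
  unfold entT
  rw [Fintype.sum_prod_type_right, ← Finset.sum_add_distrib]
  refine Finset.sum_congr rfl fun c _ => ?_
  rcases eq_or_ne (mgr J c) 0 with h | h
  · have hz : ∀ z, J (z, c) = 0 := by
      intro z
      have := le_mgr J h0 (z, c)
      simp only at this
      rw [h] at this
      exact le_antisymm this (h0 _)
    simp [h, hz]
  · have e1 : ∀ z, Real.negMulLog (J (z, c))
        = J (z, c) / mgr J c * Real.negMulLog (mgr J c)
          + mgr J c * Real.negMulLog (J (z, c) / mgr J c) := by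
      intro z
      rw [← Real.negMulLog_mul]
      congr 1
      field_simp
    simp_rw [e1]
    rw [Finset.sum_add_distrib, ← Finset.sum_mul, ← Finset.sum_div, ← Finset.mul_sum]
    have : (∑ z, J (z, c)) = mgr J c := rfl
    rw [this, div_self h, one_mul]

end joint

end Pool.Agent.H18
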