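import Pool.Agent.H18.CrootSisask

set_option autoImplicit false

open Finset
open scoped Pointwise

namespace Pool.Agent.H18

variable {G : Type*} [AddCommGroup G] [Fintype G]

/-- Normalised `L^{2q}` norm. -/
noncomputable def nrm (q : ℕ) (a : ℝ) (u : G → ℝ) : ℝ :=
  ((∑ x, |u x| ^ (2 * q)) / a) ^ (((2 * q : ℕ) : ℝ)⁻¹)

section nrm

variable {q : ℕ} {a : ℝ}

omit [AddCommGroup G] in
lemma nrm_nonneg (ha : 0 ≤ a) (u : G → ℝ) : 0 ≤ nrm q a u :=
  Real.rpow_nonneg (div_nonneg (Finset.sum_nonneg fun _ _ => by positivity) ha) _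

omit [AddCommGroup G] in
lemma nrm_zero (hq : 0 < q) : nrm q a (fun _ : G => (0 : ℝ)) = 0 := by
  unfold nrm
  have h : ∑ x : G, |(0 : ℝ)| ^ (2 * q) = 0 := by
    refine Finset.sum_eq_zero fun x _ => ?_
    rw [abs_zero, zero_pow (by omega)]
  rw [h, zero_div, Real.zero_rpow]
  have : (0 : ℝ) < ((2 * q : ℕ) : ℝ) := by exact_mod_cast (by omega : 0 < 2 * q)
  exact (inv_pos.mpr this).ne'

omit [AddCommGroup G] in
lemma nrm_add (hq : 0 < q) (ha : 0 ≤ a) (u v : G → ℝ) :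
    nrm q a (fun x => u x + v x) ≤ nrm q a u + nrm q a v := by
  unfold nrm
  have h0 : ∀ w : G → ℝ, 0 ≤ ∑ x, |w x| ^ (2 * q) :=
    fun w => Finset.sum_nonneg fun _ _ => by positivity
  rw [Real.div_rpow (h0 _) ha, Real.div_rpow (h0 _) ha, Real.div_rpow (h0 _) ha, ← add_div]
  apply div_le_div_of_nonneg_right _ (Real.rpow_nonneg ha _)
  have h1 : (1 : ℝ) ≤ ((2 * q : ℕ) : ℝ) := by exact_mod_cast (by omega : 1 ≤ 2 * q)
  have h2 := Real.Lp_add_le (Finset.univ : Finset G) u v h1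
  simp only [Real.rpow_natCast, one_div] at h2
  exact h2

omit [AddCommGroup G] in
lemma nrm_smul (hq : 0 < q) (ha : 0 ≤ a) (c : ℝ) (hc : 0 ≤ c) (u : G → ℝ) :
    nrm q a (fun x => c * u x) = c * nrm q a u := by
  unfold nrm
  have h0 : ∀ w : G → ℝ, 0 ≤ ∑ x, |w x| ^ (2 * q) :=
    fun w => Finset.sum_nonneg fun _ _ => by positivity
  have h1 : (∑ x, |c * u x| ^ (2 * q)) / a = c ^ (2 * q) * ((∑ x, |u x| ^ (2 * q)) / a) := by
    rw [← mul_div_assoc, Finset.mul_sum]
    congr 1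
    refine Finset.sum_congr rfl fun x _ => ?_
    rw [abs_mul, abs_of_nonneg hc, mul_pow]
  rw [h1, Real.mul_rpow (by positivity) (div_nonneg (h0 _) ha)]
  congr 1
  exact Real.pow_rpow_inv_natCast hc (by omega)

omit [AddCommGroup G] in
lemma nrm_neg (u : G → ℝ) : nrm q a (fun x => - u x) = nrm q a u := by
  unfold nrm
  simp only [abs_neg]

lemma nrm_shift (u : G → ℝ) (c : G) : nrm q a (fun x => u (x - c)) = nrm q a u := by
  unfold nrm
  rw [sum_sub_right (fun x => |u x| ^ (2 * q)) c]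

omit [AddCommGroup G] in
lemma nrm_wsum {ι : Type*} (hq : 0 < q) (ha : 0 ≤ a) (s : Finset ι) (w : ι → ℝ)
    (hw : ∀ i ∈ s, 0 ≤ w i) (u : ι → G → ℝ) :
    nrm q a (fun x => ∑ i ∈ s, w i * u i x) ≤ ∑ i ∈ s, w i * nrm q a (u i) := by
  classical
  induction s using Finset.induction_on with
  | empty => simp [nrm_zero hq]
  | insert i s hi ih =>
    simp_rw [Finset.sum_insert hi]
    refine (nrm_add hq ha _ _).trans ?_
    rw [nrm_smul hq ha (w i) (hw i (Finset.mem_insert_self _ _)) (u i)]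
    have := ih fun j hj => hw j (Finset.mem_insert_of_mem hj)
    linarith

omit [AddCommGroup G] in
lemma nrm_wsum_le {ι : Type*} (hq : 0 < q) (ha : 0 ≤ a) (s : Finset ι) (w : ι → ℝ)
    (hw : ∀ i ∈ s, 0 ≤ w i) (hw1 : ∑ i ∈ s, w i = 1) (u : ι → G → ℝ) (M : ℝ)
    (hM : ∀ i ∈ s, w i ≠ 0 → nrm q a (u i) ≤ M) :
    nrm q a (fun x => ∑ i ∈ s, w i * u i x) ≤ M := by
  refine (nrm_wsum hq ha s w hw u).trans ?_
  calc ∑ i ∈ s, w i * nrm q a (u i) ≤ ∑ i ∈ s, w i * M := by
        refine Finset.sum_le_sum fun i hi => ?_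
        by_cases h : w i = 0
        · rw [h, zero_mul, zero_mul]
        · exact mul_le_mul_of_nonneg_left (hM i hi h) (hw i hi)
    _ = M := by rw [← Finset.sum_mul, hw1, one_mul]

omit [AddCommGroup G] in
lemma nrm_le_of_sum_le (hq : 0 < q) (ha : 0 < a) (u : G → ℝ) (η : ℝ) (hη : 0 ≤ η)
    (h : ∑ x, |u x| ^ (2 * q) ≤ a * η ^ (2 * q)) : nrm q a u ≤ η := by
  unfold nrm
  have h1 : (∑ x, |u x| ^ (2 * q)) / a ≤ η ^ (2 * q) := by
    rw [div_le_iff₀ ha]; linarith
  have h2 := Real.rpow_le_rpow (div_nonneg (Finset.sum_nonneg fun _ _ => by positivity) ha.le) h1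
    (inv_nonneg.mpr (Nat.cast_nonneg (2 * q) : (0 : ℝ) ≤ ((2 * q : ℕ) : ℝ)))
  rw [Real.pow_rpow_inv_natCast hη (by omega)] at h2
  exact h2

omit [AddCommGroup G] in
lemma one_le_nrm (A : Finset G) (hA : A.Nonempty) (u : G → ℝ)
    (h : ∀ x ∈ A, |u x| = 1) : 1 ≤ nrm q (A.card : ℝ) u := by
  unfold nrm
  have hc : (0 : ℝ) < A.card := by exact_mod_cast hA.card_pos
  apply Real.one_le_rpow
  · rw [le_div_iff₀ hc, one_mul]
    calc (A.card : ℝ) = ∑ x ∈ A, |u x| ^ (2 * q) := by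
          rw [Finset.sum_congr rfl fun x hx => by rw [h x hx, one_pow]]
          simp
      _ ≤ ∑ x, |u x| ^ (2 * q) :=
          Finset.sum_le_sum_of_subset_of_nonneg (Finset.subset_univ _) fun _ _ _ => by positivity
  · positivity

lemma mean_le_nrm (hq : 0 < q) (A : Finset G) (hA : A.Nonempty) (u : G → ℝ) (x : G) :
    |∑ b ∈ A, (A.card : ℝ)⁻¹ * u (x + b)| ≤ nrm q (A.card : ℝ) u := by
  have hc : (0 : ℝ) < A.card := by exact_mod_cast hA.card_pos
  have h1 : |∑ b ∈ A, (A.card : ℝ)⁻¹ * u (x + b)| ≤ ∑ b ∈ A, (A.card : ℝ)⁻¹ * |u (x + b)| := by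
    refine (Finset.abs_sum_le_sum_abs _ _).trans (le_of_eq ?_)
    refine Finset.sum_congr rfl fun b _ => ?_
    rw [abs_mul, abs_of_pos (inv_pos.mpr hc)]
  refine h1.trans ?_
  have h2 := Real.pow_arith_mean_le_arith_mean_pow A (fun _ => (A.card : ℝ)⁻¹)
    (fun b => |u (x + b)|) (fun _ _ => (inv_pos.mpr hc).le)
    (by rw [Finset.sum_const, nsmul_eq_mul]; field_simp) (fun _ _ => abs_nonneg _) (2 * q)
  have h3 : ∑ b ∈ A, (A.card : ℝ)⁻¹ * |u (x + b)| ^ (2 * q)
      ≤ (∑ y, |u y| ^ (2 * q)) / A.card := by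
    rw [← Finset.mul_sum, div_eq_inv_mul]
    refine mul_le_mul_of_nonneg_left ?_ (inv_pos.mpr hc).le
    rw [← sum_add_right (fun y => |u y| ^ (2 * q)) x]
    simp_rw [add_comm x]
    exact Finset.sum_le_sum_of_subset_of_nonneg (Finset.subset_univ _) fun _ _ _ => by positivity
  have h0 : 0 ≤ ∑ b ∈ A, (A.card : ℝ)⁻¹ * |u (x + b)| :=
    Finset.sum_nonneg fun b _ => mul_nonneg (inv_pos.mpr hc).le (abs_nonneg _)
  unfold nrm
  have h4 := Real.rpow_le_rpow (pow_nonneg h0 _) (h2.trans h3)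
    (inv_nonneg.mpr (Nat.cast_nonneg (2 * q) : (0 : ℝ) ≤ ((2 * q : ℕ) : ℝ)))
  rw [Real.pow_rpow_inv_natCast h0 (by omega)] at h4
  exact h4

end nrm

section unif

variable [DecidableEq G]

/-- The uniform probability on a finite set. -/
noncomputable def unif (T : Finset G) (x : G) : ℝ := if x ∈ T then (T.card : ℝ)⁻¹ else 0

omit [AddCommGroup G] [Fintype G] in
lemma unif_nonneg (T : Finset G) (x : G) : 0 ≤ unif T x := by
  unfold unif; split_ifs <;> positivity

omit [AddCommGroup G] in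
lemma sum_unif_mul (T : Finset G) (φ : G → ℝ) :
    ∑ x, unif T x * φ x = ∑ x ∈ T, (T.card : ℝ)⁻¹ * φ x := by
  unfold unif
  rw [← Finset.sum_filter_add_sum_filter_not Finset.univ (fun x => x ∈ T)]
  rw [Finset.sum_eq_zero (s := Finset.univ.filter (fun x => ¬ x ∈ T)), add_zero]
  · rw [Finset.filter_mem_eq_inter, Finset.univ_inter]
    refine Finset.sum_congr rfl fun x hx => ?_
    rw [if_pos hx]
  · intro x hx
    rw [Finset.mem_filter] at hx
    rw [if_neg hx.2, zero_mul]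

omit [AddCommGroup G] in
lemma sum_unif (T : Finset G) (hT : T.Nonempty) : ∑ x, unif T x = 1 := by
  have h := sum_unif_mul T (fun _ => 1)
  simp only [mul_one] at h
  rw [h, Finset.sum_const, nsmul_eq_mul]
  have hc : (T.card : ℝ) ≠ 0 := by exact_mod_cast hT.card_pos.ne'
  field_simp

lemma avg_eq_cnv (T : Finset G) (u : G → ℝ) (x : G) : avg T u x = cnv (unif T) u x := by
  unfold avg cnv
  rw [sum_unif_mul T (fun s => u (x - s)), Finset.sum_div]
  refine Finset.sum_congr rfl fun t _ => ?_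
  rw [div_eq_inv_mul]

omit [DecidableEq G] in
lemma cnv_assoc (ν μ g : G → ℝ) (x : G) : cnv (cnv ν μ) g x = cnv ν (cnv μ g) x := by
  unfold cnv
  simp_rw [Finset.sum_mul, Finset.mul_sum]
  rw [Finset.sum_comm]
  refine Finset.sum_congr rfl fun r _ => ?_
  rw [← sum_sub_right (fun s => ν r * (μ s * g (x - r - s))) r]
  refine Finset.sum_congr rfl fun s _ => ?_
  rw [mul_assoc]
  congr 3; abel

omit [DecidableEq G] in
lemma cnv_nonneg (ν μ : G → ℝ) (h0 : ∀ x, 0 ≤ ν x) (h0' : ∀ x, 0 ≤ μ x) (x : G) :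
    0 ≤ cnv ν μ x := Finset.sum_nonneg fun s _ => mul_nonneg (h0 s) (h0' _)

omit [DecidableEq G] in
lemma cnv_le_one (ν μ : G → ℝ) (h0 : ∀ x, 0 ≤ ν x) (h1 : ∑ x, ν x = 1) (h1' : ∀ x, μ x ≤ 1)
    (x : G) : cnv ν μ x ≤ 1 := by
  unfold cnv
  calc ∑ s, ν s * μ (x - s) ≤ ∑ s, ν s * 1 :=
        Finset.sum_le_sum fun s _ => mul_le_mul_of_nonneg_left (h1' _) (h0 s)
    _ = 1 := by simp [h1]

omit [DecidableEq G] in
lemma sum_cnv (ν μ : G → ℝ) : ∑ x, cnv ν μ x = (∑ x, ν x) * ∑ x, μ x := by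
  unfold cnv
  rw [Finset.sum_comm, Finset.sum_mul]
  refine Finset.sum_congr rfl fun s _ => ?_
  rw [← Finset.mul_sum, sum_sub_right μ s]

omit [DecidableEq G] in
/-- Jensen: convolution with a probability increases entropy. -/
lemma ent_le_ent_cnv (ν μ : G → ℝ) (h0 : ∀ x, 0 ≤ ν x) (h1 : ∑ x, ν x = 1)
    (h0' : ∀ x, 0 ≤ μ x) : ent μ ≤ ent (cnv ν μ) := by
  have h2 : ∀ x, ∑ s, ν s * Real.negMulLog (μ (x - s)) ≤ Real.negMulLog (cnv ν μ x) := by
    intro x
    have h3 := Real.concaveOn_negMulLog.le_map_sum (t := Finset.univ) (w := ν)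
      (p := fun s => μ (x - s)) (fun s _ => h0 s) h1 (fun s _ => h0' _)
    simpa [smul_eq_mul, cnv] using h3
  unfold ent
  calc ∑ x, Real.negMulLog (μ x) = ∑ s, ν s * ∑ x, Real.negMulLog (μ x) := by
        rw [← Finset.sum_mul, h1, one_mul]
    _ = ∑ s, ∑ x, ν s * Real.negMulLog (μ (x - s)) := by
        refine Finset.sum_congr rfl fun s _ => ?_
        rw [← Finset.mul_sum, sum_sub_right (fun x => Real.negMulLog (μ x)) s]
    _ = ∑ x, ∑ s, ν s * Real.negMulLog (μ (x - s)) := Finset.sum_comm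
    _ ≤ ∑ x, Real.negMulLog (cnv ν μ x) := Finset.sum_le_sum fun x _ => h2 x

lemma ent_le_ent_avg (T : Finset G) (hT : T.Nonempty) (μ : G → ℝ)
    (h0' : ∀ x, 0 ≤ μ x) : ent μ ≤ ent (avg T μ) := by
  have : avg T μ = cnv (unif T) μ := funext fun x => avg_eq_cnv T μ x
  rw [this]
  exact ent_le_ent_cnv _ _ (unif_nonneg T) (sum_unif T hT) h0'

omit [AddCommGroup G] [DecidableEq G] in
lemma ent_le_log_card (ω : G → ℝ) (h0 : ∀ x, 0 ≤ ω x) (h1 : ∑ x, ω x = 1) (Z : Finset G)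
    (hZ : ∀ x, ω x ≠ 0 → x ∈ Z) : ∑ x, Real.negMulLog (ω x) ≤ Real.log Z.card := by
  have hsum : ∑ x ∈ Z, ω x = 1 := by
    rw [← h1]
    refine Finset.sum_subset (Finset.subset_univ _) fun x _ hx => ?_
    by_contra h; exact hx (hZ x h)
  have hZne : Z.Nonempty := by
    rw [Finset.nonempty_iff_ne_empty]; rintro rfl; simp at hsum
  have hc : (0 : ℝ) < Z.card := by exact_mod_cast hZne.card_pos
  have h2 : ∑ x, Real.negMulLog (ω x) = ∑ x ∈ Z, Real.negMulLog (ω x) := by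
    symm
    refine Finset.sum_subset (Finset.subset_univ _) fun x _ hx => ?_
    have : ω x = 0 := by by_contra h; exact hx (hZ x h)
    rw [this, Real.negMulLog_zero]
  rw [h2]
  have h3 := Real.concaveOn_negMulLog.le_map_sum (t := Z) (w := fun _ => (Z.card : ℝ)⁻¹)
      (p := ω) (fun s _ => (inv_pos.mpr hc).le)
      (by rw [Finset.sum_const, nsmul_eq_mul]; field_simp) (fun s _ => h0 _)
  simp only [smul_eq_mul] at h3
  rw [← Finset.mul_sum, ← Finset.mul_sum, hsum, mul_one] at h3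
  have h4 : Real.negMulLog ((Z.card : ℝ)⁻¹) = (Z.card : ℝ)⁻¹ * Real.log Z.card := by
    rw [Real.negMulLog, Real.log_inv]; ring
  rw [h4] at h3
  exact le_of_mul_le_mul_left h3 (inv_pos.mpr hc)

omit [AddCommGroup G] in
lemma ent_unif (T : Finset G) (hT : T.Nonempty) :
    ∑ x, Real.negMulLog (unif T x) = Real.log T.card := by
  have hc : (0 : ℝ) < T.card := by exact_mod_cast hT.card_pos
  have h1 : ∀ x, Real.negMulLog (unif T x) = unif T x * Real.log T.card := by
    intro x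
    unfold unif
    split_ifs
    · rw [Real.negMulLog, Real.log_inv]; ring
    · rw [Real.negMulLog_zero, zero_mul]
  simp_rw [h1]
  rw [← Finset.sum_mul, sum_unif T hT, one_mul]

end unif

section dist

variable {q : ℕ} {a : ℝ}

/-- `L^{2q}` distance between a function and its translate. -/
noncomputable def dst (q : ℕ) (a : ℝ) (f : G → ℝ) (w : G) : ℝ :=
  nrm q a (fun x => f (x - w) - f x)

lemma dst_nonneg (ha : 0 ≤ a) (f : G → ℝ) (w : G) : 0 ≤ dst q a f w := nrm_nonneg ha _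

lemma dst_zero (hq : 0 < q) (f : G → ℝ) : dst q a f 0 = 0 := by
  unfold dst
  simp only [sub_zero, sub_self]
  exact nrm_zero hq

lemma dst_add (hq : 0 < q) (ha : 0 ≤ a) (f : G → ℝ) (w w' : G) :
    dst q a f (w + w') ≤ dst q a f w + dst q a f w' := by
  unfold dst
  have h1 : (fun x => f (x - (w + w')) - f x)
      = fun x => (fun x => (fun y => f (y - w) - f y) (x - w')) x + (f (x - w') - f x) := by
    funext x
    have : x - (w + w') = x - w' - w := by abel
    simp only [this]; ring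
  rw [h1]
  refine (nrm_add hq ha _ _).trans ?_
  rw [nrm_shift (fun y => f (y - w) - f y) w']

lemma dst_neg (f : G → ℝ) (w : G) : dst q a f (-w) = dst q a f w := by
  unfold dst
  rw [← nrm_neg (fun x => f (x - w) - f x),
    ← nrm_shift (q := q) (a := a) (fun x => - (f (x - w) - f x)) (-w)]
  congr 1
  funext x
  simp only [sub_neg_eq_add, add_sub_cancel_right, neg_sub]

lemma dst_cnv_le (hq : 0 < q) (ha : 0 ≤ a) (ν f : G → ℝ) (h0 : ∀ x, 0 ≤ ν x)
    (h1 : ∑ x, ν x = 1) (w : G) : dst q a (cnv ν f) w ≤ dst q a f w := by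
  unfold dst
  have h2 : (fun x => cnv ν f (x - w) - cnv ν f x)
      = fun x => ∑ s, ν s * (fun s x => f (x - s - w) - f (x - s)) s x := by
    funext x
    unfold cnv
    rw [← Finset.sum_sub_distrib]
    refine Finset.sum_congr rfl fun s _ => ?_
    have : x - w - s = x - s - w := by abel
    rw [this]; ring
  rw [h2]
  refine nrm_wsum_le hq ha _ _ (fun s _ => h0 s) h1 _ _ fun s _ _ => ?_
  rw [nrm_shift (fun y => f (y - w) - f y) s]

lemma nrm_cnv_sub_le (hq : 0 < q) (ha : 0 ≤ a) (ν f : G → ℝ) (h0 : ∀ x, 0 ≤ ν x)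
    (h1 : ∑ x, ν x = 1) (M : ℝ) (hM : ∀ w, ν w ≠ 0 → dst q a f w ≤ M) :
    nrm q a (fun x => cnv ν f x - f x) ≤ M := by
  have h2 : (fun x => cnv ν f x - f x)
      = fun x => ∑ s, ν s * (fun s x => f (x - s) - f x) s x := by
    funext x
    unfold cnv
    have : f x = ∑ s, ν s * f x := by rw [← Finset.sum_mul, h1, one_mul]
    conv_lhs => rw [this]
    rw [← Finset.sum_sub_distrib]
    refine Finset.sum_congr rfl fun s _ => ?_
    ring
  rw [h2]
  exact nrm_wsum_le hq ha _ _ (fun s _ => h0 s) h1 _ _ fun s _ hs => hM s hs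

omit [AddCommGroup G] in
lemma nrm_sub_comm (u v : G → ℝ) :
    nrm q a (fun x => u x - v x) = nrm q a (fun x => v x - u x) := by
  rw [← nrm_neg]
  congr 1
  funext x
  ring

omit [AddCommGroup G] in
lemma nrm_sub_triangle (hq : 0 < q) (ha : 0 ≤ a) (u v w : G → ℝ) :
    nrm q a (fun x => u x - w x) ≤ nrm q a (fun x => u x - v x) + nrm q a (fun x => v x - w x) := by
  have h1 : (fun x => u x - w x) = fun x => (u x - v x) + (v x - w x) := by
    funext x; ring
  rw [h1]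
  exact nrm_add hq ha _ _

/-- Changing the function changes the distances by at most twice the norm. -/
lemma dst_le_dst_add (hq : 0 < q) (ha : 0 ≤ a) (f f' : G → ℝ) (w : G) :
    dst q a f w ≤ dst q a f' w + 2 * nrm q a (fun x => f' x - f x) := by
  unfold dst
  have h1 := nrm_sub_triangle hq ha (fun x => f (x - w)) (fun x => f' (x - w)) f
  have h2 := nrm_sub_triangle hq ha (fun x => f' (x - w)) f' f
  have h3 : nrm q a (fun x => f (x - w) - f' (x - w)) = nrm q a (fun x => f' x - f x) := by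
    rw [nrm_sub_comm (fun x => f (x - w)) (fun x => f' (x - w))]
    exact nrm_shift (fun x => f' x - f x) w
  rw [h3] at h1
  linarith

end dist

end Pool.Agent.H18
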