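import Pool.Agent.H18.Info
import Pool.Agent.H18.Level

set_option autoImplicit false

open Finset

namespace Pool.Agent.H18

section vari

variable {G : Type*} [AddCommGroup G] [Fintype G]

/-- Reflection of a function. -/
def rv (p : G → ℝ) (x : G) : ℝ := p (-x)

/-- `p` is a probability distribution. -/
def IsPr (p : G → ℝ) : Prop := (∀ x, 0 ≤ p x) ∧ ∑ x, p x = 1

lemma sum_neg_arg (f : G → ℝ) : ∑ x, f (-x) = ∑ x, f x :=
  Fintype.sum_equiv (Equiv.neg G) _ _ (fun _ => rfl)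

lemma IsPr.rv {p : G → ℝ} (h : IsPr p) : IsPr (rv p) :=
  ⟨fun _ => h.1 _, by rw [← h.2, ← sum_neg_arg p]; rfl⟩

lemma IsPr.cnv {p q : G → ℝ} (h : IsPr p) (h' : IsPr q) : IsPr (cnv p q) :=
  ⟨cnv_nonneg _ _ h.1 h'.1, by rw [sum_cnv, h.2, h'.2, one_mul]⟩

omit [AddCommGroup G] in
lemma entT_eq_ent (p : G → ℝ) : entT p = ent p := rfl

/-- Joint law of `(x - s, w + s)`. -/
def jnt (σ π ω : G → ℝ) (t : G × G) : ℝ := ∑ s, σ s * (π (t.1 + s) * ω (t.2 - s))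

lemma cnv_rv (σ π : G → ℝ) (z : G) : cnv (rv σ) π z = ∑ s, σ s * π (z + s) := by
  unfold cnv rv
  rw [← sum_neg_arg]
  simp

lemma mgl_jnt (σ π ω : G → ℝ) (hω : ∑ x, ω x = 1) : mgl (jnt σ π ω) = cnv (rv σ) π := by
  funext z
  rw [cnv_rv]
  unfold mgl jnt
  simp only
  rw [Finset.sum_comm]
  refine Finset.sum_congr rfl fun s _ => ?_
  rw [← Finset.mul_sum, ← Finset.mul_sum, sum_sub_right ω s, hω, mul_one]

lemma mgr_jnt (σ π ω : G → ℝ) (hπ : ∑ x, π x = 1) : mgr (jnt σ π ω) = cnv σ ω := by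
  funext c
  unfold mgr jnt cnv
  simp only
  rw [Finset.sum_comm]
  refine Finset.sum_congr rfl fun s _ => ?_
  rw [← Finset.mul_sum, ← Finset.sum_mul, sum_add_right π s, hπ, one_mul]

lemma jnt_nonneg (σ π ω : G → ℝ) (hσ : ∀ x, 0 ≤ σ x) (hπ : ∀ x, 0 ≤ π x) (hω : ∀ x, 0 ≤ ω x)
    (t : G × G) : 0 ≤ jnt σ π ω t :=
  Finset.sum_nonneg fun s _ => mul_nonneg (hσ s) (mul_nonneg (hπ _) (hω _))

lemma sum_jnt_mul (σ π ω : G → ℝ) (hσ : ∑ x, σ x = 1) (φ : G → ℝ) :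
    ∑ t, jnt σ π ω t * φ (t.1 + t.2) = ∑ x, ∑ w, π x * ω w * φ (x + w) := by
  unfold jnt
  simp_rw [Finset.sum_mul]
  rw [Finset.sum_comm]
  have h1 : ∀ s, ∑ t : G × G, σ s * (π (t.1 + s) * ω (t.2 - s)) * φ (t.1 + t.2)
      = σ s * ∑ x, ∑ w, π x * ω w * φ (x + w) := by
    intro s
    rw [Fintype.sum_prod_type, Finset.mul_sum]
    simp only
    rw [← sum_add_right (fun x => σ s * ∑ w, π x * ω w * φ (x + w)) s]
    refine Finset.sum_congr rfl fun x _ => ?_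
    rw [Finset.mul_sum, ← sum_sub_right (fun w => σ s * (π (x + s) * ω w * φ (x + s + w))) s]
    refine Finset.sum_congr rfl fun w _ => ?_
    have : x + s + (w - s) = x + w := by abel
    rw [this]; ring
  simp_rw [h1]
  rw [← Finset.sum_mul, hσ, one_mul]

lemma sum_jnt (σ π ω : G → ℝ) (hσ : IsPr σ) (hπ : IsPr π) (hω : IsPr ω) :
    ∑ t, jnt σ π ω t = 1 := by
  have h := sum_jnt_mul σ π ω hσ.2 (fun _ => 1)
  simp only [mul_one] at h
  rw [h]
  simp_rw [← Finset.mul_sum, hω.2, mul_one]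
  exact hπ.2

/-- Expectation of `φ (x + w)` for independent `x, w`. -/
def Qf (φ π ω : G → ℝ) : ℝ := ∑ x, ∑ w, π x * ω w * φ (x + w)

/-- Adding noise to both sides changes expectations by little if the mutual information of the
coupled pair is small. -/
lemma Qf_noise (σ π ω : G → ℝ) (hσ : IsPr σ) (hπ : IsPr π) (hω : IsPr ω) (φ : G → ℝ)
    (h0 : ∀ x, 0 ≤ φ x) (h1 : ∀ x, φ x ≤ 1) :
    Qf φ π ω - Real.sqrt (mi (jnt σ π ω)) ≤ Qf φ (cnv (rv σ) π) (cnv σ ω) := by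
  have h := pinsker (jnt σ π ω) (jnt_nonneg σ π ω hσ.1 hπ.1 hω.1) (sum_jnt σ π ω hσ hπ hω)
    (fun t => φ (t.1 + t.2)) (fun _ => h0 _) (fun _ => h1 _)
  rw [sum_jnt_mul σ π ω hσ.2, mgl_jnt σ π ω hω.2, mgr_jnt σ π ω hπ.2, Fintype.sum_prod_type] at h
  unfold Qf
  linarith

/-- Symmetrised smoothing. -/
noncomputable def smo (σ u : G → ℝ) : G → ℝ := cnv σ (cnv (rv σ) u)

lemma Qf_smo (σ u π ω : G → ℝ) :
    Qf (smo σ u) π ω = Qf u (cnv (rv σ) π) (cnv σ ω) := by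
  unfold Qf
  have h1 : ∀ x w, cnv (rv σ) π x * cnv σ ω w * u (x + w)
      = ∑ s, ∑ s', σ s * σ s' * (π (x + s) * ω (w - s') * u (x + w)) := by
    intro x w
    rw [cnv_rv, cnv, Finset.sum_mul_sum, Finset.sum_mul]
    refine Finset.sum_congr rfl fun s _ => ?_
    rw [Finset.sum_mul]
    refine Finset.sum_congr rfl fun s' _ => ?_
    ring
  have h2 : ∀ x w, π x * ω w * smo σ u (x + w)
      = ∑ s, ∑ s', σ s * σ s' * (π x * ω w * u (x + w - s + s')) := by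
    intro x w
    unfold smo
    rw [cnv, Finset.mul_sum]
    simp_rw [cnv_rv, Finset.mul_sum]
    refine Finset.sum_congr rfl fun s _ => Finset.sum_congr rfl fun s' _ => ?_
    ring
  simp_rw [h1, h2]
  have e1 : ∑ x, ∑ w, ∑ s, ∑ s', σ s * σ s' * (π x * ω w * u (x + w - s + s'))
      = ∑ s, ∑ s', σ s * σ s' * ∑ x, ∑ w, π x * ω w * u (x + w - s + s') := by
    simp_rw [Finset.mul_sum]
    rw [Finset.sum_congr rfl (fun x _ => Finset.sum_comm)]
    rw [Finset.sum_comm]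
    refine Finset.sum_congr rfl fun s _ => ?_
    rw [Finset.sum_congr rfl (fun x _ => Finset.sum_comm)]
    rw [Finset.sum_comm]
  have e2 : ∑ x, ∑ w, ∑ s, ∑ s', σ s * σ s' * (π (x + s) * ω (w - s') * u (x + w))
      = ∑ s, ∑ s', σ s * σ s' * ∑ x, ∑ w, π (x + s) * ω (w - s') * u (x + w) := by
    simp_rw [Finset.mul_sum]
    rw [Finset.sum_congr rfl (fun x _ => Finset.sum_comm)]
    rw [Finset.sum_comm]
    refine Finset.sum_congr rfl fun s _ => ?_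
    rw [Finset.sum_congr rfl (fun x _ => Finset.sum_comm)]
    rw [Finset.sum_comm]
  rw [e1, e2]
  refine Finset.sum_congr rfl fun s _ => Finset.sum_congr rfl fun s' _ => ?_
  congr 1
  rw [← sum_add_right (fun x => ∑ w, π x * ω w * u (x + w - s + s')) s]
  refine Finset.sum_congr rfl fun x _ => ?_
  rw [← sum_sub_right (fun w => π (x + s) * ω w * u (x + s + w - s + s')) s']
  refine Finset.sum_congr rfl fun w _ => ?_
  have : x + s + (w - s') - s + s' = x + w := by abel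
  rw [this]

lemma smo_mem (σ u : G → ℝ) (hσ : IsPr σ) (h0 : ∀ x, 0 ≤ u x) (h1 : ∀ x, u x ≤ 1) (x : G) :
    0 ≤ smo σ u x ∧ smo σ u x ≤ 1 :=
  ⟨cnv_nonneg _ _ hσ.1 (cnv_nonneg _ _ hσ.rv.1 h0) x,
    cnv_le_one _ _ hσ.1 hσ.2 (cnv_le_one _ _ hσ.rv.1 hσ.rv.2 h1) x⟩

/-- Iterated smoothing. -/
lemma Qf_iter (σ π ω : G → ℝ) (hσ : IsPr σ) (hπ : IsPr π) (hω : IsPr ω) (φ : G → ℝ)
    (h0 : ∀ x, 0 ≤ φ x) (h1 : ∀ x, φ x ≤ 1) (n : ℕ) :
    (∀ x, 0 ≤ (smo σ)^[n] φ x ∧ (smo σ)^[n] φ x ≤ 1) ∧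
      Qf φ π ω - n * Real.sqrt (mi (jnt σ π ω)) ≤ Qf ((smo σ)^[n] φ) π ω := by
  induction n with
  | zero => exact ⟨fun x => ⟨h0 x, h1 x⟩, by simp⟩
  | succ n ih =>
    obtain ⟨ih1, ih2⟩ := ih
    rw [Function.iterate_succ_apply']
    refine ⟨fun x => smo_mem σ _ hσ (fun y => (ih1 y).1) (fun y => (ih1 y).2) x, ?_⟩
    rw [Qf_smo]
    have h3 := Qf_noise σ π ω hσ hπ hω _ (fun y => (ih1 y).1) (fun y => (ih1 y).2)
    push_cast
    linarith

/-! ### The variational principle for the noise -/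

/-- Joint law of `(s, w + s)`. -/
def jn2 (σ ω : G → ℝ) (t : G × G) : ℝ := σ t.1 * ω (t.2 - t.1)

lemma mgr_jn2 (σ ω : G → ℝ) : mgr (jn2 σ ω) = cnv σ ω := rfl

lemma entT_jn2 (σ ω : G → ℝ) (hσ : ∑ x, σ x = 1) (hω : ∑ x, ω x = 1) :
    entT (jn2 σ ω) = entT σ + entT ω := by
  unfold entT jn2
  rw [Fintype.sum_prod_type]
  simp only
  simp_rw [Real.negMulLog_mul]
  have h1 : ∀ s, ∑ c, (ω (c - s) * Real.negMulLog (σ s) + σ s * Real.negMulLog (ω (c - s)))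
      = Real.negMulLog (σ s) + σ s * ∑ w, Real.negMulLog (ω w) := by
    intro s
    rw [Finset.sum_add_distrib, ← Finset.sum_mul, ← Finset.mul_sum, sum_sub_right ω s, hω,
      one_mul, sum_sub_right (fun w => Real.negMulLog (ω w)) s]
  simp_rw [h1]
  rw [Finset.sum_add_distrib, ← Finset.sum_mul, hσ, one_mul]

/-- The functional minimised by the noise. -/
noncomputable def Phi (π : G → ℝ) (θ : ℝ) (τ : G → ℝ) : ℝ :=
  entT (cnv (rv τ) π) - θ * entT τ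

lemma mi_le_of_min (σ π ω : G → ℝ) (hσ : IsPr σ) (hπ : IsPr π) (hω : IsPr ω) (θ : ℝ)
    (hmin : ∀ τ, IsPr τ → Phi π θ σ ≤ Phi π θ τ) :
    mi (jnt σ π ω) ≤ θ * (entT (cnv σ ω) - entT ω) := by
  have hR : mgr (jnt σ π ω) = cnv σ ω := mgr_jnt σ π ω hπ.2
  have hP : mgl (jnt σ π ω) = cnv (rv σ) π := mgl_jnt σ π ω hω.2
  have hR1 : ∑ c, cnv σ ω c = 1 := (hσ.cnv hω).2
  have hR0 := (hσ.cnv hω).1
  have key : ∀ c, cnv σ ω c * Phi π θ σ ≤ cnv σ ω c *
      (entT (fun z => jnt σ π ω (z, c) / cnv σ ω c)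
        - θ * entT (fun s => jn2 σ ω (s, c) / cnv σ ω c)) := by
    intro c
    rcases (hR0 c).eq_or_lt with h | h
    · rw [← h, zero_mul, zero_mul]
    · refine mul_le_mul_of_nonneg_left ?_ h.le
      have hτ : IsPr (fun s => jn2 σ ω (s, c) / cnv σ ω c) := by
        refine ⟨fun s => div_nonneg (mul_nonneg (hσ.1 _) (hω.1 _)) h.le, ?_⟩
        rw [← Finset.sum_div]
        exact div_self h.ne'
      refine (hmin _ hτ).trans (le_of_eq ?_)
      unfold Phi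
      congr 2
      funext z
      rw [cnv_rv]
      unfold jnt jn2
      simp only
      rw [Finset.sum_div]
      refine Finset.sum_congr rfl fun s _ => ?_
      ring
  have hsum := Finset.sum_le_sum (fun c (_ : c ∈ Finset.univ) => key c)
  rw [← Finset.sum_mul, hR1, one_mul] at hsum
  have c1 := chain_rule (jnt σ π ω) (jnt_nonneg σ π ω hσ.1 hπ.1 hω.1)
  have c2 := chain_rule (jn2 σ ω) (fun t => mul_nonneg (hσ.1 _) (hω.1 _))
  rw [hR] at c1
  rw [mgr_jn2, entT_jn2 σ ω hσ.2 hω.2] at c2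
  have hsplit : ∑ c, cnv σ ω c * (entT (fun z => jnt σ π ω (z, c) / cnv σ ω c)
        - θ * entT (fun s => jn2 σ ω (s, c) / cnv σ ω c))
      = ∑ c, cnv σ ω c * entT (fun z => jnt σ π ω (z, c) / cnv σ ω c)
        - θ * ∑ c, cnv σ ω c * entT (fun s => jn2 σ ω (s, c) / cnv σ ω c) := by
    rw [Finset.mul_sum, ← Finset.sum_sub_distrib]
    refine Finset.sum_congr rfl fun c _ => ?_
    ring
  rw [hsplit] at hsum
  unfold mi
  rw [hP, hR]
  unfold Phi at hsum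
  have e1 : ∑ c, cnv σ ω c * entT (fun z => jnt σ π ω (z, c) / cnv σ ω c)
      = entT (jnt σ π ω) - entT (cnv σ ω) := by linarith
  have e2 : ∑ c, cnv σ ω c * entT (fun s => jn2 σ ω (s, c) / cnv σ ω c)
      = entT σ + entT ω - entT (cnv σ ω) := by linarith
  rw [e1, e2] at hsum
  linarith

lemma continuous_entT {T : Type*} [Fintype T] : Continuous (entT : (T → ℝ) → ℝ) := by
  unfold entT
  fun_prop

lemma continuous_cnv_left (π : G → ℝ) : Continuous (fun τ : G → ℝ => cnv τ π) := by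
  unfold cnv
  fun_prop

omit [Fintype G] in
lemma continuous_rv : Continuous (rv : (G → ℝ) → (G → ℝ)) := by
  unfold rv
  fun_prop

lemma exists_min (π : G → ℝ) (θ : ℝ) :
    ∃ σ, IsPr σ ∧ ∀ τ, IsPr τ → Phi π θ σ ≤ Phi π θ τ := by
  have hc : IsCompact (stdSimplex ℝ G) := isCompact_stdSimplex ℝ G
  have hne : (stdSimplex ℝ G).Nonempty := by
    classical
    exact ⟨Pi.single 0 1, single_mem_stdSimplex ℝ 0⟩
  have hcont : Continuous (Phi π θ) := by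
    unfold Phi
    have h1 : Continuous (fun τ : G → ℝ => entT (cnv (rv τ) π)) :=
      continuous_entT.comp ((continuous_cnv_left π).comp continuous_rv)
    exact h1.sub (continuous_const.mul continuous_entT)
  obtain ⟨σ, hσ, hmin⟩ := hc.exists_isMinOn hne hcont.continuousOn
  exact ⟨σ, hσ, fun τ hτ => hmin hτ⟩

/-! ### The variational principle for the state -/

lemma continuous_Qf (φ : G → ℝ) : Continuous (fun p : (G → ℝ) × (G → ℝ) => Qf φ p.1 p.2) := by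
  unfold Qf
  fun_prop

/-- Optimal smoothing of a pair of distributions. -/
lemma exists_state (a b φ : G → ℝ) (Λ : ℝ) (ha : IsPr a) (hb : IsPr b) (hΛ : 0 ≤ Λ)
    (h0 : ∀ x, 0 ≤ φ x) (h1 : ∀ x, φ x ≤ 1) :
    ∃ ν₁ ν₂ : G → ℝ, IsPr ν₁ ∧ IsPr ν₂ ∧
      entT a + entT b + Λ * Qf φ a b
        ≤ entT (cnv ν₁ a) + entT (cnv ν₂ b) + Λ * Qf φ (cnv ν₁ a) (cnv ν₂ b) ∧
      ∀ σ, IsPr σ →
        (entT (cnv (rv σ) (cnv ν₁ a)) - entT (cnv ν₁ a))
          + (entT (cnv σ (cnv ν₂ b)) - entT (cnv ν₂ b))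
          ≤ Λ * Real.sqrt (mi (jnt σ (cnv ν₁ a) (cnv ν₂ b))) := by
  classical
  have hc : IsCompact (stdSimplex ℝ G ×ˢ stdSimplex ℝ G) :=
    (isCompact_stdSimplex ℝ G).prod (isCompact_stdSimplex ℝ G)
  have hδ : IsPr (unif ({0} : Finset G)) :=
    ⟨unif_nonneg _, sum_unif _ (Finset.singleton_nonempty 0)⟩
  have hne : (stdSimplex ℝ G ×ˢ stdSimplex ℝ G).Nonempty := ⟨(_, _), hδ, hδ⟩
  have hcont : Continuous (fun p : (G → ℝ) × (G → ℝ) => entT (cnv p.1 a) + entT (cnv p.2 b)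
      + Λ * Qf φ (cnv p.1 a) (cnv p.2 b)) := by
    have e1 : Continuous (fun p : (G → ℝ) × (G → ℝ) => cnv p.1 a) :=
      (continuous_cnv_left a).comp continuous_fst
    have e2 : Continuous (fun p : (G → ℝ) × (G → ℝ) => cnv p.2 b) :=
      (continuous_cnv_left b).comp continuous_snd
    exact ((continuous_entT.comp e1).add (continuous_entT.comp e2)).add
      (continuous_const.mul ((continuous_Qf φ).comp (e1.prodMk e2)))
  obtain ⟨⟨ν₁, ν₂⟩, ⟨hν1, hν2⟩, hmax⟩ := hc.exists_isMaxOn hne hcont.continuousOn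
  simp only at hν1 hν2
  have hmax' : ∀ τ₁ τ₂, IsPr τ₁ → IsPr τ₂ →
      entT (cnv τ₁ a) + entT (cnv τ₂ b) + Λ * Qf φ (cnv τ₁ a) (cnv τ₂ b)
      ≤ entT (cnv ν₁ a) + entT (cnv ν₂ b) + Λ * Qf φ (cnv ν₁ a) (cnv ν₂ b) := by
    intro τ₁ τ₂ h1 h2
    have h3 := isMaxOn_iff.mp hmax (τ₁, τ₂) (Set.mk_mem_prod h1 h2)
    exact h3
  refine ⟨ν₁, ν₂, hν1, hν2, ?_, ?_⟩
  · have h := hmax' _ _ hδ hδ
    rwa [cnv_unif_zero, cnv_unif_zero] at h
  · intro σ hσ
    have h := hmax' (cnv (rv σ) ν₁) (cnv σ ν₂) (hσ.rv.cnv hν1) (hσ.cnv hν2)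
    have e1 : cnv (cnv (rv σ) ν₁) a = cnv (rv σ) (cnv ν₁ a) := funext fun x => cnv_assoc _ _ _ x
    have e2 : cnv (cnv σ ν₂) b = cnv σ (cnv ν₂ b) := funext fun x => cnv_assoc _ _ _ x
    rw [e1, e2] at h
    have h2 := Qf_noise σ (cnv ν₁ a) (cnv ν₂ b) hσ (IsPr.cnv hν1 ha) (IsPr.cnv hν2 hb) φ h0 h1
    have h3 := mul_le_mul_of_nonneg_left h2 hΛ
    linarith

/-- Bounds for the minimising noise at an optimal state. -/
lemma min_bounds (σ π ω : G → ℝ) (hσ : IsPr σ) (hπ : IsPr π) (hω : IsPr ω) (θ Λ : ℝ)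
    (hθ : 0 ≤ θ) (hΛ : 0 ≤ Λ)
    (hmin : ∀ τ, IsPr τ → Phi π θ σ ≤ Phi π θ τ)
    (hst : (entT (cnv (rv σ) π) - entT π) + (entT (cnv σ ω) - entT ω)
      ≤ Λ * Real.sqrt (mi (jnt σ π ω))) :
    Real.sqrt (mi (jnt σ π ω)) ≤ θ * Λ ∧ entT (cnv (rv σ) π) - entT π ≤ θ * Λ ^ 2 := by
  have hκ : 0 ≤ entT (cnv (rv σ) π) - entT π :=
    sub_nonneg.mpr (ent_le_ent_cnv _ _ hσ.rv.1 hσ.rv.2 hπ.1)
  have hh : 0 ≤ entT (cnv σ ω) - entT ω :=
    sub_nonneg.mpr (ent_le_ent_cnv _ _ hσ.1 hσ.2 hω.1)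
  have hmi := mi_le_of_min σ π ω hσ hπ hω θ hmin
  have hmi0 := mi_nonneg (jnt σ π ω) (jnt_nonneg σ π ω hσ.1 hπ.1 hω.1) (sum_jnt σ π ω hσ hπ hω)
  set r := Real.sqrt (mi (jnt σ π ω)) with hr
  have hr0 : 0 ≤ r := Real.sqrt_nonneg _
  have hr2 : r * r = mi (jnt σ π ω) := Real.mul_self_sqrt hmi0
  have h1 : r * r ≤ (θ * Λ) * r := by
    rw [hr2]
    refine hmi.trans ?_
    have : θ * (entT (cnv σ ω) - entT ω) ≤ θ * (Λ * r) :=
      mul_le_mul_of_nonneg_left (by linarith) hθ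
    linarith
  have h2 : r ≤ θ * Λ := by
    rcases hr0.eq_or_lt with h | h
    · rw [← h]; positivity
    · exact le_of_mul_le_mul_right h1 h
  refine ⟨h2, ?_⟩
  have h3 : Λ * r ≤ Λ * (θ * Λ) := mul_le_mul_of_nonneg_left h2 hΛ
  have h4 : θ * Λ ^ 2 = Λ * (θ * Λ) := by ring
  rw [h4]
  linarith

/-- Noise of small information at all dyadic scales. -/
lemma exists_noise (π ω : G → ℝ) (hπ : IsPr π) (hω : IsPr ω) (Λ L : ℝ) (hΛ : 0 < Λ)
    (hL : Real.log (Fintype.card G) - entT π ≤ L)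
    (hst : ∀ σ, IsPr σ → (entT (cnv (rv σ) π) - entT π) + (entT (cnv σ ω) - entT ω)
      ≤ Λ * Real.sqrt (mi (jnt σ π ω))) (i : ℕ) :
    ∃ σ, IsPr σ ∧ Real.sqrt (mi (jnt σ π ω)) ≤ (1 / 2) ^ i ∧
      entT (cnv (rv σ) π) - entT π ≤ Λ * (1 / 2) ^ i ∧
      Real.log (Fintype.card G) - entT σ ≤ L * Λ + 2 * i * Λ ^ 2 := by
  classical
  induction i with
  | zero =>
    obtain ⟨σ, hσ, hmin⟩ := exists_min π (1 / Λ)
    obtain ⟨h1, h2⟩ := min_bounds σ π ω hσ hπ hω (1 / Λ) Λ (by positivity) hΛ.le hmin (hst σ hσ)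
    refine ⟨σ, hσ, ?_, ?_, ?_⟩
    · refine h1.trans (le_of_eq ?_)
      rw [pow_zero]; field_simp
    · refine h2.trans (le_of_eq ?_)
      rw [pow_zero]; field_simp
    · have hu : IsPr (unif (Finset.univ : Finset G)) :=
        ⟨unif_nonneg _, sum_unif _ Finset.univ_nonempty⟩
      have h3 := hmin _ hu
      unfold Phi at h3
      have h4 : entT (unif (Finset.univ : Finset G)) = Real.log (Fintype.card G) := by
        have := ent_unif (Finset.univ : Finset G) Finset.univ_nonempty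
        rw [Finset.card_univ] at this
        exact this
      have h5 : entT (cnv (rv (unif (Finset.univ : Finset G))) π)
          ≤ Real.log (Fintype.card G) := by
        have hp := hu.rv.cnv hπ
        have := ent_le_log_card _ hp.1 hp.2 Finset.univ (fun x _ => Finset.mem_univ x)
        rw [Finset.card_univ] at this
        exact this
      have h6 : entT π ≤ entT (cnv (rv σ) π) := ent_le_ent_cnv _ _ hσ.rv.1 hσ.rv.2 hπ.1
      rw [h4] at h3
      have h7 : 1 / Λ * (Real.log (Fintype.card G) - entT σ) ≤ L := by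
        have : 1 / Λ * (Real.log (Fintype.card G) - entT σ)
          = 1 / Λ * Real.log (Fintype.card G) - 1 / Λ * entT σ := by ring
        linarith
      rw [div_mul_eq_mul_div, one_mul, div_le_iff₀ hΛ] at h7
      simpa using h7
  | succ i ih =>
    obtain ⟨σ₀, hσ₀, hm0, hk0, hd0⟩ := ih
    set θ : ℝ := 1 / Λ * (1 / 2) ^ (i + 1) with hθ
    have hθ0 : 0 < θ := by positivity
    obtain ⟨σ, hσ, hmin⟩ := exists_min π θ
    obtain ⟨h1, h2⟩ := min_bounds σ π ω hσ hπ hω θ Λ hθ0.le hΛ.le hmin (hst σ hσ)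
    refine ⟨σ, hσ, ?_, ?_, ?_⟩
    · refine h1.trans (le_of_eq ?_)
      rw [hθ]; field_simp
    · refine h2.trans (le_of_eq ?_)
      rw [hθ]; field_simp
    · have h3 := hmin _ hσ₀
      unfold Phi at h3
      have h6 : entT π ≤ entT (cnv (rv σ) π) := ent_le_ent_cnv _ _ hσ.rv.1 hσ.rv.2 hπ.1
      have h7 : θ * (entT σ₀ - entT σ) ≤ Λ * (1 / 2) ^ i := by
        have : θ * (entT σ₀ - entT σ) = θ * entT σ₀ - θ * entT σ := by ring
        linarith
      have h8 : θ * (2 * Λ ^ 2) = Λ * (1 / 2) ^ i := by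
        rw [hθ, pow_succ]; field_simp
      rw [← h8] at h7
      have h9 : entT σ₀ - entT σ ≤ 2 * Λ ^ 2 := le_of_mul_le_mul_left h7 hθ0
      push_cast
      linarith

end vari

end Pool.Agent.H18
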