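import Pool.Agent.H18.Bohr
import Pool.Agent.H18.Vari

set_option autoImplicit false

open Finset ComplexConjugate
open scoped Pointwise

namespace Pool.Agent.H18

variable {N : ℕ} [NeZero N]

/-- Chang's theorem for a probability distribution, with entropy. -/
theorem chang_measure (σ : ZMod N → ℝ) (hσ : IsPr σ) (Λ : Finset (ZMod N))
    (hΛ : AddDissociated (Λ : Set (ZMod N)))
    (hspec : ∀ γ ∈ Λ, 1 / 2 ≤ ‖wft σ γ‖) :
    (Λ.card : ℝ) ≤ 8 * (Real.log N - entT σ) := by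
  classical
  have hN : (0 : ℝ) < N := by exact_mod_cast Nat.pos_of_ne_zero (NeZero.ne N)
  -- the unimodular multipliers
  set c : ZMod N → ℂ := fun γ => conj (wft σ γ) / ‖wft σ γ‖ with hc
  have hcn : ∀ γ, ‖c γ‖ ≤ 1 := by
    intro γ
    rw [hc]
    simp only [norm_div, RCLike.norm_conj, Complex.norm_real, norm_norm]
    exact div_self_le_one _
  set y : ZMod N → ZMod N → ℝ := fun γ t => (conj (c γ) * ee (γ * t)).re with hy
  have hy1 : ∀ γ t, |y γ t| ≤ 1 := by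
    intro γ t
    refine (Complex.abs_re_le_norm _).trans ?_
    rw [norm_mul, RCLike.norm_conj, norm_ee, mul_one]
    exact hcn γ
  have hysum : ∀ γ ∈ Λ, ∑ t, σ t * y γ t = ‖wft σ γ‖ := by
    intro γ hγ
    have h1 : ∀ t, σ t * y γ t = (c γ * ((σ t : ℂ) * ee (-(γ * t)))).re := by
      intro t
      rw [hy]
      simp only
      rw [ee_neg, ← Complex.re_ofReal_mul, ← Complex.conj_re]
      congr 1
      simp only [map_mul, Complex.conj_conj, Complex.conj_ofReal]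
      ring
    simp_rw [h1]
    rw [← Complex.re_sum, ← Finset.mul_sum]
    have h2 : c γ * ∑ t, (σ t : ℂ) * ee (-(γ * t)) = (‖wft σ γ‖ : ℂ) := by
      have h3 : (0 : ℝ) < ‖wft σ γ‖ := lt_of_lt_of_le (by norm_num) (hspec γ hγ)
      have h4 : (‖wft σ γ‖ : ℂ) ≠ 0 := by exact_mod_cast h3.ne'
      rw [hc]
      simp only
      rw [show ∑ t, (σ t : ℂ) * ee (-(γ * t)) = wft σ γ from rfl, div_mul_eq_mul_div,
        div_eq_iff h4, mul_comm, Complex.mul_conj']
      ring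
    rw [h2, Complex.ofReal_re]
  have hriesz := riesz Λ hΛ (fun γ => conj (c γ) / 2)
  have h1 : ∀ γ x, (conj (c γ) / 2 * ee (γ * x)).re = y γ x / 2 := by
    intro γ x
    rw [hy]
    simp only
    have : conj (c γ) / 2 * ee (γ * x) = ((1 / 2 : ℝ) : ℂ) * (conj (c γ) * ee (γ * x)) := by
      push_cast; ring
    rw [this, Complex.re_ofReal_mul]; ring
  simp_rw [h1] at hriesz
  have hpos : ∀ γ x, 0 < 1 + y γ x / 2 := by
    intro γ x
    have := abs_le.mp (hy1 γ x)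
    linarith
  set p : ZMod N → ℝ := fun x => ∏ γ ∈ Λ, (1 + y γ x / 2) with hp
  have hp0 : ∀ x, 0 < p x := fun x => Finset.prod_pos fun γ _ => hpos γ x
  -- upper bound
  have hupper : ∑ t, σ t * Real.log (p t) ≤ Real.log N - entT σ := by
    have h2 : ∀ t, σ t * Real.log (p t) + Real.negMulLog (σ t)
        ≤ σ t * Real.log N + (p t / N - σ t) := by
      intro t
      rcases (hσ.1 t).eq_or_lt with h | h
      · rw [← h]
        simp only [zero_mul, Real.negMulLog_zero, add_zero, zero_add, sub_zero]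
        exact (div_pos (hp0 t) hN).le
      · have h3 := Real.log_le_sub_one_of_pos (div_pos (hp0 t) (mul_pos hN h))
        rw [Real.log_div (hp0 t).ne' (mul_pos hN h).ne', Real.log_mul hN.ne' h.ne'] at h3
        have h4 := mul_le_mul_of_nonneg_left h3 h.le
        have h5 : σ t * (p t / (N * σ t) - 1) = p t / N - σ t := by field_simp
        rw [h5] at h4
        rw [Real.negMulLog]
        linarith
    have h3 := Finset.sum_le_sum (fun t (_ : t ∈ Finset.univ) => h2 t)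
    rw [Finset.sum_add_distrib, Finset.sum_add_distrib, ← Finset.sum_mul, hσ.2, one_mul,
      Finset.sum_sub_distrib, ← Finset.sum_div, hriesz, hσ.2, div_self hN.ne', sub_self,
      add_zero] at h3
    unfold entT
    linarith
  -- lower bound
  have hlower : (Λ.card : ℝ) * (1 / 8) ≤ ∑ t, σ t * Real.log (p t) := by
    have h2 : ∀ t, σ t * ∑ γ ∈ Λ, (1 / 2 * Real.log (3 / 4) + y γ t / 2 * Real.log 3)
        ≤ σ t * Real.log (p t) := by
      intro t
      refine mul_le_mul_of_nonneg_left ?_ (hσ.1 t)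
      rw [hp]
      simp only
      rw [Real.log_prod (fun γ _ => (hpos γ t).ne')]
      exact Finset.sum_le_sum fun γ _ => chord_log _ (hy1 γ t)
    refine le_trans ?_ (Finset.sum_le_sum fun t _ => h2 t)
    simp_rw [Finset.mul_sum]
    rw [Finset.sum_comm]
    have h3 : ∀ γ ∈ Λ, (1 : ℝ) / 8
        ≤ ∑ t, σ t * (1 / 2 * Real.log (3 / 4) + y γ t / 2 * Real.log 3) := by
      intro γ hγ
      have h5 : ∀ t, σ t * (1 / 2 * Real.log (3 / 4) + y γ t / 2 * Real.log 3)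
          = σ t * (1 / 2 * Real.log (3 / 4)) + (σ t * y γ t) * (Real.log 3 / 2) := by
        intro t; ring
      simp_rw [h5]
      rw [Finset.sum_add_distrib, ← Finset.sum_mul, hσ.2, ← Finset.sum_mul, hysum γ hγ]
      have h4 := hspec γ hγ
      have h6 : 0 < Real.log 3 := Real.log_pos (by norm_num)
      have h7 : (1 : ℝ) / 2 * (Real.log 3 / 2) ≤ ‖wft σ γ‖ * (Real.log 3 / 2) := by gcongr
      have h8 := const_log
      linarith
    calc (Λ.card : ℝ) * (1 / 8) = ∑ γ ∈ Λ, (1 : ℝ) / 8 := by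
          rw [Finset.sum_const, nsmul_eq_mul]
      _ ≤ _ := Finset.sum_le_sum h3
  linarith

lemma wft_cnv (ν u : ZMod N → ℝ) (γ : ZMod N) : wft (cnv ν u) γ = wft ν γ * wft u γ := by
  unfold wft cnv
  push_cast
  rw [Finset.sum_mul_sum]
  simp_rw [Finset.sum_mul]
  rw [Finset.sum_comm]
  refine Finset.sum_congr rfl fun s _ => ?_
  have h : ∑ x : ZMod N, (ν s : ℂ) * (u (x - s) : ℂ) * ee (-(γ * x))
      = ∑ x : ZMod N, (ν s : ℂ) * (u x : ℂ) * ee (-(γ * (x + s))) := by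
    refine Fintype.sum_equiv (Equiv.subRight s) _ _ fun x => ?_
    simp
  rw [h]
  refine Finset.sum_congr rfl fun x _ => ?_
  have : -(γ * (x + s)) = -(γ * s) + -(γ * x) := by ring
  rw [this, ee_add]; ring

lemma wft_rv (p : ZMod N → ℝ) (γ : ZMod N) : wft (rv p) γ = conj (wft p γ) := by
  unfold wft rv
  rw [map_sum]
  refine Fintype.sum_equiv (Equiv.neg _) _ _ fun x => ?_
  simp only [map_mul, Complex.conj_ofReal, Equiv.neg_apply]
  rw [← ee_neg]
  congr 2
  ring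

lemma norm_wft_rv (p : ZMod N → ℝ) (γ : ZMod N) : ‖wft (rv p) γ‖ = ‖wft p γ‖ := by
  rw [wft_rv, RCLike.norm_conj]

lemma norm_wft_le_one (p : ZMod N → ℝ) (hp : IsPr p) (γ : ZMod N) : ‖wft p γ‖ ≤ 1 :=
  (norm_wft_le _ hp.1 γ).trans (le_of_eq hp.2)

lemma rep_smo (σ u : ZMod N → ℝ) (c : ZMod N → ℂ) (h : Rep u c) :
    Rep (smo σ u) (fun γ => c γ * ((‖wft σ γ‖ ^ 2 : ℝ) : ℂ)) := by
  have h1 := rep_cnv σ _ _ (rep_cnv (rv σ) u c h)
  intro x
  rw [smo, h1 x]
  refine Finset.sum_congr rfl fun γ _ => ?_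
  beta_reduce
  rw [wft_rv]
  have : ((‖wft σ γ‖ ^ 2 : ℝ) : ℂ) = wft σ γ * conj (wft σ γ) := by
    rw [Complex.mul_conj']; push_cast; ring
  rw [this]; ring

lemma rep_smo_iter (σ u : ZMod N → ℝ) (c : ZMod N → ℂ) (h : Rep u c) (n : ℕ) :
    Rep ((smo σ)^[n] u) (fun γ => c γ * ((((‖wft σ γ‖ ^ 2) ^ n : ℝ)) : ℂ)) := by
  induction n with
  | zero => intro x; simpa using h x
  | succ n ih =>
    rw [Function.iterate_succ_apply']
    have h1 := rep_smo σ _ _ ih
    intro x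
    rw [h1 x]
    refine Finset.sum_congr rfl fun γ _ => ?_
    push_cast
    ring

lemma smo_iter_eq_cnv (σ φ : ZMod N → ℝ) (hσ : IsPr σ) (n : ℕ) :
    ∃ μ, IsPr μ ∧ (smo σ)^[n] φ = cnv μ φ := by
  induction n with
  | zero =>
    refine ⟨unif ({0} : Finset (ZMod N)), ⟨unif_nonneg _, sum_unif _ (Finset.singleton_nonempty 0)⟩,
      ?_⟩
    rw [cnv_unif_zero]; rfl
  | succ n ih =>
    obtain ⟨μ, hμ, h⟩ := ih
    refine ⟨cnv σ (cnv (rv σ) μ), hσ.cnv (hσ.rv.cnv hμ), ?_⟩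
    rw [Function.iterate_succ_apply', h]
    unfold smo
    funext x
    have e1 : cnv (rv σ) (cnv μ φ) = cnv (cnv (rv σ) μ) φ :=
      funext fun z => (cnv_assoc _ _ _ z).symm
    rw [e1, cnv_assoc]

/-- From a noise distribution to a Bohr set. -/
theorem bohr_of_noise (A : Finset (ZMod N)) (hA : A.Nonempty) (ν₁ ν₂ σ : ZMod N → ℝ)
    (hν₁ : IsPr ν₁) (hν₂ : IsPr ν₂) (hσ : IsPr σ) (n : ℕ) (K : ℝ)
    (hAK : ((A - A).card : ℝ) ≤ K * A.card) (hn : K ≤ 4 ^ n / 64)
    (hQ : 3 / 5 ≤ Qf ((smo σ)^[n] (gA A)) (cnv ν₁ (unif (-A))) (cnv ν₂ (unif A))) :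
    ∃ Γ : Finset (ZMod N), (Γ.card : ℝ) ≤ 8 * (Real.log N - entT σ) ∧
      ∀ ε : ℝ, Γ.card * ε ≤ 1 / 250 → ∀ x : ZMod N,
        (∀ γ ∈ Γ, |((γ * x).val : ℝ) / (N : ℝ)
          - ((round (((γ * x).val : ℝ) / (N : ℝ)) : ℤ) : ℝ)| ≤ ε) →
        ∃ a₁ ∈ A, ∃ a₂ ∈ A, ∃ a₃ ∈ A, ∃ a₄ ∈ A, x = a₁ + a₂ - a₃ - a₄ := by
  classical
  have hN : (0 : ℝ) < N := by exact_mod_cast Nat.pos_of_ne_zero (NeZero.ne N)
  have hc : (0 : ℝ) < A.card := by exact_mod_cast hA.card_pos
  have huA : IsPr (unif A) := ⟨unif_nonneg _, sum_unif _ hA⟩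
  have hunA : IsPr (unif (-A)) := ⟨unif_nonneg _, sum_unif _ hA.neg⟩
  set π := cnv ν₁ (unif (-A)) with hπ
  set ω := cnv ν₂ (unif A) with hω
  have hπP : IsPr π := hν₁.cnv hunA
  have hωP : IsPr ω := hν₂.cnv huA
  -- the spectrum
  set Sp : Finset (ZMod N) := Finset.univ.filter (fun γ => (1 : ℝ) / 2 ≤ ‖wft σ γ‖) with hSp
  obtain ⟨Γ, hΓS, hΓc, hΓspan⟩ := Finset.exists_subset_addSpan_card_le_of_forall_addDissociated
    (s := Sp) (d := ⌊8 * (Real.log N - entT σ)⌋₊) (by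
      intro Λ hΛ hdis
      apply Nat.le_floor
      refine chang_measure σ hσ Λ hdis fun γ hγ => ?_
      have := hΛ hγ
      rw [hSp, Finset.mem_filter] at this
      exact this.2)
  refine ⟨Γ, ?_, ?_⟩
  · have h2 : 0 ≤ 8 * (Real.log N - entT σ) := by
      have h3 := ent_le_log_card σ hσ.1 hσ.2 Finset.univ (fun x _ => Finset.mem_univ x)
      rw [Finset.card_univ, ZMod.card] at h3
      have h4 : entT σ ≤ Real.log N := h3
      linarith
    exact (Nat.cast_le.mpr hΓc).trans (Nat.floor_le h2)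
  · intro ε hε x hx
    set u := (smo σ)^[n] (gA A) with hu
    have hub : ∀ z, 0 ≤ u z ∧ u z ≤ 1 := by
      have : ∀ m, ∀ z, 0 ≤ (smo σ)^[m] (gA A) z ∧ (smo σ)^[m] (gA A) z ≤ 1 := by
        intro m
        induction m with
        | zero => exact fun z => ⟨gA_nonneg A z, gA_le_one A z⟩
        | succ m ih =>
          intro z
          rw [Function.iterate_succ_apply']
          exact smo_mem σ _ hσ (fun y => (ih y).1) (fun y => (ih y).2) z
      exact this n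
    set F := cnv (rv π) (cnv (rv ω) u) with hF
    have hF0 : F 0 = Qf u π ω := by
      rw [hF, cnv_rv]
      simp_rw [cnv_rv]
      unfold Qf
      refine Finset.sum_congr rfl fun z _ => ?_
      rw [Finset.mul_sum]
      refine Finset.sum_congr rfl fun w _ => ?_
      rw [zero_add]; ring
    have hFb : ∀ z, 0 ≤ F z ∧ F z ≤ 1 := fun z =>
      ⟨cnv_nonneg _ _ hπP.rv.1 (cnv_nonneg _ _ hωP.rv.1 (fun y => (hub y).1)) z,
        cnv_le_one _ _ hπP.rv.1 hπP.rv.2
          (cnv_le_one _ _ hωP.rv.1 hωP.rv.2 (fun y => (hub y).2)) z⟩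
    -- Fourier expansion
    have hrepF := rep_cnv (rv π) _ _ (rep_cnv (rv ω) _ _
      (rep_smo_iter σ (gA A) _ (rep_inv (gA A)) n))
    set c : ZMod N → ℂ := fun γ => wft (gA A) γ / N * ((((‖wft σ γ‖ ^ 2) ^ n : ℝ)) : ℂ)
      * wft (rv ω) γ * wft (rv π) γ with hcc
    have hrepF' : ∀ z, (F z : ℂ) = ∑ γ, c γ * ee (γ * z) := hrepF
    -- coefficient bounds
    have hcb : ∀ γ, ‖c γ‖ ≤ (A - A).card / N * ‖wft (unif A) γ‖ ^ 2
        * (‖wft σ γ‖ ^ 2) ^ n := by
      intro γ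
      have e1 : ‖wft (gA A) γ‖ ≤ (A - A).card := by
        refine (norm_wft_le _ (gA_nonneg A) γ).trans (le_of_eq ?_)
        unfold gA
        rw [Finset.sum_ite_mem, Finset.univ_inter, Finset.sum_const, nsmul_eq_mul, mul_one]
      have e2 : ‖wft (rv ω) γ‖ ≤ ‖wft (unif A) γ‖ := by
        rw [norm_wft_rv, hω, wft_cnv, norm_mul]
        calc ‖wft ν₂ γ‖ * ‖wft (unif A) γ‖ ≤ 1 * ‖wft (unif A) γ‖ := by
              gcongr; exact norm_wft_le_one ν₂ hν₂ γ
          _ = _ := one_mul _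
      have e3 : ‖wft (rv π) γ‖ ≤ ‖wft (unif A) γ‖ := by
        rw [norm_wft_rv, hπ, wft_cnv, norm_mul, wft_unif_neg, RCLike.norm_conj]
        calc ‖wft ν₁ γ‖ * ‖wft (unif A) γ‖ ≤ 1 * ‖wft (unif A) γ‖ := by
              gcongr; exact norm_wft_le_one ν₁ hν₁ γ
          _ = _ := one_mul _
      rw [hcc]
      beta_reduce
      rw [norm_mul, norm_mul, norm_mul, norm_div,
        Complex.norm_natCast, Complex.norm_real, Real.norm_eq_abs,
        abs_of_nonneg (by positivity : (0 : ℝ) ≤ (‖wft σ γ‖ ^ 2) ^ n)]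
      calc ‖wft (gA A) γ‖ / N * (‖wft σ γ‖ ^ 2) ^ n * ‖wft (rv ω) γ‖ * ‖wft (rv π) γ‖
          ≤ (A - A).card / N * (‖wft σ γ‖ ^ 2) ^ n * ‖wft (unif A) γ‖ * ‖wft (unif A) γ‖ := by
            gcongr
        _ = _ := by ring
    -- the tail
    have htail : ∀ z, ‖∑ γ ∈ Spᶜ, c γ * ee (γ * z)‖ ≤ 1 / 64 := by
      intro z
      have e0 : ∀ γ ∈ Spᶜ, ‖c γ * ee (γ * z)‖
          ≤ ((A - A).card / N * (1 / 4) ^ n) * ‖wft (unif A) γ‖ ^ 2 := by
        intro γ hγ
        rw [Finset.mem_compl, hSp, Finset.mem_filter] at hγ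
        push Not at hγ
        have e2 := (hγ (Finset.mem_univ γ)).le
        have e3 : (‖wft σ γ‖ ^ 2) ^ n ≤ (1 / 4) ^ n := by
          apply pow_le_pow_left₀ (by positivity)
          have := pow_le_pow_left₀ (norm_nonneg _) e2 2
          norm_num at this ⊢
          linarith
        rw [norm_mul, norm_ee, mul_one]
        refine (hcb γ).trans ?_
        calc ((A - A).card : ℝ) / N * ‖wft (unif A) γ‖ ^ 2 * (‖wft σ γ‖ ^ 2) ^ n
            ≤ ((A - A).card : ℝ) / N * ‖wft (unif A) γ‖ ^ 2 * (1 / 4) ^ n := by gcongr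
          _ = _ := by ring
      refine (norm_sum_le _ _).trans ((Finset.sum_le_sum e0).trans ?_)
      rw [← Finset.mul_sum]
      have e4 : ∑ γ ∈ Spᶜ, ‖wft (unif A) γ‖ ^ 2 ≤ N / A.card := by
        rw [← sum_wft_unif_sq A hA]
        exact Finset.sum_le_sum_of_subset_of_nonneg (Finset.subset_univ _)
          fun _ _ _ => by positivity
      have e5 : ((A - A).card : ℝ) / N * (1 / 4) ^ n * (N / A.card) ≤ K * (1 / 4) ^ n := by
        have : ((A - A).card : ℝ) / N * (1 / 4) ^ n * (N / A.card)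
            = (A - A).card / A.card * (1 / 4) ^ n := by field_simp
        rw [this]
        refine mul_le_mul_of_nonneg_right ?_ (by positivity)
        rw [div_le_iff₀ hc]; exact hAK
      have e6 : K * (1 / 4) ^ n ≤ 1 / 64 := by
        have e8 : ((1 : ℝ) / 4) ^ n = (4 ^ n)⁻¹ := by rw [one_div, inv_pow]
        rw [e8]
        have e9 : (0 : ℝ) < 4 ^ n := by positivity
        calc K * (4 ^ n)⁻¹ ≤ 4 ^ n / 64 * (4 ^ n)⁻¹ := by gcongr
          _ = 1 / 64 := by field_simp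
      calc ((A - A).card : ℝ) / N * (1 / 4) ^ n * ∑ γ ∈ Spᶜ, ‖wft (unif A) γ‖ ^ 2
          ≤ ((A - A).card : ℝ) / N * (1 / 4) ^ n * (N / A.card) := by gcongr
        _ ≤ 1 / 64 := e5.trans e6
    have hsplit : ∀ z, (F z : ℂ) = ∑ γ ∈ Sp, c γ * ee (γ * z) + ∑ γ ∈ Spᶜ, c γ * ee (γ * z) := by
      intro z
      rw [hrepF' z, Finset.sum_add_sum_compl]
    -- integer representatives
    have hθex : ∀ γ ∈ Sp, ∃ θ : ℤ, (θ : ZMod N) = γ * x ∧ |(θ : ℝ)| ≤ N / 250 := by
      intro γ hγ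
      obtain ⟨θ, h1, h2⟩ := lift_bohr Γ ε x hx γ (hΓspan hγ)
      refine ⟨θ, h1, h2.trans ?_⟩
      calc (Γ.card : ℝ) * ε * N ≤ 1 / 250 * N := by gcongr
        _ = N / 250 := by ring
    choose! θ hθ1 hθ2 using hθex
    set m : ℕ := N / 250 with hm
    have hm4 : 4 * m + 1 ≤ N := by
      have : 0 < N := Nat.pos_of_ne_zero (NeZero.ne N)
      omega
    have hmN : (m : ℝ) / N ≤ 1 / 250 := by
      rw [div_le_iff₀ hN]
      have : (m : ℝ) ≤ (N : ℝ) / 250 := by rw [hm]; exact_mod_cast Nat.cast_div_le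
      linarith
    have hθm : ∀ γ ∈ Sp, |θ γ| ≤ m := by
      intro γ hγ
      have h1 := hθ2 γ hγ
      have h2 : ((|θ γ| : ℤ) : ℝ) ≤ (N : ℝ) / 250 := by rw [Int.cast_abs]; exact h1
      have h3 : (|θ γ| : ℤ) = ((θ γ).natAbs : ℤ) := Int.abs_eq_natAbs _
      rw [h3] at h2 ⊢
      have h4 : (((θ γ).natAbs : ℕ) : ℝ) ≤ (N : ℝ) / 250 := by
        rw [Nat.cast_natAbs, Int.cast_abs]; exact h1
      have h5 : (θ γ).natAbs ≤ N / 250 := by
        rw [Nat.le_div_iff_mul_le (by norm_num)]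
        rw [le_div_iff₀ (by norm_num)] at h4
        exact_mod_cast h4
      rw [hm]
      exact_mod_cast h5
    have hbern := bernstein (N := N) Sp c θ m hm4 hθm (65 / 64) (by
      intro j
      have e1 : ∑ γ ∈ Sp, c γ * ee (j * (θ γ : ZMod N)) = ∑ γ ∈ Sp, c γ * ee (γ * (j * x)) := by
        refine Finset.sum_congr rfl fun γ hγ => ?_
        rw [hθ1 γ hγ]
        congr 2; ring
      rw [e1]
      have e2 : ∑ γ ∈ Sp, c γ * ee (γ * (j * x))
          = (F (j * x) : ℂ) - ∑ γ ∈ Spᶜ, c γ * ee (γ * (j * x)) := by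
        rw [hsplit (j * x)]; ring
      rw [e2]
      refine (norm_sub_le _ _).trans ?_
      have e3 := htail (j * x)
      have e4 : ‖(F (j * x) : ℂ)‖ ≤ 1 := by
        rw [Complex.norm_real, Real.norm_eq_abs, abs_of_nonneg (hFb _).1]
        exact (hFb _).2
      linarith)
    have e1 : ∑ γ ∈ Sp, c γ * ee ((θ γ : ℤ) : ZMod N) = ∑ γ ∈ Sp, c γ * ee (γ * x) := by
      refine Finset.sum_congr rfl fun γ hγ => ?_
      rw [hθ1 γ hγ]
    have e2 : ∑ γ ∈ Sp, c γ = ∑ γ ∈ Sp, c γ * ee (γ * 0) := by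
      refine Finset.sum_congr rfl fun γ _ => ?_
      rw [mul_zero, ee_zero, mul_one]
    rw [e1, e2] at hbern
    have e3 : ‖(F x : ℂ) - (F 0 : ℂ)‖ ≤ 27 * (m / N) * (65 / 64) + 1 / 64 + 1 / 64 := by
      have e4 : (F x : ℂ) - (F 0 : ℂ)
          = (∑ γ ∈ Sp, c γ * ee (γ * x) - ∑ γ ∈ Sp, c γ * ee (γ * 0))
            + ∑ γ ∈ Spᶜ, c γ * ee (γ * x) - ∑ γ ∈ Spᶜ, c γ * ee (γ * 0) := by
        rw [hsplit x, hsplit 0]; ring
      rw [e4]
      refine (norm_sub_le _ _).trans ?_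
      have e5 := norm_add_le (∑ γ ∈ Sp, c γ * ee (γ * x) - ∑ γ ∈ Sp, c γ * ee (γ * 0))
        (∑ γ ∈ Spᶜ, c γ * ee (γ * x))
      have e6 := htail x
      have e7 := htail 0
      linarith
    rw [← Complex.ofReal_sub, Complex.norm_real, Real.norm_eq_abs] at e3
    have e8 := abs_le.mp e3
    have hsum : 1 < F 0 + F x := by
      have : 27 * ((m : ℝ) / N) * (65 / 64) ≤ 27 * (1 / 250) * (65 / 64) := by gcongr
      norm_num at this
      rw [← hF0] at hQ
      linarith [e8.1]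
    -- the two shifted copies of the difference set meet
    obtain ⟨μ, hμ, hμu⟩ := smo_iter_eq_cnv σ (gA A) hσ n
    set μ' := cnv (rv π) (cnv (rv ω) μ) with hμ'
    have hμ'P : IsPr μ' := hπP.rv.cnv (hωP.rv.cnv hμ)
    have hFμ : F = cnv μ' (gA A) := by
      rw [hF, hu, hμu, hμ']
      funext z
      rw [cnv_assoc]
      have : cnv (cnv (rv ω) μ) (gA A) = cnv (rv ω) (cnv μ (gA A)) :=
        funext fun z => cnv_assoc _ _ _ z
      rw [this]
    have hex : ∃ y, 1 < gA A (0 - y) + gA A (x - y) := by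
      by_contra hno
      push Not at hno
      have h1 : F 0 + F x ≤ 1 := by
        rw [hFμ]
        unfold cnv
        rw [← Finset.sum_add_distrib]
        calc ∑ s, (μ' s * gA A (0 - s) + μ' s * gA A (x - s))
            ≤ ∑ s, μ' s * 1 := by
              refine Finset.sum_le_sum fun s _ => ?_
              rw [← mul_add]
              exact mul_le_mul_of_nonneg_left (hno s) (hμ'P.1 s)
          _ = 1 := by simp_rw [mul_one]; exact hμ'P.2
      linarith
    obtain ⟨y, hy⟩ := hex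
    have hy1 := gA_le_one A (0 - y)
    have hy2 := gA_le_one A (x - y)
    have hm1 := mem_of_gA_ne_zero A (0 - y) (by intro h; rw [h] at hy; linarith)
    have hm2 := mem_of_gA_ne_zero A (x - y) (by intro h; rw [h] at hy; linarith)
    obtain ⟨a1, ha1, a2, ha2, h12⟩ := Finset.mem_sub.mp hm1
    obtain ⟨a3, ha3, a4, ha4, h34⟩ := Finset.mem_sub.mp hm2
    refine ⟨a3, ha3, a2, ha2, a4, ha4, a1, ha1, ?_⟩
    have h5 : x = (x - y) - (0 - y) := by ring
    rw [h5, ← h12, ← h34]; ring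

end Pool.Agent.H18
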